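import Pool.Agent.Lib.MP_0bc52e_nt.R.StmR

/-!
# MP_0bc52e_nt, root theorem: the piece OpR
-/

open scoped Pointwise

namespace Pool.Agent.Lib.MP_0bc52e_nt.R

open Pool.Agent.Lib.MP_0bc52e_nt.LC Pool.Agent.Lib.MP_0bc52e_nt.T

theorem p_OpR (h1 : S_rO) : S_OpR := by
  intro P hlp hinn ht hmt hop
  obtain ⟨⟨v₁, v₂, v₃⟩, ⟨w₁, w₂, w₃⟩, hv, hw, hne, hdet, hneg⟩ := hop
  simp only [pr, det2] at hdet
  simp only at hneg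
  have hv0 : ¬ (v₁ = 0 ∧ v₂ = 0) := by
    rintro ⟨rfl, rfl⟩
    exact hne rfl
  have hsq : 0 < v₁ ^ 2 + v₂ ^ 2 := by
    by_contra hcon
    apply hv0
    constructor <;> nlinarith [sq_nonneg v₁, sq_nonneg v₂]
  refine h1 P hlp hinn (0, 0, 1) (v₁, v₂, v₃) (w₁, w₂, w₃) (((-(v₁ * w₁ + v₂ * w₂) : ℤ)) : ℝ)
    (((v₁ ^ 2 + v₂ ^ 2 : ℤ)) : ℝ) ((((-(v₁ * w₁ + v₂ * w₂)) * v₃ + (v₁ ^ 2 + v₂ ^ 2) * w₃ : ℤ)) : ℝ)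
    ht hmt hv hw ?_ ?_ ?_ ?_
  · intro hcr
    simp only [cr] at hcr
    have e1 := congrArg Prod.fst hcr
    have e2 := congrArg (fun x : ℤ × ℤ × ℤ => x.2.1) hcr
    simp at e1 e2
    exact hv0 ⟨e2, e1⟩
  · exact_mod_cast (by linarith : (0 : ℤ) < -(v₁ * w₁ + v₂ * w₂))
  · exact_mod_cast hsq
  · have hd : ((v₁ : ℝ) * w₂ - v₂ * w₁) = 0 := by exact_mod_cast hdet
    simp only [ip, Prod.smul_mk, Prod.mk_add_mk, smul_eq_mul]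
    push_cast
    refine Prod.ext ?_ (Prod.ext ?_ ?_)
    · change -((v₁ : ℝ) * w₁ + v₂ * w₂) * v₁ + ((v₁ : ℝ) ^ 2 + v₂ ^ 2) * w₁ = _ * 0
      linear_combination (-(v₂ : ℝ)) * hd
    · change -((v₁ : ℝ) * w₁ + v₂ * w₂) * v₂ + ((v₁ : ℝ) ^ 2 + v₂ ^ 2) * w₂ = _ * 0
      linear_combination (v₁ : ℝ) * hd
    · change -((v₁ : ℝ) * w₁ + v₂ * w₂) * v₃ + ((v₁ : ℝ) ^ 2 + v₂ ^ 2) * w₃ = _ * 1
      ring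

end Pool.Agent.Lib.MP_0bc52e_nt.R
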