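import Pool.Agent.Lib.MP_0bc52e_nt.R.StmR

/-!
Piece WT7: the seven weight vectors.
-/

namespace Pool.Agent.Lib.MP_0bc52e_nt.R

open Pool.Agent.Lib.MP_0bc52e_nt.LC Pool.Agent.Lib.MP_0bc52e_nt.T

private theorem rwt7_q {D w j j' c : ℤ} (hj : j' = j + 1) (hD : 0 < D) (h0 : 0 < w) (h2 : 2 * w < D)
    (ha : c * D ≤ w * j) (hb : w * j < (c + 1) * D) :
    (w * j' / D = c ∧ c * D ≤ w * j' ∧ w * j' < (c + 1) * D) ∨
      (w * j' / D = c + 1 ∧ (c + 1) * D ≤ w * j' ∧ w * j' < (c + 1 + 1) * D) := by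
  subst hj
  rcases lt_or_ge (w * (j + 1)) ((c + 1) * D) with h | h
  · left
    have h1 : c * D ≤ w * (j + 1) := by nlinarith
    refine ⟨?_, h1, h⟩
    rw [Int.ediv_eq_iff_of_pos hD]
    constructor <;> linarith
  · right
    have h1 : w * (j + 1) < (c + 1 + 1) * D := by nlinarith
    refine ⟨?_, h, h1⟩
    rw [Int.ediv_eq_iff_of_pos hD]
    constructor <;> linarith

private theorem rwt7_st {D w0 w1 w2 w3 j c0 c1 c2 c3 : ℤ} (j' : ℤ) (hD : 0 < D)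
    (n0 : 0 < w0) (n1 : 0 < w1) (n2 : 0 < w2) (n3 : 0 < w3)
    (t0 : 2 * w0 < D) (t1 : 2 * w1 < D) (t2 : 2 * w2 < D) (t3 : 2 * w3 < D)
    (a0 : c0 * D ≤ w0 * j) (b0 : w0 * j < (c0 + 1) * D)
    (a1 : c1 * D ≤ w1 * j) (b1 : w1 * j < (c1 + 1) * D)
    (a2 : c2 * D ≤ w2 * j) (b2 : w2 * j < (c2 + 1) * D)
    (a3 : c3 * D ≤ w3 * j) (b3 : w3 * j < (c3 + 1) * D)
    (hj : j' = j + 1) (hc : c0 + c1 + c2 + c3 = j - 2)
    (hF : w0 * j' / D + w1 * j' / D + w2 * j' / D + w3 * j' / D = j' - 2) :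
    ((c0 + 1) * D ≤ w0 * j' ∧ w0 * j' < (c0 + 1 + 1) * D ∧ c1 * D ≤ w1 * j' ∧ w1 * j' < (c1 + 1) * D ∧
      c2 * D ≤ w2 * j' ∧ w2 * j' < (c2 + 1) * D ∧ c3 * D ≤ w3 * j' ∧ w3 * j' < (c3 + 1) * D) ∨
    (c0 * D ≤ w0 * j' ∧ w0 * j' < (c0 + 1) * D ∧ (c1 + 1) * D ≤ w1 * j' ∧ w1 * j' < (c1 + 1 + 1) * D ∧
      c2 * D ≤ w2 * j' ∧ w2 * j' < (c2 + 1) * D ∧ c3 * D ≤ w3 * j' ∧ w3 * j' < (c3 + 1) * D) ∨
    (c0 * D ≤ w0 * j' ∧ w0 * j' < (c0 + 1) * D ∧ c1 * D ≤ w1 * j' ∧ w1 * j' < (c1 + 1) * D ∧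
      (c2 + 1) * D ≤ w2 * j' ∧ w2 * j' < (c2 + 1 + 1) * D ∧ c3 * D ≤ w3 * j' ∧ w3 * j' < (c3 + 1) * D) ∨
    (c0 * D ≤ w0 * j' ∧ w0 * j' < (c0 + 1) * D ∧ c1 * D ≤ w1 * j' ∧ w1 * j' < (c1 + 1) * D ∧
      c2 * D ≤ w2 * j' ∧ w2 * j' < (c2 + 1) * D ∧ (c3 + 1) * D ≤ w3 * j' ∧ w3 * j' < (c3 + 1 + 1) * D) := by
  rcases rwt7_q hj hD n0 t0 a0 b0 with ⟨q0, x0, y0⟩ | ⟨q0, x0, y0⟩ <;>
  rcases rwt7_q hj hD n1 t1 a1 b1 with ⟨q1, x1, y1⟩ | ⟨q1, x1, y1⟩ <;>
  rcases rwt7_q hj hD n2 t2 a2 b2 with ⟨q2, x2, y2⟩ | ⟨q2, x2, y2⟩ <;>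
  rcases rwt7_q hj hD n3 t3 a3 b3 with ⟨q3, x3, y3⟩ | ⟨q3, x3, y3⟩ <;>
  rw [q0, q1, q2, q3] at hF <;>
  first
    | (exfalso; omega)
    | exact Or.inl ⟨x0, y0, x1, y1, x2, y2, x3, y3⟩
    | exact Or.inr (Or.inl ⟨x0, y0, x1, y1, x2, y2, x3, y3⟩)
    | exact Or.inr (Or.inr (Or.inl ⟨x0, y0, x1, y1, x2, y2, x3, y3⟩))
    | exact Or.inr (Or.inr (Or.inr ⟨x0, y0, x1, y1, x2, y2, x3, y3⟩))

private theorem rwt7_small : ∀ a ∈ List.range 5, ∀ b ∈ List.range 7, ∀ c ∈ List.range 10,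
    ∀ d ∈ List.range 17, 1 ≤ a → a ≤ b → b ≤ c → c ≤ d → a + b + c + d ≤ 19 →
    (∀ j ∈ List.range 18, 2 ≤ j → j + 2 ≤ a + b + c + d →
      a * j / (a + b + c + d) + b * j / (a + b + c + d) + c * j / (a + b + c + d) +
        d * j / (a + b + c + d) + 2 = j) →
    (a, b, c, d) ∈ [(1, 1, 1, 1), (1, 1, 1, 2), (1, 1, 2, 3), (1, 2, 3, 5), (1, 3, 4, 5),
      (2, 3, 5, 7), (3, 4, 5, 7)] := by
  decide +kernel

private theorem rwt7_big (w0 w1 w2 w3 D : ℤ) (hDe : D = w0 + w1 + w2 + w3) (h20 : 20 ≤ D)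
    (n0 : 0 < w0) (o1 : w0 ≤ w1) (o2 : w1 ≤ w2) (o3 : w2 ≤ w3)
    (hF : ∀ j : ℤ, 2 ≤ j → j + 2 ≤ D →
      w0 * j / D + w1 * j / D + w2 * j / D + w3 * j / D = j - 2) : False := by
  have hD : 0 < D := by omega
  have n1 : 0 < w1 := by omega
  have n2 : 0 < w2 := by omega
  have n3 : 0 < w3 := by omega
  have h2 := hF 2 (by norm_num) (by omega)
  have e0 : 0 ≤ w0 * 2 / D := Int.ediv_nonneg (by omega) hD.le
  have e1 : 0 ≤ w1 * 2 / D := Int.ediv_nonneg (by omega) hD.le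
  have e2 : 0 ≤ w2 * 2 / D := Int.ediv_nonneg (by omega) hD.le
  have e3 : 0 ≤ w3 * 2 / D := Int.ediv_nonneg (by omega) hD.le
  have key : w3 * 2 < D := by
    have h3 : w3 * 2 / D = 0 := by omega
    by_contra hcon
    have : 1 ≤ w3 * 2 / D := by
      rw [Int.le_ediv_iff_mul_le hD]; omega
    omega
  have t0 : 2 * w0 < D := by omega
  have t1 : 2 * w1 < D := by omega
  have t2 : 2 * w2 < D := by omega
  have t3 : 2 * w3 < D := by omega
  have a0_2 : 0 * D ≤ w0 * 2 := by omega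
  have a1_2 : 0 * D ≤ w1 * 2 := by omega
  have a2_2 : 0 * D ≤ w2 * 2 := by omega
  have a3_2 : 0 * D ≤ w3 * 2 := by omega
  have b0_2 : w0 * 2 < (0 + 1) * D := by omega
  have b1_2 : w1 * 2 < (0 + 1) * D := by omega
  have b2_2 : w2 * 2 < (0 + 1) * D := by omega
  have b3_2 : w3 * 2 < (0 + 1) * D := by omega
  clear h2 e0 e1 e2 e3 key

  rcases rwt7_st 3 hD n0 n1 n2 n3 t0 t1 t2 t3 a0_2 b0_2 a1_2 b1_2 a2_2 b2_2 a3_2 b3_2 (by norm_num) (by norm_num) (hF 3 (by norm_num) (by omega)) with ⟨a0_3, b0_3, a1_3, b1_3, a2_3, b2_3, a3_3, b3_3⟩ | ⟨a0_3, b0_3, a1_3, b1_3, a2_3, b2_3, a3_3, b3_3⟩ | ⟨a0_3, b0_3, a1_3, b1_3, a2_3, b2_3, a3_3, b3_3⟩ | ⟨a0_3, b0_3, a1_3, b1_3, a2_3, b2_3, a3_3, b3_3⟩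
  · omega
  · omega
  · omega
  ·
    rcases rwt7_st 4 hD n0 n1 n2 n3 t0 t1 t2 t3 a0_3 b0_3 a1_3 b1_3 a2_3 b2_3 a3_3 b3_3 (by norm_num) (by norm_num) (hF 4 (by norm_num) (by omega)) with ⟨a0_4, b0_4, a1_4, b1_4, a2_4, b2_4, a3_4, b3_4⟩ | ⟨a0_4, b0_4, a1_4, b1_4, a2_4, b2_4, a3_4, b3_4⟩ | ⟨a0_4, b0_4, a1_4, b1_4, a2_4, b2_4, a3_4, b3_4⟩ | ⟨a0_4, b0_4, a1_4, b1_4, a2_4, b2_4, a3_4, b3_4⟩
    · omega
    · omega
    ·
      rcases rwt7_st 5 hD n0 n1 n2 n3 t0 t1 t2 t3 a0_4 b0_4 a1_4 b1_4 a2_4 b2_4 a3_4 b3_4 (by norm_num) (by norm_num) (hF 5 (by norm_num) (by omega)) with ⟨a0_5, b0_5, a1_5, b1_5, a2_5, b2_5, a3_5, b3_5⟩ | ⟨a0_5, b0_5, a1_5, b1_5, a2_5, b2_5, a3_5, b3_5⟩ | ⟨a0_5, b0_5, a1_5, b1_5, a2_5, b2_5, a3_5, b3_5⟩ | ⟨a0_5, b0_5, a1_5, b1_5, a2_5, b2_5, a3_5, b3_5⟩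
      · omega
      ·
        rcases rwt7_st 6 hD n0 n1 n2 n3 t0 t1 t2 t3 a0_5 b0_5 a1_5 b1_5 a2_5 b2_5 a3_5 b3_5 (by norm_num) (by norm_num) (hF 6 (by norm_num) (by omega)) with ⟨a0_6, b0_6, a1_6, b1_6, a2_6, b2_6, a3_6, b3_6⟩ | ⟨a0_6, b0_6, a1_6, b1_6, a2_6, b2_6, a3_6, b3_6⟩ | ⟨a0_6, b0_6, a1_6, b1_6, a2_6, b2_6, a3_6, b3_6⟩ | ⟨a0_6, b0_6, a1_6, b1_6, a2_6, b2_6, a3_6, b3_6⟩
        · omega
        · omega
        · omega
        ·
          rcases rwt7_st 7 hD n0 n1 n2 n3 t0 t1 t2 t3 a0_6 b0_6 a1_6 b1_6 a2_6 b2_6 a3_6 b3_6 (by norm_num) (by norm_num) (hF 7 (by norm_num) (by omega)) with ⟨a0_7, b0_7, a1_7, b1_7, a2_7, b2_7, a3_7, b3_7⟩ | ⟨a0_7, b0_7, a1_7, b1_7, a2_7, b2_7, a3_7, b3_7⟩ | ⟨a0_7, b0_7, a1_7, b1_7, a2_7, b2_7, a3_7, b3_7⟩ | ⟨a0_7, b0_7, a1_7, b1_7, a2_7, b2_7, a3_7, b3_7⟩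
          ·
            rcases rwt7_st 8 hD n0 n1 n2 n3 t0 t1 t2 t3 a0_7 b0_7 a1_7 b1_7 a2_7 b2_7 a3_7 b3_7 (by norm_num) (by norm_num) (hF 8 (by norm_num) (by omega)) with ⟨a0_8, b0_8, a1_8, b1_8, a2_8, b2_8, a3_8, b3_8⟩ | ⟨a0_8, b0_8, a1_8, b1_8, a2_8, b2_8, a3_8, b3_8⟩ | ⟨a0_8, b0_8, a1_8, b1_8, a2_8, b2_8, a3_8, b3_8⟩ | ⟨a0_8, b0_8, a1_8, b1_8, a2_8, b2_8, a3_8, b3_8⟩
            · omega
            · omega
            ·
              rcases rwt7_st 9 hD n0 n1 n2 n3 t0 t1 t2 t3 a0_8 b0_8 a1_8 b1_8 a2_8 b2_8 a3_8 b3_8 (by norm_num) (by norm_num) (hF 9 (by norm_num) (by omega)) with ⟨a0_9, b0_9, a1_9, b1_9, a2_9, b2_9, a3_9, b3_9⟩ | ⟨a0_9, b0_9, a1_9, b1_9, a2_9, b2_9, a3_9, b3_9⟩ | ⟨a0_9, b0_9, a1_9, b1_9, a2_9, b2_9, a3_9, b3_9⟩ | ⟨a0_9, b0_9, a1_9, b1_9, a2_9, b2_9, a3_9, b3_9⟩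
              · omega
              · omega
              · omega
              ·
                rcases rwt7_st 10 hD n0 n1 n2 n3 t0 t1 t2 t3 a0_9 b0_9 a1_9 b1_9 a2_9 b2_9 a3_9 b3_9 (by norm_num) (by norm_num) (hF 10 (by norm_num) (by omega)) with ⟨a0_10, b0_10, a1_10, b1_10, a2_10, b2_10, a3_10, b3_10⟩ | ⟨a0_10, b0_10, a1_10, b1_10, a2_10, b2_10, a3_10, b3_10⟩ | ⟨a0_10, b0_10, a1_10, b1_10, a2_10, b2_10, a3_10, b3_10⟩ | ⟨a0_10, b0_10, a1_10, b1_10, a2_10, b2_10, a3_10, b3_10⟩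
                · omega
                ·
                  rcases rwt7_st 11 hD n0 n1 n2 n3 t0 t1 t2 t3 a0_10 b0_10 a1_10 b1_10 a2_10 b2_10 a3_10 b3_10 (by norm_num) (by norm_num) (hF 11 (by norm_num) (by omega)) with ⟨a0_11, b0_11, a1_11, b1_11, a2_11, b2_11, a3_11, b3_11⟩ | ⟨a0_11, b0_11, a1_11, b1_11, a2_11, b2_11, a3_11, b3_11⟩ | ⟨a0_11, b0_11, a1_11, b1_11, a2_11, b2_11, a3_11, b3_11⟩ | ⟨a0_11, b0_11, a1_11, b1_11, a2_11, b2_11, a3_11, b3_11⟩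
                  · omega
                  · omega
                  ·
                    rcases rwt7_st 12 hD n0 n1 n2 n3 t0 t1 t2 t3 a0_11 b0_11 a1_11 b1_11 a2_11 b2_11 a3_11 b3_11 (by norm_num) (by norm_num) (hF 12 (by norm_num) (by omega)) with ⟨a0_12, b0_12, a1_12, b1_12, a2_12, b2_12, a3_12, b3_12⟩ | ⟨a0_12, b0_12, a1_12, b1_12, a2_12, b2_12, a3_12, b3_12⟩ | ⟨a0_12, b0_12, a1_12, b1_12, a2_12, b2_12, a3_12, b3_12⟩ | ⟨a0_12, b0_12, a1_12, b1_12, a2_12, b2_12, a3_12, b3_12⟩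
                    · omega
                    · omega
                    · omega
                    ·
                      rcases rwt7_st 13 hD n0 n1 n2 n3 t0 t1 t2 t3 a0_12 b0_12 a1_12 b1_12 a2_12 b2_12 a3_12 b3_12 (by norm_num) (by norm_num) (hF 13 (by norm_num) (by omega)) with ⟨a0_13, b0_13, a1_13, b1_13, a2_13, b2_13, a3_13, b3_13⟩ | ⟨a0_13, b0_13, a1_13, b1_13, a2_13, b2_13, a3_13, b3_13⟩ | ⟨a0_13, b0_13, a1_13, b1_13, a2_13, b2_13, a3_13, b3_13⟩ | ⟨a0_13, b0_13, a1_13, b1_13, a2_13, b2_13, a3_13, b3_13⟩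
                      ·
                        rcases rwt7_st 14 hD n0 n1 n2 n3 t0 t1 t2 t3 a0_13 b0_13 a1_13 b1_13 a2_13 b2_13 a3_13 b3_13 (by norm_num) (by norm_num) (hF 14 (by norm_num) (by omega)) with ⟨a0_14, b0_14, a1_14, b1_14, a2_14, b2_14, a3_14, b3_14⟩ | ⟨a0_14, b0_14, a1_14, b1_14, a2_14, b2_14, a3_14, b3_14⟩ | ⟨a0_14, b0_14, a1_14, b1_14, a2_14, b2_14, a3_14, b3_14⟩ | ⟨a0_14, b0_14, a1_14, b1_14, a2_14, b2_14, a3_14, b3_14⟩
                        · omega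
                        ·
                          rcases rwt7_st 15 hD n0 n1 n2 n3 t0 t1 t2 t3 a0_14 b0_14 a1_14 b1_14 a2_14 b2_14 a3_14 b3_14 (by norm_num) (by norm_num) (hF 15 (by norm_num) (by omega)) with ⟨a0_15, b0_15, a1_15, b1_15, a2_15, b2_15, a3_15, b3_15⟩ | ⟨a0_15, b0_15, a1_15, b1_15, a2_15, b2_15, a3_15, b3_15⟩ | ⟨a0_15, b0_15, a1_15, b1_15, a2_15, b2_15, a3_15, b3_15⟩ | ⟨a0_15, b0_15, a1_15, b1_15, a2_15, b2_15, a3_15, b3_15⟩
                          · omega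
                          · omega
                          · omega
                          · omega
                        · omega
                        ·
                          rcases rwt7_st 15 hD n0 n1 n2 n3 t0 t1 t2 t3 a0_14 b0_14 a1_14 b1_14 a2_14 b2_14 a3_14 b3_14 (by norm_num) (by norm_num) (hF 15 (by norm_num) (by omega)) with ⟨a0_15, b0_15, a1_15, b1_15, a2_15, b2_15, a3_15, b3_15⟩ | ⟨a0_15, b0_15, a1_15, b1_15, a2_15, b2_15, a3_15, b3_15⟩ | ⟨a0_15, b0_15, a1_15, b1_15, a2_15, b2_15, a3_15, b3_15⟩ | ⟨a0_15, b0_15, a1_15, b1_15, a2_15, b2_15, a3_15, b3_15⟩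
                          · omega
                          · omega
                          · omega
                          · omega
                      · omega
                      · omega
                      · omega
                  ·
                    rcases rwt7_st 12 hD n0 n1 n2 n3 t0 t1 t2 t3 a0_11 b0_11 a1_11 b1_11 a2_11 b2_11 a3_11 b3_11 (by norm_num) (by norm_num) (hF 12 (by norm_num) (by omega)) with ⟨a0_12, b0_12, a1_12, b1_12, a2_12, b2_12, a3_12, b3_12⟩ | ⟨a0_12, b0_12, a1_12, b1_12, a2_12, b2_12, a3_12, b3_12⟩ | ⟨a0_12, b0_12, a1_12, b1_12, a2_12, b2_12, a3_12, b3_12⟩ | ⟨a0_12, b0_12, a1_12, b1_12, a2_12, b2_12, a3_12, b3_12⟩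
                    · omega
                    · omega
                    ·
                      rcases rwt7_st 13 hD n0 n1 n2 n3 t0 t1 t2 t3 a0_12 b0_12 a1_12 b1_12 a2_12 b2_12 a3_12 b3_12 (by norm_num) (by norm_num) (hF 13 (by norm_num) (by omega)) with ⟨a0_13, b0_13, a1_13, b1_13, a2_13, b2_13, a3_13, b3_13⟩ | ⟨a0_13, b0_13, a1_13, b1_13, a2_13, b2_13, a3_13, b3_13⟩ | ⟨a0_13, b0_13, a1_13, b1_13, a2_13, b2_13, a3_13, b3_13⟩ | ⟨a0_13, b0_13, a1_13, b1_13, a2_13, b2_13, a3_13, b3_13⟩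
                      ·
                        rcases rwt7_st 14 hD n0 n1 n2 n3 t0 t1 t2 t3 a0_13 b0_13 a1_13 b1_13 a2_13 b2_13 a3_13 b3_13 (by norm_num) (by norm_num) (hF 14 (by norm_num) (by omega)) with ⟨a0_14, b0_14, a1_14, b1_14, a2_14, b2_14, a3_14, b3_14⟩ | ⟨a0_14, b0_14, a1_14, b1_14, a2_14, b2_14, a3_14, b3_14⟩ | ⟨a0_14, b0_14, a1_14, b1_14, a2_14, b2_14, a3_14, b3_14⟩ | ⟨a0_14, b0_14, a1_14, b1_14, a2_14, b2_14, a3_14, b3_14⟩
                        · omega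
                        · omega
                        · omega
                        ·
                          rcases rwt7_st 15 hD n0 n1 n2 n3 t0 t1 t2 t3 a0_14 b0_14 a1_14 b1_14 a2_14 b2_14 a3_14 b3_14 (by norm_num) (by norm_num) (hF 15 (by norm_num) (by omega)) with ⟨a0_15, b0_15, a1_15, b1_15, a2_15, b2_15, a3_15, b3_15⟩ | ⟨a0_15, b0_15, a1_15, b1_15, a2_15, b2_15, a3_15, b3_15⟩ | ⟨a0_15, b0_15, a1_15, b1_15, a2_15, b2_15, a3_15, b3_15⟩ | ⟨a0_15, b0_15, a1_15, b1_15, a2_15, b2_15, a3_15, b3_15⟩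
                          · omega
                          ·
                            rcases rwt7_st 16 hD n0 n1 n2 n3 t0 t1 t2 t3 a0_15 b0_15 a1_15 b1_15 a2_15 b2_15 a3_15 b3_15 (by norm_num) (by norm_num) (hF 16 (by norm_num) (by omega)) with ⟨a0_16, b0_16, a1_16, b1_16, a2_16, b2_16, a3_16, b3_16⟩ | ⟨a0_16, b0_16, a1_16, b1_16, a2_16, b2_16, a3_16, b3_16⟩ | ⟨a0_16, b0_16, a1_16, b1_16, a2_16, b2_16, a3_16, b3_16⟩ | ⟨a0_16, b0_16, a1_16, b1_16, a2_16, b2_16, a3_16, b3_16⟩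
                            · omega
                            · omega
                            ·
                              rcases rwt7_st 17 hD n0 n1 n2 n3 t0 t1 t2 t3 a0_16 b0_16 a1_16 b1_16 a2_16 b2_16 a3_16 b3_16 (by norm_num) (by norm_num) (hF 17 (by norm_num) (by omega)) with ⟨a0_17, b0_17, a1_17, b1_17, a2_17, b2_17, a3_17, b3_17⟩ | ⟨a0_17, b0_17, a1_17, b1_17, a2_17, b2_17, a3_17, b3_17⟩ | ⟨a0_17, b0_17, a1_17, b1_17, a2_17, b2_17, a3_17, b3_17⟩ | ⟨a0_17, b0_17, a1_17, b1_17, a2_17, b2_17, a3_17, b3_17⟩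
                              · omega
                              · omega
                              · omega
                              ·
                                rcases rwt7_st 18 hD n0 n1 n2 n3 t0 t1 t2 t3 a0_17 b0_17 a1_17 b1_17 a2_17 b2_17 a3_17 b3_17 (by norm_num) (by norm_num) (hF 18 (by norm_num) (by omega)) with ⟨a0_18, b0_18, a1_18, b1_18, a2_18, b2_18, a3_18, b3_18⟩ | ⟨a0_18, b0_18, a1_18, b1_18, a2_18, b2_18, a3_18, b3_18⟩ | ⟨a0_18, b0_18, a1_18, b1_18, a2_18, b2_18, a3_18, b3_18⟩ | ⟨a0_18, b0_18, a1_18, b1_18, a2_18, b2_18, a3_18, b3_18⟩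
                                · omega
                                · omega
                                · omega
                                · omega
                            · omega
                          · omega
                          · omega
                      · omega
                      · omega
                      · omega
                    · omega
                · omega
                · omega
            · omega
          · omega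
          ·
            rcases rwt7_st 8 hD n0 n1 n2 n3 t0 t1 t2 t3 a0_7 b0_7 a1_7 b1_7 a2_7 b2_7 a3_7 b3_7 (by norm_num) (by norm_num) (hF 8 (by norm_num) (by omega)) with ⟨a0_8, b0_8, a1_8, b1_8, a2_8, b2_8, a3_8, b3_8⟩ | ⟨a0_8, b0_8, a1_8, b1_8, a2_8, b2_8, a3_8, b3_8⟩ | ⟨a0_8, b0_8, a1_8, b1_8, a2_8, b2_8, a3_8, b3_8⟩ | ⟨a0_8, b0_8, a1_8, b1_8, a2_8, b2_8, a3_8, b3_8⟩
            ·
              rcases rwt7_st 9 hD n0 n1 n2 n3 t0 t1 t2 t3 a0_8 b0_8 a1_8 b1_8 a2_8 b2_8 a3_8 b3_8 (by norm_num) (by norm_num) (hF 9 (by norm_num) (by omega)) with ⟨a0_9, b0_9, a1_9, b1_9, a2_9, b2_9, a3_9, b3_9⟩ | ⟨a0_9, b0_9, a1_9, b1_9, a2_9, b2_9, a3_9, b3_9⟩ | ⟨a0_9, b0_9, a1_9, b1_9, a2_9, b2_9, a3_9, b3_9⟩ | ⟨a0_9, b0_9, a1_9, b1_9, a2_9, b2_9, a3_9, b3_9⟩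
              · omega
              · omega
              · omega
              ·
                rcases rwt7_st 10 hD n0 n1 n2 n3 t0 t1 t2 t3 a0_9 b0_9 a1_9 b1_9 a2_9 b2_9 a3_9 b3_9 (by norm_num) (by norm_num) (hF 10 (by norm_num) (by omega)) with ⟨a0_10, b0_10, a1_10, b1_10, a2_10, b2_10, a3_10, b3_10⟩ | ⟨a0_10, b0_10, a1_10, b1_10, a2_10, b2_10, a3_10, b3_10⟩ | ⟨a0_10, b0_10, a1_10, b1_10, a2_10, b2_10, a3_10, b3_10⟩ | ⟨a0_10, b0_10, a1_10, b1_10, a2_10, b2_10, a3_10, b3_10⟩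
                · omega
                ·
                  rcases rwt7_st 11 hD n0 n1 n2 n3 t0 t1 t2 t3 a0_10 b0_10 a1_10 b1_10 a2_10 b2_10 a3_10 b3_10 (by norm_num) (by norm_num) (hF 11 (by norm_num) (by omega)) with ⟨a0_11, b0_11, a1_11, b1_11, a2_11, b2_11, a3_11, b3_11⟩ | ⟨a0_11, b0_11, a1_11, b1_11, a2_11, b2_11, a3_11, b3_11⟩ | ⟨a0_11, b0_11, a1_11, b1_11, a2_11, b2_11, a3_11, b3_11⟩ | ⟨a0_11, b0_11, a1_11, b1_11, a2_11, b2_11, a3_11, b3_11⟩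
                  · omega
                  · omega
                  ·
                    rcases rwt7_st 12 hD n0 n1 n2 n3 t0 t1 t2 t3 a0_11 b0_11 a1_11 b1_11 a2_11 b2_11 a3_11 b3_11 (by norm_num) (by norm_num) (hF 12 (by norm_num) (by omega)) with ⟨a0_12, b0_12, a1_12, b1_12, a2_12, b2_12, a3_12, b3_12⟩ | ⟨a0_12, b0_12, a1_12, b1_12, a2_12, b2_12, a3_12, b3_12⟩ | ⟨a0_12, b0_12, a1_12, b1_12, a2_12, b2_12, a3_12, b3_12⟩ | ⟨a0_12, b0_12, a1_12, b1_12, a2_12, b2_12, a3_12, b3_12⟩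
                    · omega
                    · omega
                    · omega
                    ·
                      rcases rwt7_st 13 hD n0 n1 n2 n3 t0 t1 t2 t3 a0_12 b0_12 a1_12 b1_12 a2_12 b2_12 a3_12 b3_12 (by norm_num) (by norm_num) (hF 13 (by norm_num) (by omega)) with ⟨a0_13, b0_13, a1_13, b1_13, a2_13, b2_13, a3_13, b3_13⟩ | ⟨a0_13, b0_13, a1_13, b1_13, a2_13, b2_13, a3_13, b3_13⟩ | ⟨a0_13, b0_13, a1_13, b1_13, a2_13, b2_13, a3_13, b3_13⟩ | ⟨a0_13, b0_13, a1_13, b1_13, a2_13, b2_13, a3_13, b3_13⟩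
                      · omega
                      · omega
                      · omega
                      · omega
                  · omega
                · omega
                · omega
            · omega
            · omega
            ·
              rcases rwt7_st 9 hD n0 n1 n2 n3 t0 t1 t2 t3 a0_8 b0_8 a1_8 b1_8 a2_8 b2_8 a3_8 b3_8 (by norm_num) (by norm_num) (hF 9 (by norm_num) (by omega)) with ⟨a0_9, b0_9, a1_9, b1_9, a2_9, b2_9, a3_9, b3_9⟩ | ⟨a0_9, b0_9, a1_9, b1_9, a2_9, b2_9, a3_9, b3_9⟩ | ⟨a0_9, b0_9, a1_9, b1_9, a2_9, b2_9, a3_9, b3_9⟩ | ⟨a0_9, b0_9, a1_9, b1_9, a2_9, b2_9, a3_9, b3_9⟩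
              ·
                rcases rwt7_st 10 hD n0 n1 n2 n3 t0 t1 t2 t3 a0_9 b0_9 a1_9 b1_9 a2_9 b2_9 a3_9 b3_9 (by norm_num) (by norm_num) (hF 10 (by norm_num) (by omega)) with ⟨a0_10, b0_10, a1_10, b1_10, a2_10, b2_10, a3_10, b3_10⟩ | ⟨a0_10, b0_10, a1_10, b1_10, a2_10, b2_10, a3_10, b3_10⟩ | ⟨a0_10, b0_10, a1_10, b1_10, a2_10, b2_10, a3_10, b3_10⟩ | ⟨a0_10, b0_10, a1_10, b1_10, a2_10, b2_10, a3_10, b3_10⟩
                · omega
                ·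
                  rcases rwt7_st 11 hD n0 n1 n2 n3 t0 t1 t2 t3 a0_10 b0_10 a1_10 b1_10 a2_10 b2_10 a3_10 b3_10 (by norm_num) (by norm_num) (hF 11 (by norm_num) (by omega)) with ⟨a0_11, b0_11, a1_11, b1_11, a2_11, b2_11, a3_11, b3_11⟩ | ⟨a0_11, b0_11, a1_11, b1_11, a2_11, b2_11, a3_11, b3_11⟩ | ⟨a0_11, b0_11, a1_11, b1_11, a2_11, b2_11, a3_11, b3_11⟩ | ⟨a0_11, b0_11, a1_11, b1_11, a2_11, b2_11, a3_11, b3_11⟩
                  · omega
                  · omega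
                  · omega
                  · omega
                · omega
                · omega
              ·
                rcases rwt7_st 10 hD n0 n1 n2 n3 t0 t1 t2 t3 a0_9 b0_9 a1_9 b1_9 a2_9 b2_9 a3_9 b3_9 (by norm_num) (by norm_num) (hF 10 (by norm_num) (by omega)) with ⟨a0_10, b0_10, a1_10, b1_10, a2_10, b2_10, a3_10, b3_10⟩ | ⟨a0_10, b0_10, a1_10, b1_10, a2_10, b2_10, a3_10, b3_10⟩ | ⟨a0_10, b0_10, a1_10, b1_10, a2_10, b2_10, a3_10, b3_10⟩ | ⟨a0_10, b0_10, a1_10, b1_10, a2_10, b2_10, a3_10, b3_10⟩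
                ·
                  rcases rwt7_st 11 hD n0 n1 n2 n3 t0 t1 t2 t3 a0_10 b0_10 a1_10 b1_10 a2_10 b2_10 a3_10 b3_10 (by norm_num) (by norm_num) (hF 11 (by norm_num) (by omega)) with ⟨a0_11, b0_11, a1_11, b1_11, a2_11, b2_11, a3_11, b3_11⟩ | ⟨a0_11, b0_11, a1_11, b1_11, a2_11, b2_11, a3_11, b3_11⟩ | ⟨a0_11, b0_11, a1_11, b1_11, a2_11, b2_11, a3_11, b3_11⟩ | ⟨a0_11, b0_11, a1_11, b1_11, a2_11, b2_11, a3_11, b3_11⟩
                  · omega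
                  · omega
                  · omega
                  · omega
                · omega
                ·
                  rcases rwt7_st 11 hD n0 n1 n2 n3 t0 t1 t2 t3 a0_10 b0_10 a1_10 b1_10 a2_10 b2_10 a3_10 b3_10 (by norm_num) (by norm_num) (hF 11 (by norm_num) (by omega)) with ⟨a0_11, b0_11, a1_11, b1_11, a2_11, b2_11, a3_11, b3_11⟩ | ⟨a0_11, b0_11, a1_11, b1_11, a2_11, b2_11, a3_11, b3_11⟩ | ⟨a0_11, b0_11, a1_11, b1_11, a2_11, b2_11, a3_11, b3_11⟩ | ⟨a0_11, b0_11, a1_11, b1_11, a2_11, b2_11, a3_11, b3_11⟩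
                  · omega
                  · omega
                  · omega
                  ·
                    rcases rwt7_st 12 hD n0 n1 n2 n3 t0 t1 t2 t3 a0_11 b0_11 a1_11 b1_11 a2_11 b2_11 a3_11 b3_11 (by norm_num) (by norm_num) (hF 12 (by norm_num) (by omega)) with ⟨a0_12, b0_12, a1_12, b1_12, a2_12, b2_12, a3_12, b3_12⟩ | ⟨a0_12, b0_12, a1_12, b1_12, a2_12, b2_12, a3_12, b3_12⟩ | ⟨a0_12, b0_12, a1_12, b1_12, a2_12, b2_12, a3_12, b3_12⟩ | ⟨a0_12, b0_12, a1_12, b1_12, a2_12, b2_12, a3_12, b3_12⟩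
                    ·
                      rcases rwt7_st 13 hD n0 n1 n2 n3 t0 t1 t2 t3 a0_12 b0_12 a1_12 b1_12 a2_12 b2_12 a3_12 b3_12 (by norm_num) (by norm_num) (hF 13 (by norm_num) (by omega)) with ⟨a0_13, b0_13, a1_13, b1_13, a2_13, b2_13, a3_13, b3_13⟩ | ⟨a0_13, b0_13, a1_13, b1_13, a2_13, b2_13, a3_13, b3_13⟩ | ⟨a0_13, b0_13, a1_13, b1_13, a2_13, b2_13, a3_13, b3_13⟩ | ⟨a0_13, b0_13, a1_13, b1_13, a2_13, b2_13, a3_13, b3_13⟩
                      · omega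
                      ·
                        rcases rwt7_st 14 hD n0 n1 n2 n3 t0 t1 t2 t3 a0_13 b0_13 a1_13 b1_13 a2_13 b2_13 a3_13 b3_13 (by norm_num) (by norm_num) (hF 14 (by norm_num) (by omega)) with ⟨a0_14, b0_14, a1_14, b1_14, a2_14, b2_14, a3_14, b3_14⟩ | ⟨a0_14, b0_14, a1_14, b1_14, a2_14, b2_14, a3_14, b3_14⟩ | ⟨a0_14, b0_14, a1_14, b1_14, a2_14, b2_14, a3_14, b3_14⟩ | ⟨a0_14, b0_14, a1_14, b1_14, a2_14, b2_14, a3_14, b3_14⟩
                        · omega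
                        · omega
                        · omega
                        · omega
                      ·
                        rcases rwt7_st 14 hD n0 n1 n2 n3 t0 t1 t2 t3 a0_13 b0_13 a1_13 b1_13 a2_13 b2_13 a3_13 b3_13 (by norm_num) (by norm_num) (hF 14 (by norm_num) (by omega)) with ⟨a0_14, b0_14, a1_14, b1_14, a2_14, b2_14, a3_14, b3_14⟩ | ⟨a0_14, b0_14, a1_14, b1_14, a2_14, b2_14, a3_14, b3_14⟩ | ⟨a0_14, b0_14, a1_14, b1_14, a2_14, b2_14, a3_14, b3_14⟩ | ⟨a0_14, b0_14, a1_14, b1_14, a2_14, b2_14, a3_14, b3_14⟩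
                        · omega
                        · omega
                        · omega
                        · omega
                      ·
                        rcases rwt7_st 14 hD n0 n1 n2 n3 t0 t1 t2 t3 a0_13 b0_13 a1_13 b1_13 a2_13 b2_13 a3_13 b3_13 (by norm_num) (by norm_num) (hF 14 (by norm_num) (by omega)) with ⟨a0_14, b0_14, a1_14, b1_14, a2_14, b2_14, a3_14, b3_14⟩ | ⟨a0_14, b0_14, a1_14, b1_14, a2_14, b2_14, a3_14, b3_14⟩ | ⟨a0_14, b0_14, a1_14, b1_14, a2_14, b2_14, a3_14, b3_14⟩ | ⟨a0_14, b0_14, a1_14, b1_14, a2_14, b2_14, a3_14, b3_14⟩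
                        · omega
                        · omega
                        · omega
                        · omega
                    · omega
                    · omega
                    · omega
                · omega
              · omega
              · omega
          · omega
      · omega
      ·
        rcases rwt7_st 6 hD n0 n1 n2 n3 t0 t1 t2 t3 a0_5 b0_5 a1_5 b1_5 a2_5 b2_5 a3_5 b3_5 (by norm_num) (by norm_num) (hF 6 (by norm_num) (by omega)) with ⟨a0_6, b0_6, a1_6, b1_6, a2_6, b2_6, a3_6, b3_6⟩ | ⟨a0_6, b0_6, a1_6, b1_6, a2_6, b2_6, a3_6, b3_6⟩ | ⟨a0_6, b0_6, a1_6, b1_6, a2_6, b2_6, a3_6, b3_6⟩ | ⟨a0_6, b0_6, a1_6, b1_6, a2_6, b2_6, a3_6, b3_6⟩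
        · omega
        ·
          rcases rwt7_st 7 hD n0 n1 n2 n3 t0 t1 t2 t3 a0_6 b0_6 a1_6 b1_6 a2_6 b2_6 a3_6 b3_6 (by norm_num) (by norm_num) (hF 7 (by norm_num) (by omega)) with ⟨a0_7, b0_7, a1_7, b1_7, a2_7, b2_7, a3_7, b3_7⟩ | ⟨a0_7, b0_7, a1_7, b1_7, a2_7, b2_7, a3_7, b3_7⟩ | ⟨a0_7, b0_7, a1_7, b1_7, a2_7, b2_7, a3_7, b3_7⟩ | ⟨a0_7, b0_7, a1_7, b1_7, a2_7, b2_7, a3_7, b3_7⟩
          ·
            rcases rwt7_st 8 hD n0 n1 n2 n3 t0 t1 t2 t3 a0_7 b0_7 a1_7 b1_7 a2_7 b2_7 a3_7 b3_7 (by norm_num) (by norm_num) (hF 8 (by norm_num) (by omega)) with ⟨a0_8, b0_8, a1_8, b1_8, a2_8, b2_8, a3_8, b3_8⟩ | ⟨a0_8, b0_8, a1_8, b1_8, a2_8, b2_8, a3_8, b3_8⟩ | ⟨a0_8, b0_8, a1_8, b1_8, a2_8, b2_8, a3_8, b3_8⟩ | ⟨a0_8, b0_8, a1_8, b1_8, a2_8, b2_8, a3_8, b3_8⟩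
            · omega
            · omega
            · omega
            · omega
          · omega
          ·
            rcases rwt7_st 8 hD n0 n1 n2 n3 t0 t1 t2 t3 a0_7 b0_7 a1_7 b1_7 a2_7 b2_7 a3_7 b3_7 (by norm_num) (by norm_num) (hF 8 (by norm_num) (by omega)) with ⟨a0_8, b0_8, a1_8, b1_8, a2_8, b2_8, a3_8, b3_8⟩ | ⟨a0_8, b0_8, a1_8, b1_8, a2_8, b2_8, a3_8, b3_8⟩ | ⟨a0_8, b0_8, a1_8, b1_8, a2_8, b2_8, a3_8, b3_8⟩ | ⟨a0_8, b0_8, a1_8, b1_8, a2_8, b2_8, a3_8, b3_8⟩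
            · omega
            · omega
            · omega
            ·
              rcases rwt7_st 9 hD n0 n1 n2 n3 t0 t1 t2 t3 a0_8 b0_8 a1_8 b1_8 a2_8 b2_8 a3_8 b3_8 (by norm_num) (by norm_num) (hF 9 (by norm_num) (by omega)) with ⟨a0_9, b0_9, a1_9, b1_9, a2_9, b2_9, a3_9, b3_9⟩ | ⟨a0_9, b0_9, a1_9, b1_9, a2_9, b2_9, a3_9, b3_9⟩ | ⟨a0_9, b0_9, a1_9, b1_9, a2_9, b2_9, a3_9, b3_9⟩ | ⟨a0_9, b0_9, a1_9, b1_9, a2_9, b2_9, a3_9, b3_9⟩
              ·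
                rcases rwt7_st 10 hD n0 n1 n2 n3 t0 t1 t2 t3 a0_9 b0_9 a1_9 b1_9 a2_9 b2_9 a3_9 b3_9 (by norm_num) (by norm_num) (hF 10 (by norm_num) (by omega)) with ⟨a0_10, b0_10, a1_10, b1_10, a2_10, b2_10, a3_10, b3_10⟩ | ⟨a0_10, b0_10, a1_10, b1_10, a2_10, b2_10, a3_10, b3_10⟩ | ⟨a0_10, b0_10, a1_10, b1_10, a2_10, b2_10, a3_10, b3_10⟩ | ⟨a0_10, b0_10, a1_10, b1_10, a2_10, b2_10, a3_10, b3_10⟩
                · omega
                · omega
                · omega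
                ·
                  rcases rwt7_st 11 hD n0 n1 n2 n3 t0 t1 t2 t3 a0_10 b0_10 a1_10 b1_10 a2_10 b2_10 a3_10 b3_10 (by norm_num) (by norm_num) (hF 11 (by norm_num) (by omega)) with ⟨a0_11, b0_11, a1_11, b1_11, a2_11, b2_11, a3_11, b3_11⟩ | ⟨a0_11, b0_11, a1_11, b1_11, a2_11, b2_11, a3_11, b3_11⟩ | ⟨a0_11, b0_11, a1_11, b1_11, a2_11, b2_11, a3_11, b3_11⟩ | ⟨a0_11, b0_11, a1_11, b1_11, a2_11, b2_11, a3_11, b3_11⟩
                  · omega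
                  · omega
                  ·
                    rcases rwt7_st 12 hD n0 n1 n2 n3 t0 t1 t2 t3 a0_11 b0_11 a1_11 b1_11 a2_11 b2_11 a3_11 b3_11 (by norm_num) (by norm_num) (hF 12 (by norm_num) (by omega)) with ⟨a0_12, b0_12, a1_12, b1_12, a2_12, b2_12, a3_12, b3_12⟩ | ⟨a0_12, b0_12, a1_12, b1_12, a2_12, b2_12, a3_12, b3_12⟩ | ⟨a0_12, b0_12, a1_12, b1_12, a2_12, b2_12, a3_12, b3_12⟩ | ⟨a0_12, b0_12, a1_12, b1_12, a2_12, b2_12, a3_12, b3_12⟩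
                    · omega
                    ·
                      rcases rwt7_st 13 hD n0 n1 n2 n3 t0 t1 t2 t3 a0_12 b0_12 a1_12 b1_12 a2_12 b2_12 a3_12 b3_12 (by norm_num) (by norm_num) (hF 13 (by norm_num) (by omega)) with ⟨a0_13, b0_13, a1_13, b1_13, a2_13, b2_13, a3_13, b3_13⟩ | ⟨a0_13, b0_13, a1_13, b1_13, a2_13, b2_13, a3_13, b3_13⟩ | ⟨a0_13, b0_13, a1_13, b1_13, a2_13, b2_13, a3_13, b3_13⟩ | ⟨a0_13, b0_13, a1_13, b1_13, a2_13, b2_13, a3_13, b3_13⟩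
                      · omega
                      · omega
                      · omega
                      ·
                        rcases rwt7_st 14 hD n0 n1 n2 n3 t0 t1 t2 t3 a0_13 b0_13 a1_13 b1_13 a2_13 b2_13 a3_13 b3_13 (by norm_num) (by norm_num) (hF 14 (by norm_num) (by omega)) with ⟨a0_14, b0_14, a1_14, b1_14, a2_14, b2_14, a3_14, b3_14⟩ | ⟨a0_14, b0_14, a1_14, b1_14, a2_14, b2_14, a3_14, b3_14⟩ | ⟨a0_14, b0_14, a1_14, b1_14, a2_14, b2_14, a3_14, b3_14⟩ | ⟨a0_14, b0_14, a1_14, b1_14, a2_14, b2_14, a3_14, b3_14⟩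
                        · omega
                        · omega
                        ·
                          rcases rwt7_st 15 hD n0 n1 n2 n3 t0 t1 t2 t3 a0_14 b0_14 a1_14 b1_14 a2_14 b2_14 a3_14 b3_14 (by norm_num) (by norm_num) (hF 15 (by norm_num) (by omega)) with ⟨a0_15, b0_15, a1_15, b1_15, a2_15, b2_15, a3_15, b3_15⟩ | ⟨a0_15, b0_15, a1_15, b1_15, a2_15, b2_15, a3_15, b3_15⟩ | ⟨a0_15, b0_15, a1_15, b1_15, a2_15, b2_15, a3_15, b3_15⟩ | ⟨a0_15, b0_15, a1_15, b1_15, a2_15, b2_15, a3_15, b3_15⟩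
                          · omega
                          · omega
                          · omega
                          ·
                            rcases rwt7_st 16 hD n0 n1 n2 n3 t0 t1 t2 t3 a0_15 b0_15 a1_15 b1_15 a2_15 b2_15 a3_15 b3_15 (by norm_num) (by norm_num) (hF 16 (by norm_num) (by omega)) with ⟨a0_16, b0_16, a1_16, b1_16, a2_16, b2_16, a3_16, b3_16⟩ | ⟨a0_16, b0_16, a1_16, b1_16, a2_16, b2_16, a3_16, b3_16⟩ | ⟨a0_16, b0_16, a1_16, b1_16, a2_16, b2_16, a3_16, b3_16⟩ | ⟨a0_16, b0_16, a1_16, b1_16, a2_16, b2_16, a3_16, b3_16⟩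
                            · omega
                            · omega
                            · omega
                            · omega
                        · omega
                    · omega
                    · omega
                  · omega
              · omega
              · omega
              · omega
          ·
            rcases rwt7_st 8 hD n0 n1 n2 n3 t0 t1 t2 t3 a0_7 b0_7 a1_7 b1_7 a2_7 b2_7 a3_7 b3_7 (by norm_num) (by norm_num) (hF 8 (by norm_num) (by omega)) with ⟨a0_8, b0_8, a1_8, b1_8, a2_8, b2_8, a3_8, b3_8⟩ | ⟨a0_8, b0_8, a1_8, b1_8, a2_8, b2_8, a3_8, b3_8⟩ | ⟨a0_8, b0_8, a1_8, b1_8, a2_8, b2_8, a3_8, b3_8⟩ | ⟨a0_8, b0_8, a1_8, b1_8, a2_8, b2_8, a3_8, b3_8⟩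
            · omega
            · omega
            ·
              rcases rwt7_st 9 hD n0 n1 n2 n3 t0 t1 t2 t3 a0_8 b0_8 a1_8 b1_8 a2_8 b2_8 a3_8 b3_8 (by norm_num) (by norm_num) (hF 9 (by norm_num) (by omega)) with ⟨a0_9, b0_9, a1_9, b1_9, a2_9, b2_9, a3_9, b3_9⟩ | ⟨a0_9, b0_9, a1_9, b1_9, a2_9, b2_9, a3_9, b3_9⟩ | ⟨a0_9, b0_9, a1_9, b1_9, a2_9, b2_9, a3_9, b3_9⟩ | ⟨a0_9, b0_9, a1_9, b1_9, a2_9, b2_9, a3_9, b3_9⟩
              ·
                rcases rwt7_st 10 hD n0 n1 n2 n3 t0 t1 t2 t3 a0_9 b0_9 a1_9 b1_9 a2_9 b2_9 a3_9 b3_9 (by norm_num) (by norm_num) (hF 10 (by norm_num) (by omega)) with ⟨a0_10, b0_10, a1_10, b1_10, a2_10, b2_10, a3_10, b3_10⟩ | ⟨a0_10, b0_10, a1_10, b1_10, a2_10, b2_10, a3_10, b3_10⟩ | ⟨a0_10, b0_10, a1_10, b1_10, a2_10, b2_10, a3_10, b3_10⟩ | ⟨a0_10, b0_10, a1_10, b1_10, a2_10, b2_10, a3_10, b3_10⟩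
                · omega
                · omega
                · omega
                ·
                  rcases rwt7_st 11 hD n0 n1 n2 n3 t0 t1 t2 t3 a0_10 b0_10 a1_10 b1_10 a2_10 b2_10 a3_10 b3_10 (by norm_num) (by norm_num) (hF 11 (by norm_num) (by omega)) with ⟨a0_11, b0_11, a1_11, b1_11, a2_11, b2_11, a3_11, b3_11⟩ | ⟨a0_11, b0_11, a1_11, b1_11, a2_11, b2_11, a3_11, b3_11⟩ | ⟨a0_11, b0_11, a1_11, b1_11, a2_11, b2_11, a3_11, b3_11⟩ | ⟨a0_11, b0_11, a1_11, b1_11, a2_11, b2_11, a3_11, b3_11⟩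
                  · omega
                  ·
                    rcases rwt7_st 12 hD n0 n1 n2 n3 t0 t1 t2 t3 a0_11 b0_11 a1_11 b1_11 a2_11 b2_11 a3_11 b3_11 (by norm_num) (by norm_num) (hF 12 (by norm_num) (by omega)) with ⟨a0_12, b0_12, a1_12, b1_12, a2_12, b2_12, a3_12, b3_12⟩ | ⟨a0_12, b0_12, a1_12, b1_12, a2_12, b2_12, a3_12, b3_12⟩ | ⟨a0_12, b0_12, a1_12, b1_12, a2_12, b2_12, a3_12, b3_12⟩ | ⟨a0_12, b0_12, a1_12, b1_12, a2_12, b2_12, a3_12, b3_12⟩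
                    · omega
                    · omega
                    · omega
                    · omega
                  ·
                    rcases rwt7_st 12 hD n0 n1 n2 n3 t0 t1 t2 t3 a0_11 b0_11 a1_11 b1_11 a2_11 b2_11 a3_11 b3_11 (by norm_num) (by norm_num) (hF 12 (by norm_num) (by omega)) with ⟨a0_12, b0_12, a1_12, b1_12, a2_12, b2_12, a3_12, b3_12⟩ | ⟨a0_12, b0_12, a1_12, b1_12, a2_12, b2_12, a3_12, b3_12⟩ | ⟨a0_12, b0_12, a1_12, b1_12, a2_12, b2_12, a3_12, b3_12⟩ | ⟨a0_12, b0_12, a1_12, b1_12, a2_12, b2_12, a3_12, b3_12⟩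
                    · omega
                    · omega
                    · omega
                    · omega
                  · omega
              · omega
              · omega
              ·
                rcases rwt7_st 10 hD n0 n1 n2 n3 t0 t1 t2 t3 a0_9 b0_9 a1_9 b1_9 a2_9 b2_9 a3_9 b3_9 (by norm_num) (by norm_num) (hF 10 (by norm_num) (by omega)) with ⟨a0_10, b0_10, a1_10, b1_10, a2_10, b2_10, a3_10, b3_10⟩ | ⟨a0_10, b0_10, a1_10, b1_10, a2_10, b2_10, a3_10, b3_10⟩ | ⟨a0_10, b0_10, a1_10, b1_10, a2_10, b2_10, a3_10, b3_10⟩ | ⟨a0_10, b0_10, a1_10, b1_10, a2_10, b2_10, a3_10, b3_10⟩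
                ·
                  rcases rwt7_st 11 hD n0 n1 n2 n3 t0 t1 t2 t3 a0_10 b0_10 a1_10 b1_10 a2_10 b2_10 a3_10 b3_10 (by norm_num) (by norm_num) (hF 11 (by norm_num) (by omega)) with ⟨a0_11, b0_11, a1_11, b1_11, a2_11, b2_11, a3_11, b3_11⟩ | ⟨a0_11, b0_11, a1_11, b1_11, a2_11, b2_11, a3_11, b3_11⟩ | ⟨a0_11, b0_11, a1_11, b1_11, a2_11, b2_11, a3_11, b3_11⟩ | ⟨a0_11, b0_11, a1_11, b1_11, a2_11, b2_11, a3_11, b3_11⟩
                  · omega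
                  ·
                    rcases rwt7_st 12 hD n0 n1 n2 n3 t0 t1 t2 t3 a0_11 b0_11 a1_11 b1_11 a2_11 b2_11 a3_11 b3_11 (by norm_num) (by norm_num) (hF 12 (by norm_num) (by omega)) with ⟨a0_12, b0_12, a1_12, b1_12, a2_12, b2_12, a3_12, b3_12⟩ | ⟨a0_12, b0_12, a1_12, b1_12, a2_12, b2_12, a3_12, b3_12⟩ | ⟨a0_12, b0_12, a1_12, b1_12, a2_12, b2_12, a3_12, b3_12⟩ | ⟨a0_12, b0_12, a1_12, b1_12, a2_12, b2_12, a3_12, b3_12⟩
                    · omega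
                    · omega
                    · omega
                    · omega
                  ·
                    rcases rwt7_st 12 hD n0 n1 n2 n3 t0 t1 t2 t3 a0_11 b0_11 a1_11 b1_11 a2_11 b2_11 a3_11 b3_11 (by norm_num) (by norm_num) (hF 12 (by norm_num) (by omega)) with ⟨a0_12, b0_12, a1_12, b1_12, a2_12, b2_12, a3_12, b3_12⟩ | ⟨a0_12, b0_12, a1_12, b1_12, a2_12, b2_12, a3_12, b3_12⟩ | ⟨a0_12, b0_12, a1_12, b1_12, a2_12, b2_12, a3_12, b3_12⟩ | ⟨a0_12, b0_12, a1_12, b1_12, a2_12, b2_12, a3_12, b3_12⟩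
                    · omega
                    · omega
                    · omega
                    · omega
                  ·
                    rcases rwt7_st 12 hD n0 n1 n2 n3 t0 t1 t2 t3 a0_11 b0_11 a1_11 b1_11 a2_11 b2_11 a3_11 b3_11 (by norm_num) (by norm_num) (hF 12 (by norm_num) (by omega)) with ⟨a0_12, b0_12, a1_12, b1_12, a2_12, b2_12, a3_12, b3_12⟩ | ⟨a0_12, b0_12, a1_12, b1_12, a2_12, b2_12, a3_12, b3_12⟩ | ⟨a0_12, b0_12, a1_12, b1_12, a2_12, b2_12, a3_12, b3_12⟩ | ⟨a0_12, b0_12, a1_12, b1_12, a2_12, b2_12, a3_12, b3_12⟩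
                    · omega
                    · omega
                    · omega
                    · omega
                · omega
                · omega
                · omega
            · omega
        · omega
        · omega
    · omega

theorem p_WT7 : S_WT7 := by
  intro w0 w1 w2 w3 n0 o1 o2 o3 hF
  rcases lt_or_ge (w0 + w1 + w2 + w3) 20 with hs | hb
  · obtain ⟨a, rfl⟩ := Int.eq_ofNat_of_zero_le n0.le
    obtain ⟨b, rfl⟩ := Int.eq_ofNat_of_zero_le (n0.le.trans o1)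
    obtain ⟨c, rfl⟩ := Int.eq_ofNat_of_zero_le ((n0.le.trans o1).trans o2)
    obtain ⟨d, rfl⟩ := Int.eq_ofNat_of_zero_le (((n0.le.trans o1).trans o2).trans o3)
    have key := rwt7_small a (List.mem_range.2 (by omega)) b (List.mem_range.2 (by omega)) c
      (List.mem_range.2 (by omega)) d (List.mem_range.2 (by omega)) (by omega) (by omega)
      (by omega) (by omega) (by omega) ?_
    · simp only [List.mem_cons, Prod.mk.injEq, List.not_mem_nil, or_false] at key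
      rcases key with ⟨rfl, rfl, rfl, rfl⟩ | ⟨rfl, rfl, rfl, rfl⟩ | ⟨rfl, rfl, rfl, rfl⟩ |
        ⟨rfl, rfl, rfl, rfl⟩ | ⟨rfl, rfl, rfl, rfl⟩ | ⟨rfl, rfl, rfl, rfl⟩ | ⟨rfl, rfl, rfl, rfl⟩ <;>
      simp [L7]
    · intro j _ hj2 hjD
      have h := hF (j : ℤ) (by omega) (by omega)
      have h' : ((a * j / (a + b + c + d) + b * j / (a + b + c + d) + c * j / (a + b + c + d) +
        d * j / (a + b + c + d) + 2 : ℕ) : ℤ) = (j : ℤ) := by
        push_cast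
        linarith
      exact_mod_cast h'
  · exact (rwt7_big w0 w1 w2 w3 _ rfl (by omega) n0 o1 o2 o3 hF).elim

end Pool.Agent.Lib.MP_0bc52e_nt.R
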