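import Pool.Agent.Lib.MP_0bc52e_nt.R.StmR

/-!
Piece `beta` of the root theorem (MP_0bc52e_nt).
-/

namespace Pool.Agent.Lib.MP_0bc52e_nt.R

open Pool.Agent.Lib.MP_0bc52e_nt.LC Pool.Agent.Lib.MP_0bc52e_nt.T

private lemma rbeta_ip {P : Set (ℝ × ℝ × ℝ)} {f : ℝ × ℝ × ℝ → ℝ × ℝ × ℝ} {v w : ℤ × ℤ × ℤ}
    (h : f (ip v) = ip w) (hw : ip w ∈ P) : f (ip v) ∈ P := h ▸ hw

private lemma rbeta_fr (a b w : ℤ × ℤ × ℤ) (x y z : ℤ)
    (h1 : w.1 = x * a.1 + y * b.1) (h2 : w.2.1 = x * a.2.1 + y * b.2.1)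
    (h3 : w.2.2 = x * a.2.2 + y * b.2.2 + z) :
    fr 0 a b (0, 0, 1) (ip (x, y, z)) = ip w := by
  simp only [fr, ip, h1, h2, h3]
  push_cast
  refine Prod.ext ?_ (Prod.ext ?_ ?_) <;> simp

private lemma rbeta_one (P : Set (ℝ × ℝ × ℝ)) (sa sb sc : ℤ × ℤ × ℤ) (da db H : ℤ)
    (hp : ip (0, 0, 1) ∈ P) (hm : ip (0, 0, -1) ∈ P)
    (ha : ip sa ∈ P) (hb : ip sb ∈ P) (hc : ip sc ∈ P)
    (hd : det2 (pr sa) (pr sb) = 1 ∨ det2 (pr sa) (pr sb) = -1)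
    (h1 : da * sa.1 + db * sb.1 + sc.1 = 0) (h2 : da * sa.2.1 + db * sb.2.1 + sc.2.1 = 0)
    (h3 : da * sa.2.2 + db * sb.2.2 + sc.2.2 = H)
    (hB : [(0, 0, 1), (0, 0, -1), (1, 0, 0), (0, 1, 0), (-da, -db, H)] ∈ Beta) : Root P := by
  refine ⟨fr 0 sa sb (0, 0, 1), ⟨0, sa, sb, (0, 0, 1), ?_, fun v => rfl⟩,
    Or.inr (Or.inl ⟨_, hB, ?_⟩)⟩
  · have : det3 sa sb (0, 0, 1) = det2 (pr sa) (pr sb) := by
      simp only [det3, det2, pr]; ring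
    rw [this]; exact hd
  · intro v hv
    simp only [List.mem_cons, List.not_mem_nil, or_false] at hv
    rcases hv with rfl | rfl | rfl | rfl | rfl
    · exact rbeta_ip (rbeta_fr sa sb (0, 0, 1) 0 0 1 (by simp) (by simp) (by simp)) hp
    · exact rbeta_ip (rbeta_fr sa sb (0, 0, -1) 0 0 (-1) (by simp) (by simp) (by simp)) hm
    · exact rbeta_ip (rbeta_fr sa sb sa 1 0 0 (by simp) (by simp) (by simp)) ha
    · exact rbeta_ip (rbeta_fr sa sb sb 0 1 0 (by simp) (by simp) (by simp)) hb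
    · exact rbeta_ip (rbeta_fr sa sb sc (-da) (-db) H (by linarith) (by linarith)
        (by linarith)) hc

private lemma rbeta_three (P : Set (ℝ × ℝ × ℝ)) (s t u : ℤ × ℤ × ℤ) (e : ℤ × ℤ) (ζ : ℤ)
    (hp : ip (0, 0, 1) ∈ P) (hm : ip (0, 0, -1) ∈ P)
    (_ha : ip s ∈ P) (hb : ip t ∈ P) (hc : ip u ∈ P)
    (hd : det2 (pr s) e = 1 ∨ det2 (pr s) e = -1)
    (ht1 : t.1 = s.1 + 3 * e.1) (ht2 : t.2.1 = s.2.1 + 3 * e.2)
    (hz : t.2.2 = s.2.2 + 3 * ζ + 1)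
    (h1 : s.1 + t.1 + u.1 = 0) (h2 : s.2.1 + t.2.1 + u.2.1 = 0)
    (h3 : s.2.2 + t.2.2 + u.2.2 = 3) : Root P := by
  refine ⟨fr 0 s (e.1, e.2, ζ) (0, 0, 1), ⟨0, s, (e.1, e.2, ζ), (0, 0, 1), ?_, fun v => rfl⟩,
    Or.inr (Or.inl ⟨[(0, 0, 1), (0, 0, -1), (1, 0, 0), (1, 3, 1), (-2, -3, 2)],
      by simp [Beta], ?_⟩)⟩
  · have : det3 s (e.1, e.2, ζ) (0, 0, 1) = det2 (pr s) e := by
      simp only [det3, det2, pr]; ring
    rw [this]; exact hd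
  · intro v hv
    simp only [List.mem_cons, List.not_mem_nil, or_false] at hv
    rcases hv with rfl | rfl | rfl | rfl | rfl
    · exact rbeta_ip (rbeta_fr s (e.1, e.2, ζ) (0, 0, 1) 0 0 1 (by simp) (by simp) (by simp)) hp
    · exact rbeta_ip (rbeta_fr s (e.1, e.2, ζ) (0, 0, -1) 0 0 (-1) (by simp) (by simp)
        (by simp)) hm
    · exact rbeta_ip (rbeta_fr s (e.1, e.2, ζ) s 1 0 0 (by simp) (by simp) (by simp)) _ha
    · exact rbeta_ip (rbeta_fr s (e.1, e.2, ζ) t 1 3 1 (by simp; linarith) (by simp; linarith)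
        (by simp; linarith)) hb
    · exact rbeta_ip (rbeta_fr s (e.1, e.2, ζ) u (-2) (-3) 2 (by simp; linarith)
        (by simp; linarith) (by simp; linarith)) hc

private lemma rbeta_cop2 {a : ℤ} (h : IsCoprime a 2) : a % 2 = 1 := by
  have := Int.isCoprime_iff_gcd_eq_one.mp h
  rcases Int.emod_two_eq_zero_or_one a with h0 | h1
  · exfalso
    have h2 : (2 : ℤ) ∣ a := Int.dvd_of_emod_eq_zero h0
    have h3 := h.isUnit_of_dvd' h2 dvd_rfl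
    rw [Int.isUnit_iff] at h3
    omega
  · exact h1

private lemma rbeta_cop3 {a : ℤ} (h : IsCoprime a 3) : a % 3 = 1 ∨ a % 3 = 2 := by
  by_contra hc
  have h0 : a % 3 = 0 := by omega
  have h2 : (3 : ℤ) ∣ a := Int.dvd_of_emod_eq_zero h0
  have h3 := h.isUnit_of_dvd' h2 dvd_rfl
  rw [Int.isUnit_iff] at h3
  omega

private lemma rbeta_cop4 {a : ℤ} (h : IsCoprime a 4) : a % 2 = 1 := by
  apply rbeta_cop2
  have : (4 : ℤ) = 2 * 2 := by norm_num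
  rw [this] at h
  exact (IsCoprime.mul_right_iff.mp h).1

private lemma rbeta_111 (P : Set (ℝ × ℝ × ℝ)) (sa sb sc : ℤ × ℤ × ℤ)
    (hp : ip (0, 0, 1) ∈ P) (hm : ip (0, 0, -1) ∈ P)
    (ha : ip sa ∈ P) (hb : ip sb ∈ P) (hc : ip sc ∈ P)
    (hd : det2 (pr sa) (pr sb) = 1 ∨ det2 (pr sa) (pr sb) = -1)
    (h1 : sa.1 + sb.1 + sc.1 = 0) (h2 : sa.2.1 + sb.2.1 + sc.2.1 = 0)
    (hl : 0 < sa.2.2 + sb.2.2 + sc.2.2) (hu : sa.2.2 + sb.2.2 + sc.2.2 < 6) : Root P := by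
  have key : sa.2.2 + sb.2.2 + sc.2.2 = 1 ∨ sa.2.2 + sb.2.2 + sc.2.2 = 2 ∨
      sa.2.2 + sb.2.2 + sc.2.2 = 3 ∨ sa.2.2 + sb.2.2 + sc.2.2 = 4 ∨
      sa.2.2 + sb.2.2 + sc.2.2 = 5 := by omega
  rcases key with h | h | h | h | h
  · exact rbeta_one P sa sb sc 1 1 1 hp hm ha hb hc hd (by linarith) (by linarith)
      (by linarith) (by simp [Beta])
  · exact rbeta_one P sa sb sc 1 1 2 hp hm ha hb hc hd (by linarith) (by linarith)
      (by linarith) (by simp [Beta])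
  · exact rbeta_one P sa sb sc 1 1 3 hp hm ha hb hc hd (by linarith) (by linarith)
      (by linarith) (by simp [Beta])
  · exact rbeta_one P sa sb sc 1 1 4 hp hm ha hb hc hd (by linarith) (by linarith)
      (by linarith) (by simp [Beta])
  · exact rbeta_one P sa sb sc 1 1 5 hp hm ha hb hc hd (by linarith) (by linarith)
      (by linarith) (by simp [Beta])

private lemma rbeta_211 (P : Set (ℝ × ℝ × ℝ)) (sa sb sc : ℤ × ℤ × ℤ)
    (hp : ip (0, 0, 1) ∈ P) (hm : ip (0, 0, -1) ∈ P)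
    (ha : ip sa ∈ P) (hb : ip sb ∈ P) (hc : ip sc ∈ P)
    (hd : det2 (pr sa) (pr sb) = 1 ∨ det2 (pr sa) (pr sb) = -1)
    (h1 : 2 * sa.1 + sb.1 + sc.1 = 0) (h2 : 2 * sa.2.1 + sb.2.1 + sc.2.1 = 0)
    (hl : 0 < 2 * sa.2.2 + sb.2.2 + sc.2.2) (hu : 2 * sa.2.2 + sb.2.2 + sc.2.2 < 8)
    (ho : (sb.2.2 - sc.2.2) % 2 = 1) : Root P := by
  have key : 2 * sa.2.2 + sb.2.2 + sc.2.2 = 1 ∨ 2 * sa.2.2 + sb.2.2 + sc.2.2 = 3 ∨
      2 * sa.2.2 + sb.2.2 + sc.2.2 = 5 ∨ 2 * sa.2.2 + sb.2.2 + sc.2.2 = 7 := by omega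
  rcases key with h | h | h | h
  · exact rbeta_one P sa sb sc 2 1 1 hp hm ha hb hc hd (by linarith) (by linarith)
      (by linarith) (by simp [Beta])
  · exact rbeta_one P sa sb sc 2 1 3 hp hm ha hb hc hd (by linarith) (by linarith)
      (by linarith) (by simp [Beta])
  · exact rbeta_one P sa sb sc 2 1 5 hp hm ha hb hc hd (by linarith) (by linarith)
      (by linarith) (by simp [Beta])
  · exact rbeta_one P sa sb sc 2 1 7 hp hm ha hb hc hd (by linarith) (by linarith)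
      (by linarith) (by simp [Beta])

private lemma rbeta_321 (P : Set (ℝ × ℝ × ℝ)) (sa sb sc : ℤ × ℤ × ℤ)
    (hp : ip (0, 0, 1) ∈ P) (hm : ip (0, 0, -1) ∈ P)
    (ha : ip sa ∈ P) (hb : ip sb ∈ P) (hc : ip sc ∈ P)
    (hd : det2 (pr sa) (pr sb) = 1 ∨ det2 (pr sa) (pr sb) = -1)
    (h1 : 3 * sa.1 + 2 * sb.1 + sc.1 = 0) (h2 : 3 * sa.2.1 + 2 * sb.2.1 + sc.2.1 = 0)
    (hl : 0 < 3 * sa.2.2 + 2 * sb.2.2 + sc.2.2)
    (hu : 3 * sa.2.2 + 2 * sb.2.2 + sc.2.2 < 12)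
    (ho : (sa.2.2 - sc.2.2) % 2 = 1) (ht : (sb.2.2 - sc.2.2) % 3 = 1 ∨
      (sb.2.2 - sc.2.2) % 3 = 2) : Root P := by
  have key : 3 * sa.2.2 + 2 * sb.2.2 + sc.2.2 = 1 ∨ 3 * sa.2.2 + 2 * sb.2.2 + sc.2.2 = 5 ∨
      3 * sa.2.2 + 2 * sb.2.2 + sc.2.2 = 7 ∨ 3 * sa.2.2 + 2 * sb.2.2 + sc.2.2 = 11 := by omega
  rcases key with h | h | h | h
  · exact rbeta_one P sa sb sc 3 2 1 hp hm ha hb hc hd (by linarith) (by linarith)
      (by linarith) (by simp [Beta])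
  · exact rbeta_one P sa sb sc 3 2 5 hp hm ha hb hc hd (by linarith) (by linarith)
      (by linarith) (by simp [Beta])
  · exact rbeta_one P sa sb sc 3 2 7 hp hm ha hb hc hd (by linarith) (by linarith)
      (by linarith) (by simp [Beta])
  · exact rbeta_one P sa sb sc 3 2 11 hp hm ha hb hc hd (by linarith) (by linarith)
      (by linarith) (by simp [Beta])

private lemma rbeta_neg (u v : ℤ × ℤ) {d : ℤ} (h : d = det2 u v) : det2 v u = -d := by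
  rw [h]; simp only [det2]; ring

theorem p_beta (h1 : S_refl) (h2 : S_dio) : S_beta := by
  intro P s₁ s₂ s₃ d₁ d₂ d₃ e₁ e₂ e₃ hp hm hT he₃ he₁ he₂ hc₃ hc₁ hc₂ hl hu
  obtain ⟨hs₁, hs₂, hs₃, hd₁, hd₂, hd₃, p₁, p₂, p₃⟩ := hT
  obtain ⟨r₁, r₂, r₃⟩ := h1 (pr s₁) (pr s₂) (pr s₃) e₁ e₂ e₃ d₁ d₂ d₃ hd₁ hd₂ hd₃ he₃ he₁ he₂
  have hL := h2 d₁ d₂ d₃ p₁ p₂ p₃ r₁ r₂ r₃
  have id1 : d₁ * s₁.1 + d₂ * s₂.1 + d₃ * s₃.1 = 0 := by
    rw [hd₁, hd₂, hd₃]; simp only [det2, pr]; ring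
  have id2 : d₁ * s₁.2.1 + d₂ * s₂.2.1 + d₃ * s₃.2.1 = 0 := by
    rw [hd₁, hd₂, hd₃]; simp only [det2, pr]; ring
  have n₁ := rbeta_neg _ _ hd₁
  have n₂ := rbeta_neg _ _ hd₂
  have n₃ := rbeta_neg _ _ hd₃
  simp only [List.mem_cons, List.not_mem_nil, or_false, Prod.mk.injEq] at hL
  rcases hL with ⟨a, b, c⟩ | ⟨a, b, c⟩ | ⟨a, b, c⟩ | ⟨a, b, c⟩ | ⟨a, b, c⟩ | ⟨a, b, c⟩ |
    ⟨a, b, c⟩ | ⟨a, b, c⟩ | ⟨a, b, c⟩ | ⟨a, b, c⟩ | ⟨a, b, c⟩ | ⟨a, b, c⟩ | ⟨a, b, c⟩ |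
    ⟨a, b, c⟩ <;> rw [a, b, c] at id1 id2 hl hu <;> rw [a] at hd₁ n₁ hc₁ he₁ <;>
    rw [b] at hd₂ n₂ hc₂ he₂ <;> rw [c] at hd₃ n₃ hc₃ he₃
  · -- (1, 1, 1)
    exact rbeta_111 P s₁ s₂ s₃ hp hm hs₁ hs₂ hs₃ (Or.inl hd₃.symm) (by linarith) (by linarith)
      (by linarith) (by linarith)
  · -- (3, 3, 3)
    have m₃ := rbeta_cop3 hc₃
    have m₁ := rbeta_cop3 hc₁
    have m₂ := rbeta_cop3 hc₂
    have hsum : s₁.2.2 + s₂.2.2 + s₃.2.2 = 3 := by omega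
    have x3 : s₂.1 = s₁.1 + 3 * e₃.1 := by
      have := congrArg Prod.fst he₃; simpa [pr] using this
    have y3 : s₂.2.1 = s₁.2.1 + 3 * e₃.2 := by
      have := congrArg Prod.snd he₃; simpa [pr] using this
    have x2 : s₁.1 = s₃.1 + 3 * e₂.1 := by
      have := congrArg Prod.fst he₂; simpa [pr] using this
    have y2 : s₁.2.1 = s₃.2.1 + 3 * e₂.2 := by
      have := congrArg Prod.snd he₂; simpa [pr] using this
    rcases m₃ with hz | hz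
    · refine rbeta_three P s₁ s₂ s₃ e₃ ((s₂.2.2 - s₁.2.2) / 3) hp hm hs₁ hs₂ hs₃ (Or.inl ?_)
        x3 y3 (by omega) (by linarith) (by linarith) hsum
      simp only [det2, pr] at hd₃ ⊢
      rw [x3, y3] at hd₃
      linarith
    · refine rbeta_three P s₁ s₃ s₂ (-e₂) ((s₃.2.2 - s₁.2.2) / 3) hp hm hs₁ hs₃ hs₂
        (Or.inr ?_) (by simp; linarith) (by simp; linarith) (by omega) (by linarith)
        (by linarith) (by linarith)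
      simp only [det2, pr, Prod.fst_neg, Prod.snd_neg] at hd₂ ⊢
      have x3' : s₃.1 = s₁.1 - 3 * e₂.1 := by linarith
      have y3' : s₃.2.1 = s₁.2.1 - 3 * e₂.2 := by linarith
      rw [x3', y3'] at hd₂
      linarith
  · -- (1, 1, 2)
    have m₃ := rbeta_cop2 hc₃
    exact rbeta_211 P s₃ s₁ s₂ hp hm hs₃ hs₁ hs₂ (Or.inl hd₂.symm) (by linarith) (by linarith)
      (by linarith) (by linarith) (by omega)
  · -- (1, 2, 1)
    have m₂ := rbeta_cop2 hc₂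
    exact rbeta_211 P s₂ s₁ s₃ hp hm hs₂ hs₁ hs₃ (Or.inr n₃) (by linarith) (by linarith)
      (by linarith) (by linarith) (by omega)
  · -- (2, 1, 1)
    have m₁ := rbeta_cop2 hc₁
    exact rbeta_211 P s₁ s₂ s₃ hp hm hs₁ hs₂ hs₃ (Or.inl hd₃.symm) (by linarith) (by linarith)
      (by linarith) (by linarith) (by omega)
  · -- (1, 2, 3)
    have m₂ := rbeta_cop2 hc₂
    have m₃ := rbeta_cop3 hc₃
    exact rbeta_321 P s₃ s₂ s₁ hp hm hs₃ hs₂ hs₁ (Or.inr n₁) (by linarith) (by linarith)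
      (by linarith) (by linarith) (by omega) (by omega)
  · -- (1, 3, 2)
    have m₂ := rbeta_cop3 hc₂
    have m₃ := rbeta_cop2 hc₃
    exact rbeta_321 P s₂ s₃ s₁ hp hm hs₂ hs₃ hs₁ (Or.inl hd₁.symm) (by linarith) (by linarith)
      (by linarith) (by linarith) (by omega) (by omega)
  · -- (2, 1, 3)
    have m₁ := rbeta_cop2 hc₁
    have m₃ := rbeta_cop3 hc₃
    exact rbeta_321 P s₃ s₁ s₂ hp hm hs₃ hs₁ hs₂ (Or.inl hd₂.symm) (by linarith) (by linarith)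
      (by linarith) (by linarith) (by omega) (by omega)
  · -- (2, 3, 1)
    have m₁ := rbeta_cop2 hc₁
    have m₂ := rbeta_cop3 hc₂
    exact rbeta_321 P s₂ s₁ s₃ hp hm hs₂ hs₁ hs₃ (Or.inr n₃) (by linarith) (by linarith)
      (by linarith) (by linarith) (by omega) (by omega)
  · -- (3, 1, 2)
    have m₁ := rbeta_cop3 hc₁
    have m₃ := rbeta_cop2 hc₃
    exact rbeta_321 P s₁ s₃ s₂ hp hm hs₁ hs₃ hs₂ (Or.inr n₂) (by linarith) (by linarith)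
      (by linarith) (by linarith) (by omega) (by omega)
  · -- (3, 2, 1)
    have m₁ := rbeta_cop3 hc₁
    have m₂ := rbeta_cop2 hc₂
    exact rbeta_321 P s₁ s₂ s₃ hp hm hs₁ hs₂ hs₃ (Or.inl hd₃.symm) (by linarith) (by linarith)
      (by linarith) (by linarith) (by omega) (by omega)
  · -- (2, 2, 4)
    have m₁ := rbeta_cop2 hc₁
    have m₂ := rbeta_cop2 hc₂
    have m₃ := rbeta_cop4 hc₃
    omega
  · -- (2, 4, 2)
    have m₁ := rbeta_cop2 hc₁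
    have m₂ := rbeta_cop4 hc₂
    have m₃ := rbeta_cop2 hc₃
    omega
  · -- (4, 2, 2)
    have m₁ := rbeta_cop4 hc₁
    have m₂ := rbeta_cop2 hc₂
    have m₃ := rbeta_cop2 hc₃
    omega

end Pool.Agent.Lib.MP_0bc52e_nt.R
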