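import Pool.Agent.Lib.MP_0bc52e_nt.R.StmR

/-!
# MP_0bc52e_nt, root theorem: the piece cent
-/

open scoped Pointwise

namespace Pool.Agent.Lib.MP_0bc52e_nt.R

open Pool.Agent.Lib.MP_0bc52e_nt.LC Pool.Agent.Lib.MP_0bc52e_nt.T

private theorem rcent_seg (P : Set (ℝ × ℝ × ℝ)) (hP : Convex ℝ P) (a b t : ℝ)
    (ha : ((0 : ℝ), (0 : ℝ), a) ∈ P) (hb : ((0 : ℝ), (0 : ℝ), b) ∈ P) (h1 : a ≤ t) (h2 : t ≤ b) :
    ((0 : ℝ), (0 : ℝ), t) ∈ P := by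
  have hc : Convex ℝ {t : ℝ | ((0 : ℝ), (0 : ℝ), t) ∈ P} := by
    intro x hx y hy u v hu hv huv
    have h3 := hP hx hy hu hv huv
    have h4 : u • ((0 : ℝ), (0 : ℝ), x) + v • ((0 : ℝ), (0 : ℝ), y) =
        ((0 : ℝ), (0 : ℝ), u • x + v • y) := by
      simp
    rw [h4] at h3
    exact h3
  exact hc.ordConnected.out ha hb ⟨h1, h2⟩

private theorem rcent_three (P : Set (ℝ × ℝ × ℝ)) (hP : Convex ℝ P) (x y z : ℝ × ℝ × ℝ)
    (a b c : ℝ) (ha : 0 ≤ a) (hb : 0 ≤ b) (hc : 0 ≤ c) (habc : a + b + c = 1) (hx : x ∈ P)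
    (hy : y ∈ P) (hz : z ∈ P) : a • x + b • y + c • z ∈ P := by
  have h := hP.sum_mem (t := Finset.univ) (w := ![a, b, c]) (z := ![x, y, z])
    (by intro i _; fin_cases i <;> simp [ha, hb, hc]) (by simp [Fin.sum_univ_three, habc])
    (by intro i _; fin_cases i <;> simp [hx, hy, hz])
  simpa [Fin.sum_univ_three] using h

private theorem rcent_mem (P : Set (ℝ × ℝ × ℝ)) (s₁ s₂ s₃ : ℤ × ℤ × ℤ) (d₁ d₂ d₃ : ℤ)
    (hP : Convex ℝ P) (hTR : TR P s₁ s₂ s₃ d₁ d₂ d₃) :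
    ((0 : ℝ), (0 : ℝ), (((d₁ * s₁.2.2 + d₂ * s₂.2.2 + d₃ * s₃.2.2 : ℤ)) : ℝ) /
      (((d₁ + d₂ + d₃ : ℤ)) : ℝ)) ∈ P := by
  obtain ⟨h1, h2, h3, e1, e2, e3, p1, p2, p3⟩ := hTR
  obtain ⟨x₁, y₁, z₁⟩ := s₁
  obtain ⟨x₂, y₂, z₂⟩ := s₂
  obtain ⟨x₃, y₃, z₃⟩ := s₃
  have p1' : (0 : ℝ) < d₁ := by exact_mod_cast p1
  have p2' : (0 : ℝ) < d₂ := by exact_mod_cast p2
  have p3' : (0 : ℝ) < d₃ := by exact_mod_cast p3
  have hD : (0 : ℝ) < (d₁ : ℝ) + d₂ + d₃ := by positivity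
  have h := rcent_three P hP _ _ _ (d₁ / ((d₁ : ℝ) + d₂ + d₃)) (d₂ / ((d₁ : ℝ) + d₂ + d₃))
    (d₃ / ((d₁ : ℝ) + d₂ + d₃)) (by positivity) (by positivity) (by positivity)
    (by field_simp) h1 h2 h3
  simp only [pr, det2] at e1 e2 e3
  have i1 : (d₁ : ℝ) * x₁ + d₂ * x₂ + d₃ * x₃ = 0 := by
    rw [e1, e2, e3]
    push_cast
    ring
  have i2 : (d₁ : ℝ) * y₁ + d₂ * y₂ + d₃ * y₃ = 0 := by
    rw [e1, e2, e3]
    push_cast
    ring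
  convert h using 1
  refine Prod.ext ?_ (Prod.ext ?_ ?_)
  · simp only [ip, Prod.fst_add, Prod.smul_fst, smul_eq_mul]
    rw [div_mul_eq_mul_div, div_mul_eq_mul_div, div_mul_eq_mul_div, ← add_div, ← add_div, i1,
      zero_div]
  · simp only [ip, Prod.fst_add, Prod.snd_add, Prod.smul_fst, Prod.smul_snd, smul_eq_mul]
    rw [div_mul_eq_mul_div, div_mul_eq_mul_div, div_mul_eq_mul_div, ← add_div, ← add_div, i2,
      zero_div]
  · simp only [ip, Prod.snd_add, Prod.smul_snd, smul_eq_mul]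
    rw [div_mul_eq_mul_div, div_mul_eq_mul_div, div_mul_eq_mul_div, ← add_div, ← add_div]
    push_cast
    rfl

/-- the choice of `n` -/
private theorem rcent_n (H D : ℤ) (hH : 0 < H) (hD : 0 < D) :
    ∃ n : ℤ, 0 ≤ n ∧ 0 < H - n * D ∧ H - n * D < 2 * D ∧ (n = 0 ∨ (n + 1) * D ≤ H) := by
  by_cases h : H < 2 * D
  · exact ⟨0, le_rfl, by linarith, by linarith, Or.inl rfl⟩
  · have h1 : H / D * D ≤ H := Int.ediv_mul_le H hD.ne'
    have h2 : H < (H / D + 1) * D := Int.lt_ediv_add_one_mul_self H hD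
    have h3 : 2 ≤ H / D := by
      rw [Int.le_ediv_iff_mul_le hD]
      linarith
    refine ⟨H / D - 1, by omega, by nlinarith, by nlinarith, Or.inr ?_⟩
    have : H / D - 1 + 1 = H / D := by ring
    rw [this]
    exact h1

/-- positive heights -/
private theorem rcent_pos (P : Set (ℝ × ℝ × ℝ)) (hP : Convex ℝ P)
    (hp : ((0 : ℝ), (0 : ℝ), (1 : ℝ)) ∈ P) (hm : ((0 : ℝ), (0 : ℝ), (-1 : ℝ)) ∈ P) (H D n : ℤ)
    (hD : 0 < D) (hn : 0 ≤ n) (hnH : n = 0 ∨ (n + 1) * D ≤ H)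
    (hc : ((0 : ℝ), (0 : ℝ), (H : ℝ) / D) ∈ P) (e : ℤ) (he : e = 1 ∨ e = -1) :
    ((0 : ℝ), (0 : ℝ), ((n + e : ℤ) : ℝ)) ∈ P := by
  rcases hnH with rfl | hnH
  · rcases he with rfl | rfl
    · simpa using hp
    · simpa using hm
  · have hDr : (0 : ℝ) < D := by exact_mod_cast hD
    have h1 : ((n : ℝ) + 1) ≤ (H : ℝ) / D := by
      rw [le_div_iff₀ hDr]
      exact_mod_cast hnH
    have hnr : (0 : ℝ) ≤ n := by exact_mod_cast hn
    refine rcent_seg P hP (-1) ((H : ℝ) / D) _ hm hc ?_ ?_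
    · rcases he with rfl | rfl
      · push_cast
        linarith
      · push_cast
        linarith
    · rcases he with rfl | rfl
      · push_cast
        linarith
      · push_cast
        linarith

/-- negative heights -/
private theorem rcent_neg (P : Set (ℝ × ℝ × ℝ)) (hP : Convex ℝ P)
    (hp : ((0 : ℝ), (0 : ℝ), (1 : ℝ)) ∈ P) (hm : ((0 : ℝ), (0 : ℝ), (-1 : ℝ)) ∈ P) (H D n : ℤ)
    (hD : 0 < D) (hn : 0 ≤ n) (hnH : n = 0 ∨ (n + 1) * D ≤ -H)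
    (hc : ((0 : ℝ), (0 : ℝ), (H : ℝ) / D) ∈ P) (e : ℤ) (he : e = 1 ∨ e = -1) :
    ((0 : ℝ), (0 : ℝ), ((-(n + e) : ℤ) : ℝ)) ∈ P := by
  rcases hnH with rfl | hnH
  · rcases he with rfl | rfl
    · simpa using hm
    · simpa using hp
  · have hDr : (0 : ℝ) < D := by exact_mod_cast hD
    have h1 : (H : ℝ) / D ≤ -((n : ℝ) + 1) := by
      rw [div_le_iff₀ hDr]
      have h2 : ((n : ℝ) + 1) * D ≤ -(H : ℝ) := by exact_mod_cast hnH
      linarith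
    have hnr : (0 : ℝ) ≤ n := by exact_mod_cast hn
    refine rcent_seg P hP ((H : ℝ) / D) 1 _ hc hp ?_ ?_
    · rcases he with rfl | rfl
      · push_cast
        linarith
      · push_cast
        linarith
    · rcases he with rfl | rfl
      · push_cast
        linarith
      · push_cast
        linarith

private theorem rcent_fr (σ n : ℤ) (v : ℝ × ℝ × ℝ) :
    fr (0, 0, σ * n) (1, 0, 0) (0, 1, 0) (0, 0, σ) v = (v.1, v.2.1, (σ : ℝ) * (v.2.2 + n)) := by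
  simp only [fr]
  refine Prod.ext ?_ (Prod.ext ?_ ?_)
  · simp
  · simp
  · simp
    ring

theorem p_cent (h1 : T.S_fr1) : S_cent := by
  have _ := h1
  intro P s₁ s₂ s₃ d₁ d₂ d₃ hP hp hm hTR hH
  have hc := rcent_mem P s₁ s₂ s₃ d₁ d₂ d₃ hP hTR
  obtain ⟨m1, m2, m3, e1, e2, e3, p1, p2, p3⟩ := hTR
  have hp' : ((0 : ℝ), (0 : ℝ), (1 : ℝ)) ∈ P := by simpa [ip] using hp
  have hm' : ((0 : ℝ), (0 : ℝ), (-1 : ℝ)) ∈ P := by simpa [ip] using hm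
  generalize hHd : d₁ * s₁.2.2 + d₂ * s₂.2.2 + d₃ * s₃.2.2 = H at hH hc
  have hD : 0 < d₁ + d₂ + d₃ := by omega
  -- the sign and `n`
  obtain ⟨σ, hσ, n, hn1, hn2, hmem⟩ : ∃ σ : ℤ, (σ = 1 ∨ σ = -1) ∧ ∃ n : ℤ,
      0 < σ * H - n * (d₁ + d₂ + d₃) ∧ σ * H - n * (d₁ + d₂ + d₃) < 2 * (d₁ + d₂ + d₃) ∧
      ∀ e : ℤ, (e = 1 ∨ e = -1) → ((0 : ℝ), (0 : ℝ), (σ : ℝ) * ((e : ℝ) + n)) ∈ P := by
    rcases lt_or_gt_of_ne hH with hlt | hgt
    · obtain ⟨n, hn0, hn1, hn2, hn3⟩ := rcent_n (-H) (d₁ + d₂ + d₃) (by omega) hD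
      refine ⟨-1, Or.inr rfl, n, by linarith, by linarith, ?_⟩
      intro e he
      have h := rcent_neg P hP hp' hm' H (d₁ + d₂ + d₃) n hD hn0 hn3 hc e he
      convert h using 3
      push_cast
      ring
    · obtain ⟨n, hn0, hn1, hn2, hn3⟩ := rcent_n H (d₁ + d₂ + d₃) hgt hD
      refine ⟨1, Or.inl rfl, n, by linarith, by linarith, ?_⟩
      intro e he
      have h := rcent_pos P hP hp' hm' H (d₁ + d₂ + d₃) n hD hn0 hn3 hc e he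
      convert h using 3
      push_cast
      ring
  have hσσ : σ * σ = 1 := by
    rcases hσ with rfl | rfl <;> norm_num
  have hσr : (σ : ℝ) * σ = 1 := by exact_mod_cast hσσ
  have hback : ∀ s : ℤ × ℤ × ℤ, fr (0, 0, σ * n) (1, 0, 0) (0, 1, 0) (0, 0, σ)
      (ip (s.1, s.2.1, σ * s.2.2 - n)) = ip s := by
    intro s
    rw [rcent_fr]
    simp only [ip]
    refine Prod.ext rfl (Prod.ext rfl ?_)
    push_cast
    linear_combination (s.2.2 : ℝ) * hσr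
  refine ⟨fr (0, 0, σ * n) (1, 0, 0) (0, 1, 0) (0, 0, σ), ⟨(0, 0, σ * n), (1, 0, 0), (0, 1, 0),
    (0, 0, σ), ?_, fun _ => rfl⟩, σ, n, hσ, ?_, ?_, ⟨?_, ?_, ?_, e1, e2, e3, p1, p2, p3⟩, ?_, ?_⟩
  · rcases hσ with rfl | rfl
    · left
      simp [det3]
    · right
      simp [det3]
  · have h := hmem 1 (Or.inl rfl)
    change fr (0, 0, σ * n) (1, 0, 0) (0, 1, 0) (0, 0, σ) (ip (0, 0, 1)) ∈ P
    rw [rcent_fr]
    simpa [ip] using h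
  · have h := hmem (-1) (Or.inr rfl)
    change fr (0, 0, σ * n) (1, 0, 0) (0, 1, 0) (0, 0, σ) (ip (0, 0, -1)) ∈ P
    rw [rcent_fr]
    simpa [ip] using h
  · change fr (0, 0, σ * n) (1, 0, 0) (0, 1, 0) (0, 0, σ) (ip (s₁.1, s₁.2.1, σ * s₁.2.2 - n)) ∈ P
    rw [hback]
    exact m1
  · change fr (0, 0, σ * n) (1, 0, 0) (0, 1, 0) (0, 0, σ) (ip (s₂.1, s₂.2.1, σ * s₂.2.2 - n)) ∈ P
    rw [hback]
    exact m2
  · change fr (0, 0, σ * n) (1, 0, 0) (0, 1, 0) (0, 0, σ) (ip (s₃.1, s₃.2.1, σ * s₃.2.2 - n)) ∈ P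
    rw [hback]
    exact m3
  · have h : d₁ * (σ * s₁.2.2 - n) + d₂ * (σ * s₂.2.2 - n) + d₃ * (σ * s₃.2.2 - n) =
        σ * H - n * (d₁ + d₂ + d₃) := by
      rw [← hHd]
      ring
    rw [h]
    exact hn1
  · have h : d₁ * (σ * s₁.2.2 - n) + d₂ * (σ * s₂.2.2 - n) + d₃ * (σ * s₃.2.2 - n) =
        σ * H - n * (d₁ + d₂ + d₃) := by
      rw [← hHd]
      ring
    rw [h]
    exact hn2

end Pool.Agent.Lib.MP_0bc52e_nt.R
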