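import Pool.Agent.Lib.MP_0bc52e_nt.R.StmR

/-!
# MP_0bc52e_nt, root theorem: the piece dio
-/

namespace Pool.Agent.Lib.MP_0bc52e_nt.R

open Pool.Agent.Lib.MP_0bc52e_nt.LC Pool.Agent.Lib.MP_0bc52e_nt.T

private theorem rdio_sorted (a b c : ℤ) (ha : 0 < a) (hab : a ≤ b) (hbc : b ≤ c)
    (h : b * c ∣ a + b + c) : b ≤ 3 ∧ c ≤ 6 := by
  have h1 : b * c ≤ a + b + c := Int.le_of_dvd (by omega) h
  have hb : b ≤ 3 := by
    by_contra hcon
    have h2 : 4 ≤ b := by omega
    nlinarith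
  refine ⟨hb, ?_⟩
  have h2 : c ∣ a + b + c := dvd_trans (dvd_mul_left c b) h
  have h3 : c ∣ a + b := by
    have := dvd_sub h2 (dvd_refl c)
    simpa using this
  have h4 : c ≤ a + b := Int.le_of_dvd (by omega) h3
  omega

private theorem rdio_bound (a b c : ℤ) (ha : 0 < a) (hb : 0 < b) (hc : 0 < c)
    (h1 : b * c ∣ a + b + c) (h2 : c * a ∣ a + b + c) (h3 : a * b ∣ a + b + c) :
    a ≤ 6 ∧ b ≤ 6 ∧ c ≤ 6 := by
  have e1 : c * b ∣ a + c + b := by
    have e : a + c + b = a + b + c := by ring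
    rw [e, mul_comm c b]
    exact h1
  have e2 : a * c ∣ b + a + c := by
    have e : b + a + c = a + b + c := by ring
    rw [e, mul_comm a c]
    exact h2
  have e3 : c * a ∣ b + c + a := by
    have e : b + c + a = a + b + c := by ring
    rw [e]
    exact h2
  have e4 : a * b ∣ c + a + b := by
    have e : c + a + b = a + b + c := by ring
    rw [e]
    exact h3
  have e5 : b * a ∣ c + b + a := by
    have e : c + b + a = a + b + c := by ring
    rw [e, mul_comm b a]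
    exact h3
  rcases le_total a b with hab | hab <;> rcases le_total b c with hbc | hbc <;>
    rcases le_total a c with hac | hac
  · have := rdio_sorted a b c ha hab hbc h1
    omega
  · have := rdio_sorted a b c ha hab hbc h1
    omega
  · have := rdio_sorted a c b ha hac hbc e1
    omega
  · have := rdio_sorted c a b hc hac hab e4
    omega
  · have := rdio_sorted b a c hb hab hac e2
    omega
  · have := rdio_sorted b c a hb hbc hac e3
    omega
  · have := rdio_sorted c b a hc hbc hab e5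
    omega
  · have := rdio_sorted c b a hc hbc hab e5
    omega

set_option maxRecDepth 100000 in
private theorem rdio_fin : ∀ a ∈ Finset.Icc (1 : ℤ) 6, ∀ b ∈ Finset.Icc (1 : ℤ) 6,
    ∀ c ∈ Finset.Icc (1 : ℤ) 6, b * c ∣ a + b + c → c * a ∣ a + b + c → a * b ∣ a + b + c →
    (a, b, c) ∈ ([(1, 1, 1), (3, 3, 3), (1, 1, 2), (1, 2, 1), (2, 1, 1), (1, 2, 3), (1, 3, 2),
      (2, 1, 3), (2, 3, 1), (3, 1, 2), (3, 2, 1), (2, 2, 4), (2, 4, 2), (4, 2, 2)] :
      List (ℤ × ℤ × ℤ)) := by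
  decide

theorem p_dio : S_dio := by
  intro d₁ d₂ d₃ h1 h2 h3 h23 h31 h12
  obtain ⟨b1, b2, b3⟩ := rdio_bound d₁ d₂ d₃ h1 h2 h3 h23 h31 h12
  exact rdio_fin d₁ (Finset.mem_Icc.mpr ⟨h1, b1⟩) d₂ (Finset.mem_Icc.mpr ⟨h2, b2⟩) d₃
    (Finset.mem_Icc.mpr ⟨h3, b3⟩) h23 h31 h12

end Pool.Agent.Lib.MP_0bc52e_nt.R
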