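import Pool.Agent.Lib.MP_0bc52e_nt.R.StmR

/-!
Proof of `S_edge` (MP_0bc52e_nt, part R): an edge of a minimal triple is of the form
`pr s₂ = pr s₁ + d₃ • e`, and the difference of the heights is coprime to `d₃`.
-/

namespace Pool.Agent.Lib.MP_0bc52e_nt.R

open Pool.Agent.Lib.MP_0bc52e_nt.LC Pool.Agent.Lib.MP_0bc52e_nt.T

theorem p_edge (h1 : S_prm) (h2 : S_tr1) (h3 : S_fib) (h4 : S_numE) : S_edge := by
  intro P s₁ s₂ s₃ d₁ d₂ d₃ hP hp hm hTR hMn
  obtain ⟨e, he⟩ := h1 P s₁ s₂ s₃ d₁ d₂ d₃ hP hp hm hTR hMn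
  have hs₁ : ip s₁ ∈ P := hTR.1
  have hs₂ : ip s₂ ∈ P := hTR.2.1
  have hd₃ : d₃ = det2 (pr s₁) (pr s₂) := hTR.2.2.2.2.2.1
  have hd : 0 < d₃ := hTR.2.2.2.2.2.2.2.2
  simp only [det2] at he hd₃
  obtain ⟨a, ha⟩ : ∃ a : ℤ, a = (pr s₂).1 * e.2 - (pr s₂).2 * e.1 := ⟨_, rfl⟩
  have hq2 : pr s₂ = a • pr s₁ + d₃ • e := by
    apply Prod.ext
    · simp only [Prod.fst_add, Prod.smul_fst, smul_eq_mul]
      rw [ha, hd₃]
      linear_combination (-(pr s₂).1) * he
    · simp only [Prod.snd_add, Prod.smul_snd, smul_eq_mul]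
      rw [ha, hd₃]
      linear_combination (-(pr s₂).2) * he
  have hq21 : (pr s₂).1 = a * (pr s₁).1 + d₃ * e.1 := by
    have := congrArg Prod.fst hq2
    simpa only [Prod.fst_add, Prod.smul_fst, smul_eq_mul] using this
  have hq22 : (pr s₂).2 = a * (pr s₁).2 + d₃ * e.2 := by
    have := congrArg Prod.snd hq2
    simpa only [Prod.snd_add, Prod.smul_snd, smul_eq_mul] using this
  have key := h4 d₃ a (s₂.2.2 - a * s₁.2.2) hd
    (by
      intro x y z hy0 hyd hA
      by_contra hc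
      have hc' : |d₃ * z - y * (s₂.2.2 - a * s₁.2.2)| ≤ d₃ - y - (d₃ * x - y * a) := not_lt.1 hc
      have hX := h3 P s₁ s₂ e a d₃ x y z hP hp hm hs₁ hs₂ hd hq2 hy0.le hA hc'
      have hnn := abs_nonneg (d₃ * z - y * (s₂.2.2 - a * s₁.2.2))
      obtain ⟨X, hXe⟩ : ∃ X : ℤ × ℤ × ℤ, X = ((x • pr s₁ + y • e).1, (x • pr s₁ + y • e).2,
        x * s₁.2.2 + z) := ⟨_, rfl⟩
      rw [← hXe] at hX
      have hX1 : (pr X).1 = x * (pr s₁).1 + y * e.1 := by
        rw [hXe]; simp [pr]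
      have hX2 : (pr X).2 = x * (pr s₁).2 + y * e.2 := by
        rw [hXe]; simp [pr]
      have e1 : det2 (pr X) (pr s₂) = d₃ * x - y * a := by
        simp only [det2]
        rw [hX1, hX2, hq21, hq22]
        linear_combination (x * d₃ - y * a) * he
      have e2 : det2 (pr s₁) (pr X) = y := by
        simp only [det2]
        rw [hX1, hX2]
        linear_combination y * he
      have h5 := h2 P s₁ s₂ s₃ d₁ d₂ d₃ hTR hMn X hX (by rw [e1]; exact hA) (by rw [e2]; exact hy0.le)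
        (by rw [e1, e2]; linarith)
      rcases h5 with h6 | h6 | h6
      · rw [h6] at e2
        simp [det2] at e2
        omega
      · rw [h6] at e2
        simp only [det2] at e2
        have : y = 0 := by rw [← e2]; ring
        omega
      · rw [h6] at e2
        simp only [det2] at e2
        omega)
  obtain ⟨⟨m, hm'⟩, hco⟩ := key
  refine ⟨⟨m • pr s₁ + e, ?_⟩, ?_⟩
  · have ha' : a = 1 + d₃ * m := by linarith
    apply Prod.ext
    · simp only [Prod.fst_add, Prod.smul_fst, smul_eq_mul]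
      rw [hq21, ha']; ring
    · simp only [Prod.snd_add, Prod.smul_snd, smul_eq_mul]
      rw [hq22, ha']; ring
  · have h5 : s₂.2.2 - s₁.2.2 = (s₂.2.2 - a * s₁.2.2) + d₃ * (m * s₁.2.2) := by
      linear_combination s₁.2.2 * hm'
    rw [h5]
    exact IsCoprime.add_mul_left_left hco _

end Pool.Agent.Lib.MP_0bc52e_nt.R
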