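import Pool.Agent.Lib.MP_0bc52e_nt.R.StmR

/-!
# Proof of [emp4]
-/

namespace Pool.Agent.Lib.MP_0bc52e_nt.R

open Pool.Agent.Lib.MP_0bc52e_nt.LC Pool.Agent.Lib.MP_0bc52e_nt.T

/-- A linear inequality that holds at the vertices holds at the integer points of the hull. -/
private theorem remp4_half (V : Finset (ℤ × ℤ × ℤ)) (A B C c : ℤ)
    (h : ∀ v ∈ V, c ≤ A * v.1 + B * v.2.1 + C * v.2.2) (x : ℤ × ℤ × ℤ) (hx : ip x ∈ hull V) :
    c ≤ A * x.1 + B * x.2.1 + C * x.2.2 := by
  have hC : Convex ℝ {p : ℝ × ℝ × ℝ | (c : ℝ) ≤ A * p.1 + B * p.2.1 + C * p.2.2} := by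
    intro p hp q hq a b ha hb hab
    simp only [Set.mem_ofPred_eq, Prod.fst_add, Prod.snd_add, Prod.smul_fst, Prod.smul_snd,
      smul_eq_mul] at *
    have h1 := mul_le_mul_of_nonneg_left hp ha
    have h2 := mul_le_mul_of_nonneg_left hq hb
    have h3 : (c : ℝ) = a * c + b * c := by rw [← add_mul, hab, one_mul]
    rw [h3]
    refine (add_le_add h1 h2).trans (le_of_eq ?_)
    ring
  have hs : ip '' (V : Set (ℤ × ℤ × ℤ)) ⊆
      {p : ℝ × ℝ × ℝ | (c : ℝ) ≤ A * p.1 + B * p.2.1 + C * p.2.2} := by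
    rintro _ ⟨v, hv, rfl⟩
    have h1 := h v hv
    simp only [Set.mem_ofPred_eq, ip]
    exact_mod_cast h1
  have h2 := convexHull_min hs hC hx
  simp only [Set.mem_ofPred_eq, ip] at h2
  exact_mod_cast h2

theorem p_emp4 : S_emp4 := by
  intro v₀ v₁ v₂ v₃ w₀ w₁ w₂ w₃ m hT
  obtain ⟨e1, e2, e3⟩ := v₀
  obtain ⟨a1, a2, a3⟩ := v₁
  obtain ⟨b1, b2, b3⟩ := v₂
  obtain ⟨c1, c2, c3⟩ := v₃
  have hD : |det3 (a1, a2, a3) (b1, b2, b3) (c1, c2, c3)| = m * w₀ := hT.d₀
  have hpos : 0 < m * w₀ := mul_pos hT.hm hT.h₀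
  obtain ⟨σ, hσ, hq⟩ : ∃ σ : ℤ, (σ = 1 ∨ σ = -1) ∧
      0 < σ * det3 (a1, a2, a3) (b1, b2, b3) (c1, c2, c3) := by
    have h0 : det3 (a1, a2, a3) (b1, b2, b3) (c1, c2, c3) ≠ 0 := by
      intro h; rw [h, abs_zero] at hD; omega
    rcases lt_or_gt_of_ne h0 with h | h
    · exact ⟨-1, Or.inr rfl, by linarith⟩
    · exact ⟨1, Or.inl rfl, by linarith⟩
  obtain ⟨q, hqd⟩ : ∃ q, q = σ * det3 (a1, a2, a3) (b1, b2, b3) (c1, c2, c3) := ⟨_, rfl⟩
  rw [← hqd] at hq
  simp only [det3] at hqd
  have hsum := hT.sum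
  simp only [Prod.smul_mk, smul_eq_mul, Prod.mk_add_mk, Prod.mk_eq_zero] at hsum
  obtain ⟨s1, s2, s3⟩ := hsum
  constructor
  · intro x hx
    obtain ⟨x1, x2, x3⟩ := x
    have i1 := remp4_half _ (σ * (b2 * c3 - b3 * c2)) (-(σ * (b1 * c3 - b3 * c1)))
      (σ * (b1 * c2 - b2 * c1)) 0 (by
        intro v hv
        simp only [Finset.mem_insert, Finset.mem_singleton] at hv
        rcases hv with rfl | rfl | rfl | rfl
        · simp
        · simp only; linarith
        · simp only; linarith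
        · simp only; linarith) _ hx
    have i2 := remp4_half _ (-(σ * (a2 * c3 - a3 * c2))) (σ * (a1 * c3 - a3 * c1))
      (-(σ * (a1 * c2 - a2 * c1))) 0 (by
        intro v hv
        simp only [Finset.mem_insert, Finset.mem_singleton] at hv
        rcases hv with rfl | rfl | rfl | rfl
        · simp
        · simp only; linarith
        · simp only; linarith
        · simp only; linarith) _ hx
    have i3 := remp4_half _ (σ * (a2 * b3 - a3 * b2)) (-(σ * (a1 * b3 - a3 * b1)))
      (σ * (a1 * b2 - a2 * b1)) 0 (by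
        intro v hv
        simp only [Finset.mem_insert, Finset.mem_singleton] at hv
        rcases hv with rfl | rfl | rfl | rfl
        · simp
        · simp only; linarith
        · simp only; linarith
        · simp only; linarith) _ hx
    have i4 := remp4_half _ (-(σ * (b2 * c3 - b3 * c2)) + (σ * (a2 * c3 - a3 * c2)) +
        -(σ * (a2 * b3 - a3 * b2))) (σ * (b1 * c3 - b3 * c1) + -(σ * (a1 * c3 - a3 * c1)) +
        σ * (a1 * b3 - a3 * b1)) (-(σ * (b1 * c2 - b2 * c1)) + σ * (a1 * c2 - a2 * c1) +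
        -(σ * (a1 * b2 - a2 * b1))) (-q) (by
        intro v hv
        simp only [Finset.mem_insert, Finset.mem_singleton] at hv
        rcases hv with rfl | rfl | rfl | rfl
        · simp; exact hq.le
        · simp only; linarith
        · simp only; linarith
        · simp only; linarith) _ hx
    simp only at i1 i2 i3 i4
    obtain ⟨n1, hn1⟩ : ∃ n, n = σ * (b2 * c3 - b3 * c2) * x1 + -(σ * (b1 * c3 - b3 * c1)) * x2 +
      σ * (b1 * c2 - b2 * c1) * x3 := ⟨_, rfl⟩
    obtain ⟨n2, hn2⟩ : ∃ n, n = -(σ * (a2 * c3 - a3 * c2)) * x1 + σ * (a1 * c3 - a3 * c1) * x2 +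
      -(σ * (a1 * c2 - a2 * c1)) * x3 := ⟨_, rfl⟩
    obtain ⟨n3, hn3⟩ : ∃ n, n = σ * (a2 * b3 - a3 * b2) * x1 + -(σ * (a1 * b3 - a3 * b1)) * x2 +
      σ * (a1 * b2 - a2 * b1) * x3 := ⟨_, rfl⟩
    rw [← hn1] at i1
    rw [← hn2] at i2
    rw [← hn3] at i3
    have i5 : n1 + n2 + n3 ≤ q := by linarith
    have k1 : q * x1 = n1 * a1 + n2 * b1 + n3 * c1 := by rw [hqd, hn1, hn2, hn3]; ring
    have k2 : q * x2 = n1 * a2 + n2 * b2 + n3 * c2 := by rw [hqd, hn1, hn2, hn3]; ring
    have k3 : q * x3 = n1 * a3 + n2 * b3 + n3 * c3 := by rw [hqd, hn1, hn2, hn3]; ring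
    clear hn1 hn2 hn3 i4 hqd hx
    obtain ⟨r, hr⟩ : ∃ r, r = q - (n1 + n2 + n3) := ⟨_, rfl⟩
    have hr0 : 0 ≤ r := by omega
    obtain ⟨S, hS⟩ : ∃ S, S = w₀ + w₁ + w₂ + w₃ := ⟨_, rfl⟩
    have p0 := hT.h₀
    have p1 := hT.h₁
    have p2 := hT.h₂
    have p3 := hT.h₃
    have hS0 : 0 < S := by omega
    have hN0 : 0 < q * S := mul_pos hq hS0
    have t0 : 0 ≤ r * w₀ := mul_nonneg hr0 p0.le
    have t1 : 0 ≤ r * w₁ := mul_nonneg hr0 p1.le
    have t2 : 0 ≤ r * w₂ := mul_nonneg hr0 p2.le
    have t3 : 0 ≤ r * w₃ := mul_nonneg hr0 p3.le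
    have u1 : 0 ≤ S * n1 := mul_nonneg hS0.le i1
    have u2 : 0 ≤ S * n2 := mul_nonneg hS0.le i2
    have u3 : 0 ≤ S * n3 := mul_nonneg hS0.le i3
    have hsumN : r * w₀ + (S * n1 + r * w₁) + (S * n2 + r * w₂) + (S * n3 + r * w₃) = q * S := by
      rw [hr, hS]; ring
    have hrz : r * w₀ = 0 → r = 0 := fun h => by
      rcases mul_eq_zero.1 h with h | h
      · exact h
      · omega
    have hnz : ∀ n, S * n = 0 → n = 0 := fun n h => by
      rcases mul_eq_zero.1 h with h | h
      · omega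
      · exact h
    simp only [Finset.mem_insert, Finset.mem_singleton, Prod.mk.injEq, Prod.mk_eq_zero]
    by_cases g0 : q * S ≤ r * w₀
    · exfalso
      have z1 : r * w₁ = 0 := by linarith
      rcases mul_eq_zero.1 z1 with h | h
      · rw [h, zero_mul] at g0; omega
      · omega
    by_cases g1 : q * S ≤ S * n1 + r * w₁
    · have z0 : r = 0 := hrz (by linarith)
      have z2 : n2 = 0 := hnz n2 (by linarith)
      have z3 : n3 = 0 := hnz n3 (by linarith)
      subst z2 z3
      have z1 : n1 = q := by omega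
      subst z1
      right; left
      refine ⟨?_, ?_, ?_⟩ <;> apply mul_left_cancel₀ hq.ne' <;> linarith
    by_cases g2 : q * S ≤ S * n2 + r * w₂
    · have z0 : r = 0 := hrz (by linarith)
      have z2 : n1 = 0 := hnz n1 (by linarith)
      have z3 : n3 = 0 := hnz n3 (by linarith)
      subst z2 z3
      have z1 : n2 = q := by omega
      subst z1
      right; right; left
      refine ⟨?_, ?_, ?_⟩ <;> apply mul_left_cancel₀ hq.ne' <;> linarith
    by_cases g3 : q * S ≤ S * n3 + r * w₃
    · have z0 : r = 0 := hrz (by linarith)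
      have z2 : n1 = 0 := hnz n1 (by linarith)
      have z3 : n2 = 0 := hnz n2 (by linarith)
      subst z2 z3
      have z1 : n3 = q := by omega
      subst z1
      right; right; right
      refine ⟨?_, ?_, ?_⟩ <;> apply mul_left_cancel₀ hq.ne' <;> linarith
    have hx := hT.tm (q * S) (r * w₀) (S * n1 + r * w₁) (S * n2 + r * w₂) (S * n3 + r * w₃)
      (x1, x2, x3) t0 (by linarith) (by linarith) (by linarith) (by linarith) (by linarith)
      (by linarith) (by linarith) hsumN (by
        simp only [Prod.smul_mk, smul_eq_mul, Prod.mk_add_mk, Prod.mk.injEq]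
        refine ⟨?_, ?_, ?_⟩
        · linear_combination S * k1 - r * s1
        · linear_combination S * k2 - r * s2
        · linear_combination S * k3 - r * s3)
    left
    simpa using hx
  · intro v hv hh
    simp only [Finset.mem_insert, Finset.mem_singleton] at hv
    rcases hv with rfl | rfl | rfl | rfl
    · have i4 := remp4_half _ ((σ * (b2 * c3 - b3 * c2)) + -(σ * (a2 * c3 - a3 * c2)) +
        (σ * (a2 * b3 - a3 * b2))) (-(σ * (b1 * c3 - b3 * c1)) + (σ * (a1 * c3 - a3 * c1)) +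
        -(σ * (a1 * b3 - a3 * b1))) ((σ * (b1 * c2 - b2 * c1)) + -(σ * (a1 * c2 - a2 * c1)) +
        (σ * (a1 * b2 - a2 * b1))) q (by
        intro v hv
        simp only [Finset.mem_erase, Finset.mem_insert, Finset.mem_singleton] at hv
        rcases hv with ⟨hn, rfl | rfl | rfl | rfl⟩
        · exact absurd rfl hn
        · simp only; linarith
        · simp only; linarith
        · simp only; linarith) _ hh
      simp at i4
      omega
    · have i4 := remp4_half _ (-(σ * (b2 * c3 - b3 * c2))) (σ * (b1 * c3 - b3 * c1))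
        (-(σ * (b1 * c2 - b2 * c1))) 0 (by
        intro v hv
        simp only [Finset.mem_erase, Finset.mem_insert, Finset.mem_singleton] at hv
        rcases hv with ⟨hn, rfl | rfl | rfl | rfl⟩
        · simp
        · exact absurd rfl hn
        · simp only; linarith
        · simp only; linarith) _ hh
      simp only at i4
      linarith
    · have i4 := remp4_half _ (σ * (a2 * c3 - a3 * c2)) (-(σ * (a1 * c3 - a3 * c1)))
        (σ * (a1 * c2 - a2 * c1)) 0 (by
        intro v hv
        simp only [Finset.mem_erase, Finset.mem_insert, Finset.mem_singleton] at hv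
        rcases hv with ⟨hn, rfl | rfl | rfl | rfl⟩
        · simp
        · simp only; linarith
        · exact absurd rfl hn
        · simp only; linarith) _ hh
      simp only at i4
      linarith
    · have i4 := remp4_half _ (-(σ * (a2 * b3 - a3 * b2))) (σ * (a1 * b3 - a3 * b1))
        (-(σ * (a1 * b2 - a2 * b1))) 0 (by
        intro v hv
        simp only [Finset.mem_erase, Finset.mem_insert, Finset.mem_singleton] at hv
        rcases hv with ⟨hn, rfl | rfl | rfl | rfl⟩
        · simp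
        · simp only; linarith
        · simp only; linarith
        · exact absurd rfl hn) _ hh
      simp only at i4
      linarith

end Pool.Agent.Lib.MP_0bc52e_nt.R
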