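import Pool.Agent.Lib.MP_0bc52e_nt.R.StmR

namespace Pool.Agent.Lib.MP_0bc52e_nt.R

open Pool.Agent.Lib.MP_0bc52e_nt.LC Pool.Agent.Lib.MP_0bc52e_nt.T

private theorem rexc_ind (i k l : ℤ × ℤ × ℤ) (hd : det3 i k l ≠ 0) (a b c : ℤ)
    (h : a • i + b • k + c • l = 0) : a = 0 ∧ b = 0 ∧ c = 0 := by
  obtain ⟨i1, i2, i3⟩ := i
  obtain ⟨k1, k2, k3⟩ := k
  obtain ⟨l1, l2, l3⟩ := l
  simp only [Prod.smul_mk, Prod.mk_add_mk, smul_eq_mul, Prod.mk_eq_zero] at h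
  obtain ⟨h1, h2, h3⟩ := h
  simp only [det3] at hd
  refine ⟨?_, ?_, ?_⟩
  · have : a * (i1 * (k2 * l3 - k3 * l2) - i2 * (k1 * l3 - k3 * l1) +
        i3 * (k1 * l2 - k2 * l1)) = 0 := by
      linear_combination (k2 * l3 - k3 * l2) * h1 - (k1 * l3 - k3 * l1) * h2 +
        (k1 * l2 - k2 * l1) * h3
    exact (mul_eq_zero.1 this).resolve_right hd
  · have : b * (i1 * (k2 * l3 - k3 * l2) - i2 * (k1 * l3 - k3 * l1) +
        i3 * (k1 * l2 - k2 * l1)) = 0 := by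
      linear_combination (i3 * l2 - i2 * l3) * h1 + (i1 * l3 - i3 * l1) * h2 +
        (i2 * l1 - i1 * l2) * h3
    exact (mul_eq_zero.1 this).resolve_right hd
  · have : c * (i1 * (k2 * l3 - k3 * l2) - i2 * (k1 * l3 - k3 * l1) +
        i3 * (k1 * l2 - k2 * l1)) = 0 := by
      linear_combination (i2 * k3 - i3 * k2) * h1 + (i3 * k1 - i1 * k3) * h2 +
        (i1 * k2 - i2 * k1) * h3
    exact (mul_eq_zero.1 this).resolve_right hd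

private theorem rexc_gen (v₀ i k l c : ℤ × ℤ × ℤ) (wi wk wl m y : ℤ) (hm : 2 ≤ m) (hwi : 0 < wi)
    (hwk : 0 < wk) (hwl : 0 < wl) (hS : v₀ + wi • i + wk • k + wl • l = 0)
    (hT : ∀ (N n₀ ni nk nl : ℤ) (X : ℤ × ℤ × ℤ), 0 ≤ n₀ → 0 ≤ ni → 0 ≤ nk → 0 ≤ nl → n₀ < N →
      ni < N → nk < N → nl < N → n₀ + ni + nk + nl = N →
      N • X = n₀ • v₀ + ni • i + nk • k + nl • l → X = 0)
    (hD : det3 i k l ≠ 0) (hk : k = i + y • l + m • c)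
    (t r N ni nk nl n₀ : ℤ) (hN : N = m * (1 + wi + wk + wl))
    (hni : ni = (-t * (1 + wi + wk + wl) + (t * y + r * m) * wi) % N)
    (hnl : nl = (-t * y * (1 + wi + wk + wl) + (t * y + r * m) * wl) % N)
    (hnk : nk = (t * (1 + wi + wk + wl) + (t * y + r * m) * wk) % N)
    (hn₀ : n₀ = ((t * y + r * m) * 1) % N) (hsum : ni + nk + nl + n₀ = N)
    (hne : ¬ (ni = m * wi ∧ nk = m * wk ∧ nl = m * wl ∧ n₀ = m * 1)) : False := by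
  have hNpos : 0 < N := by rw [hN]; positivity
  have hN0 : N ≠ 0 := hNpos.ne'
  obtain ⟨qi, hqi⟩ : ∃ q, -t * (1 + wi + wk + wl) + (t * y + r * m) * wi = ni + N * q :=
    ⟨_, by rw [hni]; exact (Int.emod_add_mul_ediv _ N).symm⟩
  obtain ⟨ql, hql⟩ : ∃ q, -t * y * (1 + wi + wk + wl) + (t * y + r * m) * wl = nl + N * q :=
    ⟨_, by rw [hnl]; exact (Int.emod_add_mul_ediv _ N).symm⟩
  obtain ⟨qk, hqk⟩ : ∃ q, t * (1 + wi + wk + wl) + (t * y + r * m) * wk = nk + N * q :=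
    ⟨_, by rw [hnk]; exact (Int.emod_add_mul_ediv _ N).symm⟩
  obtain ⟨q0, hq0⟩ : ∃ q, (t * y + r * m) * 1 = n₀ + N * q :=
    ⟨_, by rw [hn₀]; exact (Int.emod_add_mul_ediv _ N).symm⟩
  have b0 : 0 ≤ n₀ ∧ n₀ < N := by
    rw [hn₀]; exact ⟨Int.emod_nonneg _ hN0, Int.emod_lt_of_pos _ hNpos⟩
  have bi : 0 ≤ ni ∧ ni < N := by
    rw [hni]; exact ⟨Int.emod_nonneg _ hN0, Int.emod_lt_of_pos _ hNpos⟩
  have bk : 0 ≤ nk ∧ nk < N := by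
    rw [hnk]; exact ⟨Int.emod_nonneg _ hN0, Int.emod_lt_of_pos _ hNpos⟩
  have bl : 0 ≤ nl ∧ nl < N := by
    rw [hnl]; exact ⟨Int.emod_nonneg _ hN0, Int.emod_lt_of_pos _ hNpos⟩
  clear hni hnl hnk hn₀
  have hX : N • (t • c - qi • i - ql • l - qk • k - q0 • v₀) =
      n₀ • v₀ + ni • i + nk • k + nl • l := by
    obtain ⟨i1, i2, i3⟩ := i
    obtain ⟨k1, k2, k3⟩ := k
    obtain ⟨l1, l2, l3⟩ := l
    obtain ⟨c1, c2, c3⟩ := c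
    obtain ⟨o1, o2, o3⟩ := v₀
    simp only [Prod.smul_mk, Prod.mk_add_mk, Prod.mk_sub_mk, smul_eq_mul, Prod.mk_eq_zero,
      Prod.mk.injEq] at hS hk ⊢
    obtain ⟨s1, s2, s3⟩ := hS
    obtain ⟨k1', k2', k3'⟩ := hk
    refine ⟨?_, ?_, ?_⟩
    · linear_combination i1 * hqi + l1 * hql + k1 * hqk + o1 * hq0 +
        (t * c1) * hN - (t * (1 + wi + wk + wl)) * k1' - (t * y + r * m) * s1
    · linear_combination i2 * hqi + l2 * hql + k2 * hqk + o2 * hq0 +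
        (t * c2) * hN - (t * (1 + wi + wk + wl)) * k2' - (t * y + r * m) * s2
    · linear_combination i3 * hqi + l3 * hql + k3 * hqk + o3 * hq0 +
        (t * c3) * hN - (t * (1 + wi + wk + wl)) * k3' - (t * y + r * m) * s3
  have hX0 := hT N n₀ ni nk nl _ b0.1 bi.1 bk.1 bl.1 b0.2 bi.2 bk.2 bl.2 (by linarith) hX
  rw [hX0, smul_zero] at hX
  have hind : (ni - n₀ * wi) • i + (nk - n₀ * wk) • k + (nl - n₀ * wl) • l = 0 := by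
    obtain ⟨i1, i2, i3⟩ := i
    obtain ⟨k1, k2, k3⟩ := k
    obtain ⟨l1, l2, l3⟩ := l
    obtain ⟨o1, o2, o3⟩ := v₀
    simp only [Prod.smul_mk, Prod.mk_add_mk, Prod.mk_sub_mk, smul_eq_mul, Prod.mk_eq_zero,
      zero_eq_mul, eq_comm (a := (0 : ℤ × ℤ × ℤ))] at hS hX ⊢
    obtain ⟨s1, s2, s3⟩ := hS
    obtain ⟨x1, x2, x3⟩ := hX
    refine ⟨?_, ?_, ?_⟩
    · linear_combination x1 - n₀ * s1
    · linear_combination x2 - n₀ * s2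
    · linear_combination x3 - n₀ * s3
  obtain ⟨e1, e2, e3⟩ := rexc_ind i k l hD _ _ _ hind
  have e1' : ni = n₀ * wi := by linarith
  have e2' : nk = n₀ * wk := by linarith
  have e3' : nl = n₀ * wl := by linarith
  have hDpos : (1 + wi + wk + wl) ≠ 0 := by positivity
  have hn : n₀ = m := by
    apply mul_right_cancel₀ hDpos
    rw [← hN, ← hsum, e1', e2', e3']
    ring
  apply hne
  rw [e1', e2', e3', hn]
  exact ⟨rfl, rfl, rfl, by ring⟩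

private theorem rexc_case (h1 : S_excA) (v₀ i k l c : ℤ × ℤ × ℤ) (wi wk wl m y : ℤ) (hm : 2 ≤ m)
    (hm6 : m ≤ 6) (hwi : 0 < wi) (hwk : 0 < wk) (hwl : 0 < wl)
    (hL : ∃ w₁ w₂ w₃ : ℤ, ((1 : ℤ), w₁, w₂, w₃) ∈ L7 ∧ (1 : ℤ) = 1 ∧ ((wi, wk, wl) = (w₁, w₂, w₃) ∨
      (wi, wk, wl) = (w₁, w₃, w₂) ∨ (wi, wk, wl) = (w₂, w₁, w₃) ∨
    (wi, wk, wl) = (w₂, w₃, w₁) ∨ (wi, wk, wl) = (w₃, w₁, w₂) ∨ (wi, wk, wl) = (w₃, w₂, w₁)))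
    (hS : v₀ + wi • i + wk • k + wl • l = 0)
    (hT : ∀ (N n₀ ni nk nl : ℤ) (X : ℤ × ℤ × ℤ), 0 ≤ n₀ → 0 ≤ ni → 0 ≤ nk → 0 ≤ nl → n₀ < N →
      ni < N → nk < N → nl < N → n₀ + ni + nk + nl = N →
      N • X = n₀ • v₀ + ni • i + nk • k + nl • l → X = 0)
    (hD : det3 i k l ≠ 0) (hy : IsCoprime y m) (hk : k = i + y • l + m • c) :
    wi = 1 ∧ wk = 1 ∧ wl = 1 ∧ m = 5 ∧ ((5 : ℤ) ∣ y - 2 ∨ (5 : ℤ) ∣ y - 3) := by
  have hmpos : 0 < m := by linarith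
  obtain ⟨y', hy'⟩ : ∃ y', y' = y % m := ⟨_, rfl⟩
  obtain ⟨n, hn⟩ : ∃ n, n = y / m := ⟨_, rfl⟩
  have hyn : y = y' + m * n := by rw [hy', hn]; exact (Int.emod_add_mul_ediv y m).symm
  have hy0 : 0 ≤ y' := by rw [hy']; exact Int.emod_nonneg _ hmpos.ne'
  have hy1 : y' < m := by rw [hy']; exact Int.emod_lt_of_pos _ hmpos
  have hcop : IsCoprime y' m := by
    rw [hyn] at hy
    exact IsCoprime.of_add_mul_left_left hy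
  have hk' : k = i + y' • l + m • (c + n • l) := by
    rw [hk, hyn, add_smul, smul_add, mul_smul]
    abel
  rcases h1 1 wi wk wl m y' hL hm hm6 hy0 hy1 hcop with ⟨h4, h5, h6⟩ |
    ⟨t, r, N, ni, nk, nl, n₀, hN, hni, hnl, hnk, hn₀, hsum, hne⟩
  · refine ⟨by omega, by omega, by omega, h5, ?_⟩
    rw [h5] at hyn
    rcases h6 with h6 | h6
    · left
      exact ⟨n, by rw [hyn, h6]; ring⟩
    · right
      exact ⟨n, by rw [hyn, h6]; ring⟩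
  · exact (rexc_gen v₀ i k l (c + n • l) wi wk wl m y' hm hwi hwk hwl hS hT hD hk' t r N ni nk nl n₀
      hN hni hnl hnk hn₀ hsum hne).elim

theorem p_exc (h1 : S_excA) : S_exc := by
  intro v₀ v₁ v₂ v₃ i k l c w₀ w₁ w₂ w₃ m y hTe hL hw0 hm hm6 hPm hy hk
  subst hw0
  have hs := hTe.sum
  rw [one_smul] at hs
  have p1 := hTe.h₁
  have p2 := hTe.h₂
  have p3 := hTe.h₃
  have htm := hTe.tm
  have hdet : det3 v₁ v₂ v₃ ≠ 0 := by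
    intro h0
    have := hTe.d₀
    rw [h0, abs_zero, mul_one] at this
    omega
  have d132 : det3 v₁ v₃ v₂ = -det3 v₁ v₂ v₃ := by simp only [det3]; ring
  have d213 : det3 v₂ v₁ v₃ = -det3 v₁ v₂ v₃ := by simp only [det3]; ring
  have d231 : det3 v₂ v₃ v₁ = det3 v₁ v₂ v₃ := by simp only [det3]; ring
  have d312 : det3 v₃ v₁ v₂ = det3 v₁ v₂ v₃ := by simp only [det3]; ring
  have d321 : det3 v₃ v₂ v₁ = -det3 v₁ v₂ v₃ := by simp only [det3]; ring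
  unfold Pm at hPm
  simp only [Prod.mk.injEq] at hPm
  rcases hPm with ⟨rfl, rfl, rfl⟩ | ⟨rfl, rfl, rfl⟩ | ⟨rfl, rfl, rfl⟩ | ⟨rfl, rfl, rfl⟩ |
    ⟨rfl, rfl, rfl⟩ | ⟨rfl, rfl, rfl⟩
  · obtain ⟨a, b, d, e, f⟩ := rexc_case h1 v₀ _ _ _ c w₁ w₂ w₃ m y hm hm6 p1 p2 p3
      ⟨w₁, w₂, w₃, hL, rfl, Or.inl rfl⟩ hs
      (fun N n₀ ni nk nl X g0 g1 g2 g3 g4 g5 g6 g7 g8 g9 =>
        htm N n₀ ni nk nl X g0 g1 g2 g3 g4 g5 g6 g7 g8 g9) hdet hy hk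
    exact ⟨a, b, d, e, f⟩
  · obtain ⟨a, b, d, e, f⟩ := rexc_case h1 v₀ _ _ _ c w₁ w₃ w₂ m y hm hm6 p1 p3 p2
      ⟨w₁, w₂, w₃, hL, rfl, Or.inr (Or.inl rfl)⟩ (by rw [← hs]; abel)
      (fun N n₀ ni nk nl X g0 g1 g2 g3 g4 g5 g6 g7 g8 g9 =>
        htm N n₀ ni nl nk X g0 g1 g3 g2 g4 g5 g7 g6 (by omega) (by rw [g9]; abel))
      (by rw [d132]; exact neg_ne_zero.2 hdet) hy hk
    exact ⟨a, d, b, e, f⟩
  · obtain ⟨a, b, d, e, f⟩ := rexc_case h1 v₀ _ _ _ c w₂ w₁ w₃ m y hm hm6 p2 p1 p3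
      ⟨w₁, w₂, w₃, hL, rfl, Or.inr (Or.inr (Or.inl rfl))⟩ (by rw [← hs]; abel)
      (fun N n₀ ni nk nl X g0 g1 g2 g3 g4 g5 g6 g7 g8 g9 =>
        htm N n₀ nk ni nl X g0 g2 g1 g3 g4 g6 g5 g7 (by omega) (by rw [g9]; abel))
      (by rw [d213]; exact neg_ne_zero.2 hdet) hy hk
    exact ⟨b, a, d, e, f⟩
  · obtain ⟨a, b, d, e, f⟩ := rexc_case h1 v₀ _ _ _ c w₂ w₃ w₁ m y hm hm6 p2 p3 p1
      ⟨w₁, w₂, w₃, hL, rfl, Or.inr (Or.inr (Or.inr (Or.inl rfl)))⟩ (by rw [← hs]; abel)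
      (fun N n₀ ni nk nl X g0 g1 g2 g3 g4 g5 g6 g7 g8 g9 =>
        htm N n₀ nl ni nk X g0 g3 g1 g2 g4 g7 g5 g6 (by omega) (by rw [g9]; abel))
      (by rw [d231]; exact hdet) hy hk
    exact ⟨d, a, b, e, f⟩
  · obtain ⟨a, b, d, e, f⟩ := rexc_case h1 v₀ _ _ _ c w₃ w₁ w₂ m y hm hm6 p3 p1 p2
      ⟨w₁, w₂, w₃, hL, rfl, Or.inr (Or.inr (Or.inr (Or.inr (Or.inl rfl))))⟩ (by rw [← hs]; abel)
      (fun N n₀ ni nk nl X g0 g1 g2 g3 g4 g5 g6 g7 g8 g9 =>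
        htm N n₀ nk nl ni X g0 g2 g3 g1 g4 g6 g7 g5 (by omega) (by rw [g9]; abel))
      (by rw [d312]; exact hdet) hy hk
    exact ⟨b, d, a, e, f⟩
  · obtain ⟨a, b, d, e, f⟩ := rexc_case h1 v₀ _ _ _ c w₃ w₂ w₁ m y hm hm6 p3 p2 p1
      ⟨w₁, w₂, w₃, hL, rfl, Or.inr (Or.inr (Or.inr (Or.inr (Or.inr rfl))))⟩ (by rw [← hs]; abel)
      (fun N n₀ ni nk nl X g0 g1 g2 g3 g4 g5 g6 g7 g8 g9 =>
        htm N n₀ nl nk ni X g0 g3 g2 g1 g4 g7 g6 g5 (by omega) (by rw [g9]; abel))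
      (by rw [d321]; exact neg_ne_zero.2 hdet) hy hk
    exact ⟨d, b, a, e, f⟩

end Pool.Agent.Lib.MP_0bc52e_nt.R
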