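import Pool.Agent.Lib.MP_0bc52e_nt.R.StmR

set_option autoImplicit false

namespace Pool.Agent.Lib.MP_0bc52e_nt.R

open Pool.Agent.Lib.MP_0bc52e_nt.LC Pool.Agent.Lib.MP_0bc52e_nt.T

private lemma rfib_four (P : Set (ℝ × ℝ × ℝ)) (hP : Convex ℝ P) (p q r s : ℝ × ℝ × ℝ)
    (a b c d : ℝ) (hp : p ∈ P) (hq : q ∈ P) (hr : r ∈ P) (hs : s ∈ P)
    (ha : 0 ≤ a) (hb : 0 ≤ b) (hc : 0 ≤ c) (hd : 0 ≤ d) (h : a + b + c + d = 1) :
    a • p + b • q + c • r + d • s ∈ P := by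
  have key := hP.sum_mem (t := Finset.univ) (w := ![a, b, c, d]) (z := ![p, q, r, s])
    (by intro i _; fin_cases i <;> simpa) (by simp [Fin.sum_univ_four, h])
    (by intro i _; fin_cases i <;> simpa)
  simpa [Fin.sum_univ_four] using key

theorem p_fib : S_fib := by
  intro P s₁ s₂ e a d x y z hP h1 h2 hs1 hs2 hd hpr hy hx habs
  obtain ⟨u1, v1, z1⟩ := s₁
  obtain ⟨u2, v2, z2⟩ := s₂
  obtain ⟨e1, e2⟩ := e
  simp only [pr, Prod.smul_mk, Prod.mk_add_mk, Prod.mk.injEq, smul_eq_mul] at hpr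
  obtain ⟨hu, hv⟩ := hpr
  simp only at habs
  have hdr : (0 : ℝ) < d := by exact_mod_cast hd
  have hyr : (0 : ℝ) ≤ y := by exact_mod_cast hy
  have hxr : (0 : ℝ) ≤ d * x - y * a := by exact_mod_cast hx
  have habs1 := (abs_le.1 habs).1
  have habs2 := (abs_le.1 habs).2
  have hA1 : -((d : ℝ) - y - (d * x - y * a)) ≤ d * z - y * (z2 - a * z1) := by
    exact_mod_cast habs1
  have hA2 : (d : ℝ) * z - y * (z2 - a * z1) ≤ d - y - (d * x - y * a) := by
    exact_mod_cast habs2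
  have hur : (u2 : ℝ) = a * u1 + d * e1 := by exact_mod_cast hu
  have hvr : (v2 : ℝ) = a * v1 + d * e2 := by exact_mod_cast hv
  have key := rfib_four P hP _ _ _ _ (((d : ℝ) * x - y * a) / d) ((y : ℝ) / d)
    ((((d : ℝ) - y - (d * x - y * a)) + (d * z - y * (z2 - a * z1))) / (2 * d))
    ((((d : ℝ) - y - (d * x - y * a)) - (d * z - y * (z2 - a * z1))) / (2 * d))
    hs1 hs2 h1 h2 (by positivity) (by positivity)
    (by apply div_nonneg <;> linarith) (by apply div_nonneg <;> linarith)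
    (by field_simp; ring)
  convert key using 1
  simp only [ip, pr, Prod.smul_mk, Prod.mk_add_mk, Prod.mk.injEq, smul_eq_mul]
  push_cast
  refine ⟨?_, ?_, ?_⟩
  · rw [hur]; field_simp; ring
  · rw [hvr]; field_simp; ring
  · field_simp; ring

end Pool.Agent.Lib.MP_0bc52e_nt.R
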