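import Pool.Agent.Lib.MP_0bc52e_nt.R.StmR

/-!
# MP_0bc52e_nt, part R: [TR fn]
-/

namespace Pool.Agent.Lib.MP_0bc52e_nt.R

open Pool.Agent.Lib.MP_0bc52e_nt.LC Pool.Agent.Lib.MP_0bc52e_nt.T

private theorem rfn_key (i k l c : ℤ × ℤ × ℤ) (y q : ℤ) (hq : 0 < q) (hd : |det3 i k l| = q)
    (hk : k = i + y • l + q • c) : ∃ n : ℤ × ℤ × ℤ, dot n i = 1 ∧ dot n k = 1 ∧ dot n l = 0 := by
  have e1 : det3 i k l = q * (-det3 i l c) := by
    subst hk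
    simp only [det3, Prod.fst_add, Prod.snd_add, Prod.smul_fst, Prod.smul_snd, smul_eq_mul]
    ring
  have e2 : |det3 i l c| = 1 := by
    rw [e1, abs_mul, abs_neg, abs_of_pos hq] at hd
    have : q * |det3 i l c| = q * 1 := by rw [hd, mul_one]
    exact mul_left_cancel₀ hq.ne' this
  have e3 : det3 i l c * det3 i l c = 1 := by
    rw [← abs_mul_abs_self, e2, one_mul]
  have hi : dot (det3 i l c • cr l c) i = 1 := by
    rw [← e3]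
    simp only [dot, cr, det3, Prod.smul_fst, Prod.smul_snd, smul_eq_mul]
    ring
  have hl : dot (det3 i l c • cr l c) l = 0 := by
    simp only [dot, cr, Prod.smul_fst, Prod.smul_snd, smul_eq_mul]
    ring
  have hc : dot (det3 i l c • cr l c) c = 0 := by
    simp only [dot, cr, Prod.smul_fst, Prod.smul_snd, smul_eq_mul]
    ring
  refine ⟨det3 i l c • cr l c, hi, ?_, hl⟩
  have hk' : dot (det3 i l c • cr l c) k = dot (det3 i l c • cr l c) i +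
      y * dot (det3 i l c • cr l c) l + q * dot (det3 i l c • cr l c) c := by
    conv_lhs => rw [hk]
    generalize det3 i l c • cr l c = n
    simp only [dot, Prod.fst_add, Prod.snd_add, Prod.smul_fst, Prod.smul_snd, smul_eq_mul]
    ring
  rw [hk', hi, hl, hc]
  ring

private theorem rfn_swap12 (a b c : ℤ × ℤ × ℤ) : |det3 b a c| = |det3 a b c| := by
  rw [← abs_neg]
  congr 1
  simp only [det3]
  ring

private theorem rfn_swap23 (a b c : ℤ × ℤ × ℤ) : |det3 a c b| = |det3 a b c| := by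
  rw [← abs_neg]
  congr 1
  simp only [det3]
  ring

private theorem rfn_det (i k l v₁ v₂ v₃ : ℤ × ℤ × ℤ) (h : Pm i k l v₁ v₂ v₃) :
    |det3 i k l| = |det3 v₁ v₂ v₃| := by
  unfold Pm at h
  simp only [Prod.mk.injEq] at h
  rcases h with ⟨rfl, rfl, rfl⟩ | ⟨rfl, rfl, rfl⟩ | ⟨rfl, rfl, rfl⟩ | ⟨rfl, rfl, rfl⟩ |
    ⟨rfl, rfl, rfl⟩ | ⟨rfl, rfl, rfl⟩
  · rfl
  · exact rfn_swap23 _ _ _
  · exact rfn_swap12 _ _ _
  · rw [rfn_swap12 i l k, rfn_swap23 i k l]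
  · rw [rfn_swap23 k i l, rfn_swap12 i k l]
  · rw [rfn_swap12 k l i, rfn_swap23 k i l, rfn_swap12 i k l]

theorem p_fn : S_fn := by
  intro v₁ v₂ v₃ hnf hd
  obtain ⟨i, k, l, c, y, hpm, _, hk⟩ := hnf
  have hq : 0 < |det3 v₁ v₂ v₃| := abs_pos.2 hd
  obtain ⟨n, hi, hkk, hl⟩ := rfn_key i k l c y _ hq (rfn_det _ _ _ _ _ _ hpm) hk
  refine ⟨n, ?_⟩
  unfold Pat
  unfold Pm at hpm
  simp only [Prod.mk.injEq] at hpm
  rcases hpm with ⟨h1, h2, h3⟩ | ⟨h1, h2, h3⟩ | ⟨h1, h2, h3⟩ | ⟨h1, h2, h3⟩ | ⟨h1, h2, h3⟩ |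
    ⟨h1, h2, h3⟩ <;> rw [h1] at hi <;> rw [h2] at hkk <;> rw [h3] at hl
  · exact Or.inl ⟨hi, hkk, hl⟩
  · exact Or.inr (Or.inl ⟨hi, hl, hkk⟩)
  · exact Or.inl ⟨hkk, hi, hl⟩
  · exact Or.inr (Or.inr ⟨hl, hi, hkk⟩)
  · exact Or.inr (Or.inl ⟨hkk, hl, hi⟩)
  · exact Or.inr (Or.inr ⟨hl, hkk, hi⟩)

end Pool.Agent.Lib.MP_0bc52e_nt.R
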