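import Pool.Agent.Lib.MP_0bc52e_nt.R.StmR

namespace Pool.Agent.Lib.MP_0bc52e_nt.R

open Pool.Agent.Lib.MP_0bc52e_nt.LC Pool.Agent.Lib.MP_0bc52e_nt.T

private theorem ridx_one (h2 : S_emp4) (h3 : S_nf) (h4 : S_fn) (v₀ v₁ v₂ v₃ : ℤ × ℤ × ℤ) (w₀ w₁ w₂ w₃ m : ℤ)
    (h : Te v₀ v₁ v₂ v₃ w₀ w₁ w₂ w₃ m) :
    ∃ n : ℤ × ℤ × ℤ, Pat (dot n v₁) (dot n v₂) (dot n v₃) := by
  have hd : det3 v₁ v₂ v₃ ≠ 0 := by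
    intro h0
    have h1 := h.d₀
    rw [h0, abs_zero] at h1
    have h2 := mul_pos h.hm h.h₀
    omega
  exact h4 _ _ _ (h3 _ _ _ (h2 _ _ _ _ _ _ _ _ _ h) hd) hd

private theorem ridx_det (a b c u v w : ℤ × ℤ × ℤ) :
    det3 (dot a u, dot a v, dot a w) (dot b u, dot b v, dot b w) (dot c u, dot c v, dot c w) =
      det3 a b c * det3 u v w := by
  simp only [det3, dot]
  ring

private theorem ridx_rel (n v₀ v₁ v₂ v₃ : ℤ × ℤ × ℤ) (w₀ w₁ w₂ w₃ : ℤ)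
    (h : w₀ • v₀ + w₁ • v₁ + w₂ • v₂ + w₃ • v₃ = 0) :
    w₀ * dot n v₀ + w₁ * dot n v₁ + w₂ * dot n v₂ + w₃ * dot n v₃ = 0 := by
  obtain ⟨a0, b0, c0⟩ := v₀
  obtain ⟨a1, b1, c1⟩ := v₁
  obtain ⟨a2, b2, c2⟩ := v₂
  obtain ⟨a3, b3, c3⟩ := v₃
  simp only [Prod.smul_mk, Prod.mk_add_mk, smul_eq_mul, Prod.mk_eq_zero] at h
  obtain ⟨e1, e2, e3⟩ := h
  simp only [dot]
  linear_combination n.1 * e1 + n.2.1 * e2 + n.2.2 * e3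

theorem p_idx (h1 : S_teS) (h2 : S_emp4) (h3 : S_nf) (h4 : S_fn) (h5 : S_idxA) : S_idx := by
  intro v₀ v₁ v₂ v₃ w₀ w₁ w₂ w₃ m h hL
  have t1 := (h1 _ _ _ _ _ _ _ _ _ h).1
  have t2 := (h1 _ _ _ _ _ _ _ _ _ (h1 _ _ _ _ _ _ _ _ _ h).2.1).1
  have t3 := (h1 _ _ _ _ _ _ _ _ _ (h1 _ _ _ _ _ _ _ _ _ (h1 _ _ _ _ _ _ _ _ _ h).2.2).2.1).1
  obtain ⟨n0, p0⟩ := ridx_one h2 h3 h4 _ _ _ _ _ _ _ _ _ h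
  obtain ⟨n1, p1⟩ := ridx_one h2 h3 h4 _ _ _ _ _ _ _ _ _ t1
  obtain ⟨n2, p2⟩ := ridx_one h2 h3 h4 _ _ _ _ _ _ _ _ _ t2
  obtain ⟨n3, p3⟩ := ridx_one h2 h3 h4 _ _ _ _ _ _ _ _ _ t3
  refine h5 w₀ w₁ w₂ w₃ m (fun j i => dot (![n0, n1, n2, n3] j) (![v₀, v₁, v₂, v₃] i)) hL h.hm
    ?_ p0 p1 p2 p3 ?_
  · intro j
    exact ridx_rel _ _ _ _ _ _ _ _ _ h.sum
  · intro a b c
    have e : det3 (dot (![n0, n1, n2, n3] a) (![v₀, v₁, v₂, v₃] 1), dot (![n0, n1, n2, n3] a) (![v₀, v₁, v₂, v₃] 2),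
        dot (![n0, n1, n2, n3] a) (![v₀, v₁, v₂, v₃] 3))
        (dot (![n0, n1, n2, n3] b) (![v₀, v₁, v₂, v₃] 1), dot (![n0, n1, n2, n3] b) (![v₀, v₁, v₂, v₃] 2),
        dot (![n0, n1, n2, n3] b) (![v₀, v₁, v₂, v₃] 3))
        (dot (![n0, n1, n2, n3] c) (![v₀, v₁, v₂, v₃] 1), dot (![n0, n1, n2, n3] c) (![v₀, v₁, v₂, v₃] 2),
        dot (![n0, n1, n2, n3] c) (![v₀, v₁, v₂, v₃] 3)) =
        det3 (![n0, n1, n2, n3] a) (![n0, n1, n2, n3] b) (![n0, n1, n2, n3] c) * det3 v₁ v₂ v₃ :=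
      ridx_det _ _ _ _ _ _
    rw [e]
    apply Dvd.dvd.mul_left
    rw [← dvd_abs, h.d₀]

end Pool.Agent.Lib.MP_0bc52e_nt.R
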