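import Pool.Agent.Lib.MP_0bc52e_nt.R.StmR

/-!
Piece [idxA] of the root theorem (MP_0bc52e_nt): the index of a tetrahedron with one of the seven weight vectors.
-/

set_option autoImplicit false

namespace Pool.Agent.Lib.MP_0bc52e_nt.R

open Pool.Agent.Lib.MP_0bc52e_nt.LC Pool.Agent.Lib.MP_0bc52e_nt.T

/-- The greatest common divisor of the four determinants. -/
def ridxa_G (w₀ w₁ w₂ w₃ : ℤ) (r₀ r₁ r₂ r₃ : ℤ × ℤ × ℤ) : ℕ :=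
  let y₀ : ℤ × ℤ × ℤ := r₀
  let y₁ : ℤ × ℤ × ℤ := (-(w₀ * r₁.1 + w₂ * r₁.2.1 + w₃ * r₁.2.2) / w₁, r₁.2.1, r₁.2.2)
  let y₂ : ℤ × ℤ × ℤ := (r₂.2.1, -(w₀ * r₂.1 + w₁ * r₂.2.1 + w₃ * r₂.2.2) / w₂, r₂.2.2)
  let y₃ : ℤ × ℤ × ℤ := (r₃.2.1, r₃.2.2, -(w₀ * r₃.1 + w₁ * r₃.2.1 + w₂ * r₃.2.2) / w₃)
  Nat.gcd (Nat.gcd (det3 y₀ y₁ y₂).natAbs (det3 y₀ y₁ y₃).natAbs)
    (Nat.gcd (det3 y₀ y₂ y₃).natAbs (det3 y₁ y₂ y₃).natAbs)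

/-- The patterns. -/
def ridxa_pat : List (ℤ × ℤ × ℤ) := [(1, 1, 0), (1, 0, 1), (0, 1, 1)]

/-- The finite check. -/
def ridxa_chk (w₀ w₁ w₂ w₃ : ℤ) (r₀ r₁ r₂ r₃ : ℤ × ℤ × ℤ) : Bool :=
  decide ((w₁ * r₀.1 + w₂ * r₀.2.1 + w₃ * r₀.2.2) % w₀ ≠ 0) ||
  decide ((w₀ * r₁.1 + w₂ * r₁.2.1 + w₃ * r₁.2.2) % w₁ ≠ 0) ||
  decide ((w₀ * r₂.1 + w₁ * r₂.2.1 + w₃ * r₂.2.2) % w₂ ≠ 0) ||
  decide ((w₀ * r₃.1 + w₁ * r₃.2.1 + w₂ * r₃.2.2) % w₃ ≠ 0) ||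
  (decide (0 < ridxa_G w₀ w₁ w₂ w₃ r₀ r₁ r₂ r₃) &&
    decide ((ridxa_G w₀ w₁ w₂ w₃ r₀ r₁ r₂ r₃ : ℤ) < 7 * w₀) &&
    (decide (w₀ + w₁ + w₂ + w₃ < 11) || decide ((ridxa_G w₀ w₁ w₂ w₃ r₀ r₁ r₂ r₃ : ℤ) < 2 * w₀)))

lemma ridxa_all : ∀ w ∈ L7, ∀ r₀ ∈ ridxa_pat, ∀ r₁ ∈ ridxa_pat, ∀ r₂ ∈ ridxa_pat, ∀ r₃ ∈ ridxa_pat,
    ridxa_chk w.1 w.2.1 w.2.2.1 w.2.2.2 r₀ r₁ r₂ r₃ = true := by
  decide +kernel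

lemma ridxa_mem {a b c : ℤ} (h : Pat a b c) : (a, b, c) ∈ ridxa_pat := by
  rcases h with ⟨rfl, rfl, rfl⟩ | ⟨rfl, rfl, rfl⟩ | ⟨rfl, rfl, rfl⟩ <;> simp [ridxa_pat]

lemma ridxa_div {w s x : ℤ} (hw : 0 < w) (h : w * x = -s) : s % w = 0 ∧ x = -s / w := by
  constructor
  · exact Int.emod_eq_zero_of_dvd ⟨-x, by linarith⟩
  · rw [← h, Int.mul_ediv_cancel_left _ hw.ne']

lemma ridxa_pos : ∀ w ∈ L7, 0 < w.1 ∧ 0 < w.2.1 ∧ 0 < w.2.2.1 ∧ 0 < w.2.2.2 := by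
  decide

theorem p_idxA : S_idxA := by
  intro w₀ w₁ w₂ w₃ m x hw hm hrel hp₀ hp₁ hp₂ hp₃ hdvd
  obtain ⟨hw₀, hw₁, hw₂, hw₃⟩ := ridxa_pos _ hw
  simp only at hw₀ hw₁ hw₂ hw₃
  obtain ⟨e₀, -⟩ := ridxa_div (x := x 0 0) (s := w₁ * x 0 1 + w₂ * x 0 2 + w₃ * x 0 3) hw₀
    (by linarith [hrel 0])
  obtain ⟨e₁, f₁⟩ := ridxa_div (x := x 1 1) (s := w₀ * x 1 0 + w₂ * x 1 2 + w₃ * x 1 3) hw₁
    (by linarith [hrel 1])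
  obtain ⟨e₂, f₂⟩ := ridxa_div (x := x 2 2) (s := w₀ * x 2 0 + w₁ * x 2 1 + w₃ * x 2 3) hw₂
    (by linarith [hrel 2])
  obtain ⟨e₃, f₃⟩ := ridxa_div (x := x 3 3) (s := w₀ * x 3 0 + w₁ * x 3 1 + w₂ * x 3 2) hw₃
    (by linarith [hrel 3])
  have hchk := ridxa_all _ hw _ (ridxa_mem hp₀) _ (ridxa_mem hp₁) _ (ridxa_mem hp₂) _ (ridxa_mem hp₃)
  simp only [ridxa_chk, e₀, e₁, e₂, e₃, Bool.or_eq_true, Bool.and_eq_true, decide_eq_true_eq, ne_eq,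
    not_true_eq_false, false_or] at hchk
  obtain ⟨⟨hG0, hG7⟩, hG2⟩ := hchk
  set G := ridxa_G w₀ w₁ w₂ w₃ (x 0 1, x 0 2, x 0 3) (x 1 0, x 1 2, x 1 3) (x 2 0, x 2 1, x 2 3)
    (x 3 0, x 3 1, x 3 2) with hG
  have hd : m * w₀ ∣ (G : ℤ) := by
    have h1 : (m * w₀).natAbs ∣ G := by
      rw [hG]
      simp only [ridxa_G]
      rw [← f₁, ← f₂, ← f₃]
      refine Nat.dvd_gcd (Nat.dvd_gcd ?_ ?_) (Nat.dvd_gcd ?_ ?_)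
      · exact Int.natAbs_dvd_natAbs.2 (hdvd 0 1 2)
      · exact Int.natAbs_dvd_natAbs.2 (hdvd 0 1 3)
      · exact Int.natAbs_dvd_natAbs.2 (hdvd 0 2 3)
      · exact Int.natAbs_dvd_natAbs.2 (hdvd 1 2 3)
    exact Int.natAbs_dvd.1 (Int.natCast_dvd_natCast.2 h1)
  have hle : m * w₀ ≤ (G : ℤ) := Int.le_of_dvd (by exact_mod_cast hG0) hd
  constructor
  · have h1 : m * w₀ < 7 * w₀ := lt_of_le_of_lt hle hG7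
    have h2 := lt_of_mul_lt_mul_right h1 hw₀.le
    omega
  · intro h11
    rcases hG2 with h | h
    · omega
    · have h1 : m * w₀ < 2 * w₀ := lt_of_le_of_lt hle h
      have h2 := lt_of_mul_lt_mul_right h1 hw₀.le
      omega

end Pool.Agent.Lib.MP_0bc52e_nt.R
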