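import Pool.Agent.Lib.MP_0bc52e_nt.R.StmR

namespace Pool.Agent.Lib.MP_0bc52e_nt.R

open Pool.Agent.Lib.MP_0bc52e_nt.LC Pool.Agent.Lib.MP_0bc52e_nt.T

private theorem rix1_fr (a b c v : ℤ × ℤ × ℤ) :
    fr 0 a b c (ip v) = ip (v.1 • a + v.2.1 • b + v.2.2 • c) := by
  obtain ⟨a1, a2, a3⟩ := a
  obtain ⟨b1, b2, b3⟩ := b
  obtain ⟨c1, c2, c3⟩ := c
  obtain ⟨x, y, z⟩ := v
  simp [fr, ip]

private theorem rix1_root {P : Set (ℝ × ℝ × ℝ)} (R : List (ℤ × ℤ × ℤ)) (hR : R ∈ Theta)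
    (a b c : ℤ × ℤ × ℤ) (hd : det3 a b c = 1 ∨ det3 a b c = -1)
    (h : ∀ v ∈ R, ip (v.1 • a + v.2.1 • b + v.2.2 • c) ∈ P) : Root P := by
  refine ⟨fr 0 a b c, ⟨0, a, b, c, hd, fun _ => rfl⟩, Or.inl ⟨R, hR, ?_⟩⟩
  intro v hv
  rw [rix1_fr]
  exact h v hv

private theorem rix1_one {P : Set (ℝ × ℝ × ℝ)} (v₀ v₁ v₂ v₃ : ℤ × ℤ × ℤ) (w₁ w₂ w₃ : ℤ)
    (hR : [(-w₁, -w₂, -w₃), ((1 : ℤ), (0 : ℤ), (0 : ℤ)), (0, 1, 0), (0, 0, 1)] ∈ Theta)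
    (hT : Te v₀ v₁ v₂ v₃ 1 w₁ w₂ w₃ 1) (hP : In4 P v₀ v₁ v₂ v₃) : Root P := by
  obtain ⟨p0, p1, p2, p3⟩ := hP
  have hd := hT.d₀
  have hs := hT.sum
  rw [mul_one] at hd
  refine rix1_root _ hR v₁ v₂ v₃ (eq_or_eq_neg_of_abs_eq hd) ?_
  have e : ((-w₁) • v₁ + (-w₂) • v₂ + (-w₃) • v₃ : ℤ × ℤ × ℤ) = v₀ := by
    rw [one_smul] at hs
    have h2 : v₀ = -(w₁ • v₁ + w₂ • v₂ + w₃ • v₃) := by
      rw [eq_neg_iff_add_eq_zero, ← hs]; abel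
    rw [h2, neg_smul, neg_smul, neg_smul]
    abel
  intro v hv
  simp only [List.mem_cons, List.not_mem_nil, or_false] at hv
  rcases hv with rfl | rfl | rfl | rfl
  · show ip ((-w₁) • v₁ + (-w₂) • v₂ + (-w₃) • v₃) ∈ P
    rw [e]
    exact p0
  · simpa using p1
  · simpa using p2
  · simpa using p3

theorem p_ix1 : S_ix1 := by
  intro P v₀ v₁ v₂ v₃ w₀ w₁ w₂ w₃ hT hP hL
  simp only [L7, List.mem_cons, List.not_mem_nil, or_false, Prod.mk.injEq] at hL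
  rcases hL with ⟨rfl, rfl, rfl, rfl⟩ | ⟨rfl, rfl, rfl, rfl⟩ | ⟨rfl, rfl, rfl, rfl⟩ |
    ⟨rfl, rfl, rfl, rfl⟩ | ⟨rfl, rfl, rfl, rfl⟩ | ⟨rfl, rfl, rfl, rfl⟩ | ⟨rfl, rfl, rfl, rfl⟩
  · exact rix1_one v₀ v₁ v₂ v₃ _ _ _ (by simp [Theta]) hT hP
  · exact rix1_one v₀ v₁ v₂ v₃ _ _ _ (by simp [Theta]) hT hP
  · exact rix1_one v₀ v₁ v₂ v₃ _ _ _ (by simp [Theta]) hT hP
  · exact rix1_one v₀ v₁ v₂ v₃ _ _ _ (by simp [Theta]) hT hP
  · exact rix1_one v₀ v₁ v₂ v₃ _ _ _ (by simp [Theta]) hT hP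
  · obtain ⟨p0, p1, p2, p3⟩ := hP
    have hs := hT.sum
    have hd0 := hT.d₀
    have hd1 := hT.d₁
    obtain ⟨a0, b0, c0⟩ := v₀
    obtain ⟨a1, b1, c1⟩ := v₁
    obtain ⟨a2, b2, c2⟩ := v₂
    obtain ⟨a3, b3, c3⟩ := v₃
    simp only [Prod.smul_mk, Prod.mk_add_mk, smul_eq_mul, Prod.mk_eq_zero] at hs
    obtain ⟨s1, s2, s3⟩ := hs
    have hrel : 2 * det3 (a0, b0, c0) (a2, b2, c2) (a3, b3, c3) +
        3 * det3 (a1, b1, c1) (a2, b2, c2) (a3, b3, c3) = 0 := by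
      simp only [det3]
      linear_combination (b2 * c3 - c2 * b3) * s1 - (a2 * c3 - c2 * a3) * s2 +
        (a2 * b3 - b2 * a3) * s3
    refine rix1_root [(-4, -5, 3), (1, 1, -2), (1, 0, 0), (0, 1, 0)] (by simp [Theta])
      (a2, b2, c2) (a3, b3, c3) (a0 + a1 + 3 * a2 + 4 * a3, b0 + b1 + 3 * b2 + 4 * b3,
        c0 + c1 + 3 * c2 + 4 * c3) ?_ ?_
    · have he : det3 (a2, b2, c2) (a3, b3, c3) (a0 + a1 + 3 * a2 + 4 * a3,
          b0 + b1 + 3 * b2 + 4 * b3, c0 + c1 + 3 * c2 + 4 * c3) =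
          det3 (a0, b0, c0) (a2, b2, c2) (a3, b3, c3) +
          det3 (a1, b1, c1) (a2, b2, c2) (a3, b3, c3) := by
        simp only [det3]; ring
      rw [he]
      rcases eq_or_eq_neg_of_abs_eq hd0 with h | h <;> rw [h] at hrel ⊢ <;> omega
    · intro v hv
      simp only [List.mem_cons, List.not_mem_nil, or_false] at hv
      rcases hv with rfl | rfl | rfl | rfl
      · have e : ((-4 : ℤ) • (a2, b2, c2) + (-5 : ℤ) • (a3, b3, c3) +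
            (3 : ℤ) • (a0 + a1 + 3 * a2 + 4 * a3, b0 + b1 + 3 * b2 + 4 * b3,
              c0 + c1 + 3 * c2 + 4 * c3) : ℤ × ℤ × ℤ) = (a0, b0, c0) := by
          simp only [Prod.smul_mk, Prod.mk_add_mk, smul_eq_mul, Prod.mk.injEq]
          refine ⟨?_, ?_, ?_⟩ <;> linarith
        show ip (((-4 : ℤ) • (a2, b2, c2) + (-5 : ℤ) • (a3, b3, c3) + (3 : ℤ) • _ : ℤ × ℤ × ℤ)) ∈ P
        rw [e]
        exact p0
      · have e : ((1 : ℤ) • (a2, b2, c2) + (1 : ℤ) • (a3, b3, c3) +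
            (-2 : ℤ) • (a0 + a1 + 3 * a2 + 4 * a3, b0 + b1 + 3 * b2 + 4 * b3,
              c0 + c1 + 3 * c2 + 4 * c3) : ℤ × ℤ × ℤ) = (a1, b1, c1) := by
          simp only [Prod.smul_mk, Prod.mk_add_mk, smul_eq_mul, Prod.mk.injEq]
          refine ⟨?_, ?_, ?_⟩ <;> linarith
        show ip (((1 : ℤ) • (a2, b2, c2) + (1 : ℤ) • (a3, b3, c3) + (-2 : ℤ) • _ : ℤ × ℤ × ℤ)) ∈ P
        rw [e]
        exact p1
      · simpa using p2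
      · simpa using p3
  · obtain ⟨p0, p1, p2, p3⟩ := hP
    have hs := hT.sum
    have hd0 := hT.d₀
    have hd1 := hT.d₁
    obtain ⟨a0, b0, c0⟩ := v₀
    obtain ⟨a1, b1, c1⟩ := v₁
    obtain ⟨a2, b2, c2⟩ := v₂
    obtain ⟨a3, b3, c3⟩ := v₃
    simp only [Prod.smul_mk, Prod.mk_add_mk, smul_eq_mul, Prod.mk_eq_zero] at hs
    obtain ⟨s1, s2, s3⟩ := hs
    have hrel : 3 * det3 (a0, b0, c0) (a2, b2, c2) (a3, b3, c3) +
        4 * det3 (a1, b1, c1) (a2, b2, c2) (a3, b3, c3) = 0 := by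
      simp only [det3]
      linear_combination (b2 * c3 - c2 * b3) * s1 - (a2 * c3 - c2 * a3) * s2 +
        (a2 * b3 - b2 * a3) * s3
    refine rix1_root [(1, -1, 4), (-2, -1, -3), (1, 0, 0), (0, 1, 0)] (by simp [Theta])
      (a2, b2, c2) (a3, b3, c3) (a0 + a1 + a2 + 2 * a3, b0 + b1 + b2 + 2 * b3,
        c0 + c1 + c2 + 2 * c3) ?_ ?_
    · have he : det3 (a2, b2, c2) (a3, b3, c3) (a0 + a1 + a2 + 2 * a3,
          b0 + b1 + b2 + 2 * b3, c0 + c1 + c2 + 2 * c3) =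
          det3 (a0, b0, c0) (a2, b2, c2) (a3, b3, c3) +
          det3 (a1, b1, c1) (a2, b2, c2) (a3, b3, c3) := by
        simp only [det3]; ring
      rw [he]
      rcases eq_or_eq_neg_of_abs_eq hd0 with h | h <;> rw [h] at hrel ⊢ <;> omega
    · intro v hv
      simp only [List.mem_cons, List.not_mem_nil, or_false] at hv
      rcases hv with rfl | rfl | rfl | rfl
      · have e : ((1 : ℤ) • (a2, b2, c2) + (-1 : ℤ) • (a3, b3, c3) +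
            (4 : ℤ) • (a0 + a1 + a2 + 2 * a3, b0 + b1 + b2 + 2 * b3,
              c0 + c1 + c2 + 2 * c3) : ℤ × ℤ × ℤ) = (a0, b0, c0) := by
          simp only [Prod.smul_mk, Prod.mk_add_mk, smul_eq_mul, Prod.mk.injEq]
          refine ⟨?_, ?_, ?_⟩ <;> linarith
        show ip (((1 : ℤ) • (a2, b2, c2) + (-1 : ℤ) • (a3, b3, c3) + (4 : ℤ) • _ : ℤ × ℤ × ℤ)) ∈ P
        rw [e]
        exact p0
      · have e : ((-2 : ℤ) • (a2, b2, c2) + (-1 : ℤ) • (a3, b3, c3) +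
            (-3 : ℤ) • (a0 + a1 + a2 + 2 * a3, b0 + b1 + b2 + 2 * b3,
              c0 + c1 + c2 + 2 * c3) : ℤ × ℤ × ℤ) = (a1, b1, c1) := by
          simp only [Prod.smul_mk, Prod.mk_add_mk, smul_eq_mul, Prod.mk.injEq]
          refine ⟨?_, ?_, ?_⟩ <;> linarith
        show ip (((-2 : ℤ) • (a2, b2, c2) + (-1 : ℤ) • (a3, b3, c3) + (-3 : ℤ) • _ : ℤ × ℤ × ℤ)) ∈ P
        rw [e]
        exact p1
      · simpa using p2
      · simpa using p3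

end Pool.Agent.Lib.MP_0bc52e_nt.R
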