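import Pool.Agent.Lib.MP_0bc52e_nt.R.StmR

/-!
# MP_0bc52e_nt, [TR ix5]: the tetrahedron of index five
-/

set_option autoImplicit false

namespace Pool.Agent.Lib.MP_0bc52e_nt.R

open Pool.Agent.Lib.MP_0bc52e_nt.LC Pool.Agent.Lib.MP_0bc52e_nt.T

private lemma rix5_det (i k l c : ℤ × ℤ × ℤ) (hd : |det3 i k l| = 5)
    (hk : k = i + (2 : ℤ) • l + (5 : ℤ) • c) : det3 (-c) i l = 1 ∨ det3 (-c) i l = -1 := by
  have h1 : det3 i k l = 5 * det3 (-c) i l := by
    subst hk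
    simp only [det3, Prod.fst_add, Prod.snd_add, Prod.smul_fst, Prod.smul_snd, Prod.fst_neg,
      Prod.snd_neg, smul_eq_mul]
    ring
  rw [h1, abs_mul] at hd
  have h2 : |det3 (-c) i l| = 1 := by
    have h3 : |(5 : ℤ)| = 5 := by norm_num
    rw [h3] at hd
    omega
  rcases abs_eq (by norm_num : (0 : ℤ) ≤ 1) |>.1 h2 with h | h
  · exact Or.inl h
  · exact Or.inr h

private lemma rix5_core (P : Set (ℝ × ℝ × ℝ)) (v₀ i k l c : ℤ × ℤ × ℤ)
    (hs : v₀ + i + k + l = 0) (hd : |det3 i k l| = 5)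
    (hk : k = i + (2 : ℤ) • l + (5 : ℤ) • c) (h0 : ip v₀ ∈ P) (hi : ip i ∈ P) (hkP : ip k ∈ P)
    (hl : ip l ∈ P) : Root P := by
  have hv : v₀ = -(i + k + l) := by
    rw [eq_neg_iff_add_eq_zero, ← hs]
    abel
  refine ⟨fr 0 (-c) i l, ⟨0, -c, i, l, rix5_det i k l c hd hk, fun v => rfl⟩, Or.inl
    ⟨[(-5, 1, 2), (5, -2, -3), (0, 1, 0), (0, 0, 1)], by simp [Theta], ?_⟩⟩
  have e1 : fr 0 (-c) i l (ip (-5, 1, 2)) = ip k := by
    rw [hk]
    refine Prod.ext ?_ (Prod.ext ?_ ?_) <;>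
    · simp only [fr, ip, Prod.fst_add, Prod.snd_add, Prod.smul_fst, Prod.smul_snd, Prod.fst_neg,
        Prod.snd_neg, smul_eq_mul, Prod.fst_zero, Prod.snd_zero]
      push_cast
      ring
  have e2 : fr 0 (-c) i l (ip (5, -2, -3)) = ip v₀ := by
    rw [hv, hk]
    refine Prod.ext ?_ (Prod.ext ?_ ?_) <;>
    · simp only [fr, ip, Prod.fst_add, Prod.snd_add, Prod.smul_fst, Prod.smul_snd, Prod.fst_neg,
        Prod.snd_neg, smul_eq_mul, Prod.fst_zero, Prod.snd_zero]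
      push_cast
      ring
  have e3 : fr 0 (-c) i l (ip (0, 1, 0)) = ip i := by
    refine Prod.ext ?_ (Prod.ext ?_ ?_) <;>
    · simp only [fr, ip, Prod.fst_neg, Prod.snd_neg, Prod.fst_zero, Prod.snd_zero]
      push_cast
      ring
  have e4 : fr 0 (-c) i l (ip (0, 0, 1)) = ip l := by
    refine Prod.ext ?_ (Prod.ext ?_ ?_) <;>
    · simp only [fr, ip, Prod.fst_neg, Prod.snd_neg, Prod.fst_zero, Prod.snd_zero]
      push_cast
      ring
  intro v hv'
  simp only [List.mem_cons, List.not_mem_nil, or_false] at hv'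
  rcases hv' with rfl | rfl | rfl | rfl
  · rw [e1]; exact hkP
  · rw [e2]; exact h0
  · rw [e3]; exact hi
  · rw [e4]; exact hl

private lemma rix5_swap (a b c : ℤ × ℤ × ℤ) : det3 b a c = -det3 a b c ∧ det3 a c b = -det3 a b c ∧
    det3 c b a = -det3 a b c ∧ det3 b c a = det3 a b c ∧ det3 c a b = det3 a b c := by
  simp only [det3]
  refine ⟨?_, ?_, ?_, ?_, ?_⟩ <;> ring

theorem p_ix5 : S_ix5 := by
  intro P v₀ v₁ v₂ v₃ i k l c y hTe hIn hpm hk hy
  obtain ⟨p0, p1, p2, p3⟩ := hIn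
  have hs := hTe.sum
  simp only [one_smul] at hs
  have hd := hTe.d₀
  rw [mul_one] at hd
  obtain ⟨t1, t2, t3, t4, t5⟩ := rix5_swap v₁ v₂ v₃
  have key : (v₀ + i + k + l = 0) ∧ |det3 i k l| = 5 ∧ ip i ∈ P ∧ ip k ∈ P ∧ ip l ∈ P := by
    rcases hpm with h | h | h | h | h | h <;>
    · simp only [Prod.mk.injEq] at h
      obtain ⟨ha, hb, hc⟩ := h
      rw [ha, hb, hc]
      refine ⟨?_, ?_, by assumption, by assumption, by assumption⟩
      · first | exact hs | (rw [← hs]; abel)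
      · simp only [t1, t2, t3, t4, t5, abs_neg, hd]
  obtain ⟨hs', hd', hi, hkP, hl⟩ := key
  rcases hy with ⟨n, hn⟩ | ⟨n, hn⟩
  · refine rix5_core P v₀ i k l (c + n • l) hs' hd' ?_ p0 hi hkP hl
    have hy' : y = 2 + 5 * n := by omega
    rw [hk, hy']
    refine Prod.ext ?_ (Prod.ext ?_ ?_) <;>
    · simp only [Prod.fst_add, Prod.snd_add, Prod.smul_fst, Prod.smul_snd, smul_eq_mul]
      ring
  · refine rix5_core P v₀ k i l (-l - n • l - c) ?_ ?_ ?_ p0 hkP hi hl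
    · rw [← hs']; abel
    · rw [(rix5_swap i k l).1, abs_neg, hd']
    · have hy' : y = 3 + 5 * n := by omega
      rw [hk, hy']
      refine Prod.ext ?_ (Prod.ext ?_ ?_) <;>
      · simp only [Prod.fst_add, Prod.snd_add, Prod.fst_sub, Prod.snd_sub, Prod.fst_neg,
          Prod.snd_neg, Prod.smul_fst, Prod.smul_snd, smul_eq_mul]
        ring

end Pool.Agent.Lib.MP_0bc52e_nt.R
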