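import Pool.Agent.Lib.MP_0bc52e_nt.R.StmR

/-!
# MP_0bc52e_nt, part R: [TR nf]
-/

namespace Pool.Agent.Lib.MP_0bc52e_nt.R

open Pool.Agent.Lib.MP_0bc52e_nt.LC Pool.Agent.Lib.MP_0bc52e_nt.T

private theorem rnf_ip_inj {a b : ℤ × ℤ × ℤ} (h : ip a = ip b) : a = b := by
  have e1 := congrArg Prod.fst h
  have e2 := congrArg (fun v : ℝ × ℝ × ℝ => v.2.1) h
  have e3 := congrArg (fun v : ℝ × ℝ × ℝ => v.2.2) h
  simp only [ip] at e1 e2 e3
  exact Prod.ext (by exact_mod_cast e1) (Prod.ext (by exact_mod_cast e2) (by exact_mod_cast e3))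

private theorem rnf_fr (O a b c : ℤ × ℤ × ℤ) (x y z : ℤ) :
    fr O a b c (ip (x, y, z)) = ip (O + x • a + y • b + z • c) := by
  refine Prod.ext ?_ (Prod.ext ?_ ?_)
  · simp only [fr, ip, Prod.fst_add, Prod.smul_fst, smul_eq_mul]
    push_cast
    ring
  · simp only [fr, ip, Prod.fst_add, Prod.snd_add, Prod.smul_fst, Prod.smul_snd, smul_eq_mul]
    push_cast
    ring
  · simp only [fr, ip, Prod.snd_add, Prod.smul_snd, smul_eq_mul]
    push_cast
    ring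

private theorem rnf_seg (S : Finset (ℤ × ℤ × ℤ)) (u₁ u₃ w : ℤ × ℤ × ℤ) (h1 : u₁ ∈ S)
    (h3 : u₃ ∈ S) (r : ℤ) (hr : 1 ≤ r) (hw : r • w = (r - 1) • u₁ + u₃) : ip w ∈ hull S := by
  have hrR : (1 : ℝ) ≤ r := by exact_mod_cast hr
  have hr0 : (0 : ℝ) < r := by linarith
  have hc : Convex ℝ (hull S) := convex_convexHull ℝ _
  have m1 : ip u₁ ∈ hull S := subset_convexHull ℝ _ ⟨u₁, Finset.mem_coe.2 h1, rfl⟩
  have m3 : ip u₃ ∈ hull S := subset_convexHull ℝ _ ⟨u₃, Finset.mem_coe.2 h3, rfl⟩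
  have key : ip w = (1 - 1 / (r : ℝ)) • ip u₁ + (1 / (r : ℝ)) • ip u₃ := by
    have e1 := congrArg Prod.fst hw
    have e2 := congrArg (fun v : ℤ × ℤ × ℤ => v.2.1) hw
    have e3 := congrArg (fun v : ℤ × ℤ × ℤ => v.2.2) hw
    simp only [Prod.fst_add, Prod.snd_add, Prod.smul_fst, Prod.smul_snd, smul_eq_mul] at e1 e2 e3
    have gen : ∀ x a b : ℤ, r * x = (r - 1) * a + b →
        (x : ℝ) = (1 - 1 / (r : ℝ)) * a + 1 / (r : ℝ) * b := by
      intro x a b h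
      have h' : (r : ℝ) * x = (r - 1) * a + b := by exact_mod_cast h
      field_simp
      linarith
    refine Prod.ext ?_ (Prod.ext ?_ ?_)
    · simp only [ip, Prod.fst_add, Prod.smul_fst, smul_eq_mul]
      exact gen _ _ _ e1
    · simp only [ip, Prod.fst_add, Prod.snd_add, Prod.smul_fst, Prod.smul_snd, smul_eq_mul]
      exact gen _ _ _ e2
    · simp only [ip, Prod.snd_add, Prod.smul_snd, smul_eq_mul]
      exact gen _ _ _ e3
  rw [key]
  apply hc m1 m3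
  · have : 1 / (r : ℝ) ≤ 1 := by
      rw [div_le_one hr0]
      exact hrR
    linarith
  · positivity
  · ring

private theorem rnf_pm (x y z v₁ v₂ v₃ : ℤ × ℤ × ℤ) (hx : x = v₁ ∨ x = v₂ ∨ x = v₃)
    (hy : y = v₁ ∨ y = v₂ ∨ y = v₃) (hz : z = v₁ ∨ z = v₂ ∨ z = v₃) (hxy : x ≠ y) (hxz : x ≠ z)
    (hyz : y ≠ z) : Pm x y z v₁ v₂ v₃ := by
  rcases hx with h | h | h <;> rcases hy with h' | h' | h' <;> rcases hz with h'' | h'' | h'' <;>
    first
    | exact absurd (h.trans h'.symm) hxy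
    | exact absurd (h.trans h''.symm) hxz
    | exact absurd (h'.trans h''.symm) hyz
    | (unfold Pm; rw [h, h', h'']; simp)

private theorem rnf_pig (x y z t v₁ v₂ v₃ : ℤ × ℤ × ℤ) (hx : x = v₁ ∨ x = v₂ ∨ x = v₃)
    (hy : y = v₁ ∨ y = v₂ ∨ y = v₃) (hz : z = v₁ ∨ z = v₂ ∨ z = v₃)
    (ht : t = v₁ ∨ t = v₂ ∨ t = v₃) (hxy : x ≠ y) (hxz : x ≠ z)
    (hyz : y ≠ z) (hxt : x ≠ t) (hyt : y ≠ t) (hzt : z ≠ t) : False := by
  rcases hx with h | h | h <;> rcases hy with h' | h' | h' <;> rcases hz with h'' | h'' | h'' <;>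
    rcases ht with g | g | g <;>
    first
    | exact absurd (h.trans h'.symm) hxy
    | exact absurd (h.trans h''.symm) hxz
    | exact absurd (h'.trans h''.symm) hyz
    | exact absurd (h.trans g.symm) hxt
    | exact absurd (h'.trans g.symm) hyt
    | exact absurd (h''.trans g.symm) hzt

/-- The determinant of `a, b, x a + y b + q c`. -/
private theorem rnf_det (a b c : ℤ × ℤ × ℤ) (x y q : ℤ) (h : det3 a b c = 1 ∨ det3 a b c = -1)
    (hq : q ≠ 0) : x • a + y • b + q • c ≠ 0 := by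
  intro h0
  have e : det3 a b (x • a + y • b + q • c) = q * det3 a b c := by
    simp only [det3, Prod.fst_add, Prod.snd_add, Prod.smul_fst, Prod.smul_snd, smul_eq_mul]
    ring
  rw [h0] at e
  have e0 : det3 a b 0 = 0 := by simp [det3]
  rw [e0] at e
  rcases mul_eq_zero.1 e.symm with h' | h'
  · exact hq h'
  · rcases h with h | h <;> rw [h] at h' <;> norm_num at h'

private theorem rnf_cop (V : Finset (ℤ × ℤ × ℤ)) (hE : Emp V) (O a b c : ℤ × ℤ × ℤ)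
    (hdet : det3 a b c = 1 ∨ det3 a b c = -1) (y q : ℤ) (hq : 2 ≤ q) (h1 : O + a ∈ V)
    (h3 : O + a + y • b + q • c ∈ V) : IsCoprime y q := by
  rw [Int.isCoprime_iff_gcd_eq_one]
  by_contra hne
  have hg0 : 0 < Int.gcd y q := Int.gcd_pos_of_ne_zero_right _ (by omega)
  have hg2 : 2 ≤ (Int.gcd y q : ℤ) := by omega
  obtain ⟨y', hy'⟩ : (Int.gcd y q : ℤ) ∣ y := Int.gcd_dvd_left _ _
  obtain ⟨q', hq'⟩ : (Int.gcd y q : ℤ) ∣ q := Int.gcd_dvd_right _ _
  generalize (Int.gcd y q : ℤ) = r at hg2 hy' hq'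
  have hq0 : q' ≠ 0 := by
    rintro h
    rw [h, mul_zero] at hq'
    omega
  set w : ℤ × ℤ × ℤ := O + a + y' • b + q' • c with hw
  have hwr : r • w = (r - 1) • (O + a) + (O + a + y • b + q • c) := by
    rw [hw]
    conv_rhs => rw [hy', hq']
    module
  have hw1 : O + a ≠ w := by
    intro h
    apply rnf_det a b c 0 y' q' hdet hq0
    have : w - (O + a) = (0 : ℤ) • a + y' • b + q' • c := by
      rw [hw]
      module
    rw [← this, ← h, sub_self]
  have hw3 : O + a + y • b + q • c ≠ w := by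
    intro h
    apply rnf_det a b c 0 y q hdet (by omega)
    have e : (r - 1) • ((0 : ℤ) • a + y • b + q • c) = 0 := by
      have e1 : r • (O + a + y • b + q • c) = (r - 1) • (O + a) + (O + a + y • b + q • c) := by
        conv_lhs => rw [h]
        exact hwr
      have e2 : (r - 1) • ((0 : ℤ) • a + y • b + q • c) =
          r • (O + a + y • b + q • c) - ((r - 1) • (O + a) + (O + a + y • b + q • c)) := by
        module
      rw [e2, e1, sub_self]
    rcases smul_eq_zero.1 e with h' | h'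
    · omega
    · exact h'
  have hmem : ip w ∈ hull V := rnf_seg V _ _ w h1 h3 r (by omega) hwr
  have hwV : w ∈ V := hE.all w hmem
  exact hE.ext w hwV (rnf_seg (V.erase w) _ _ w (Finset.mem_erase.2 ⟨hw1, h1⟩)
    (Finset.mem_erase.2 ⟨hw3, h3⟩) r (by omega) hwr)

private theorem rnf_core (v₁ v₂ v₃ : ℤ × ℤ × ℤ) (hE : Emp ({0, v₁, v₂, v₃} : Finset (ℤ × ℤ × ℤ)))
    (q : ℤ) (hq : 2 ≤ q) (O a b c : ℤ × ℤ × ℤ)
    (hdet : det3 a b c = 1 ∨ det3 a b c = -1) (y : ℤ)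
    (h0 : O ∈ ({0, v₁, v₂, v₃} : Finset (ℤ × ℤ × ℤ)))
    (h1 : O + a ∈ ({0, v₁, v₂, v₃} : Finset (ℤ × ℤ × ℤ)))
    (h2 : O + b ∈ ({0, v₁, v₂, v₃} : Finset (ℤ × ℤ × ℤ)))
    (h3 : O + a + y • b + q • c ∈ ({0, v₁, v₂, v₃} : Finset (ℤ × ℤ × ℤ))) :
    ∃ (i k l c : ℤ × ℤ × ℤ) (y : ℤ), Pm i k l v₁ v₂ v₃ ∧ IsCoprime y q ∧
      k = i + y • l + q • c := by
  have hcop := rnf_cop _ hE O a b c hdet y q hq h1 h3
  have n01 : O ≠ O + a := by
    intro h
    have ha : a = 0 := by simpa using h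
    rw [ha] at hdet
    simp [det3] at hdet
  have n02 : O ≠ O + b := by
    intro h
    have ha : b = 0 := by simpa using h
    rw [ha] at hdet
    simp [det3] at hdet
  have n12 : O + a ≠ O + b := by
    intro h
    have ha : a = b := by simpa using h
    rw [ha] at hdet
    have : det3 b b c = 0 := by
      simp only [det3]
      ring
    rw [this] at hdet
    omega
  have n03 : O ≠ O + a + y • b + q • c := by
    intro h
    apply rnf_det a b c 1 y q hdet (by omega)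
    have : (1 : ℤ) • a + y • b + q • c = (O + a + y • b + q • c) - O := by module
    rw [this, ← h, sub_self]
  have n13 : O + a ≠ O + a + y • b + q • c := by
    intro h
    apply rnf_det a b c 0 y q hdet (by omega)
    have : (0 : ℤ) • a + y • b + q • c = (O + a + y • b + q • c) - (O + a) := by module
    rw [this, ← h, sub_self]
  have n23 : O + b ≠ O + a + y • b + q • c := by
    intro h
    apply rnf_det a b c 1 (y - 1) q hdet (by omega)
    have : (1 : ℤ) • a + (y - 1) • b + q • c = (O + a + y • b + q • c) - (O + b) := by module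
    rw [this, ← h, sub_self]
  have e1 : O + a + y • b + q • c = (O + a) + y • ((O + b) - O) + q • c := by module
  generalize O + a + y • b + q • c = u₃ at *
  generalize O + a = u₁ at *
  generalize O + b = u₂ at *
  simp only [Finset.mem_insert, Finset.mem_singleton] at h0 h1 h2 h3
  obtain ⟨s, t, hst⟩ := hcop
  rcases h0 with h0 | h0
  · -- `u₀ = 0`
    have g1 : u₁ = v₁ ∨ u₁ = v₂ ∨ u₁ = v₃ := h1.resolve_left (fun h => n01 (h0.trans h.symm))
    have g2 : u₂ = v₁ ∨ u₂ = v₂ ∨ u₂ = v₃ := h2.resolve_left (fun h => n02 (h0.trans h.symm))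
    have g3 : u₃ = v₁ ∨ u₃ = v₂ ∨ u₃ = v₃ := h3.resolve_left (fun h => n03 (h0.trans h.symm))
    refine ⟨u₁, u₃, u₂, c, y, rnf_pm _ _ _ _ _ _ g1 g3 g2 n13 n12 n23.symm, ⟨s, t, hst⟩, ?_⟩
    rw [e1, h0]
    module
  rcases h1 with h1 | h1
  · -- `u₁ = 0`
    have g2 : u₂ = v₁ ∨ u₂ = v₂ ∨ u₂ = v₃ := h2.resolve_left (fun h => n12 (h1.trans h.symm))
    have g3 : u₃ = v₁ ∨ u₃ = v₂ ∨ u₃ = v₃ := h3.resolve_left (fun h => n13 (h1.trans h.symm))
    refine ⟨O, u₂, u₃, t • (u₂ - O) - s • c, s, rnf_pm _ _ _ _ _ _ h0 g2 g3 n02 n03 n23,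
      ⟨y, t, by rw [mul_comm y s]; exact hst⟩, ?_⟩
    have : u₂ = O + (s * y + t * q) • (u₂ - O) := by
      rw [hst, one_smul]
      abel
    rw [e1, h1]
    nth_rewrite 1 [this]
    module
  rcases h2 with h2 | h2
  · -- `u₂ = 0`
    have g3 : u₃ = v₁ ∨ u₃ = v₂ ∨ u₃ = v₃ := h3.resolve_left (fun h => n23 (h2.trans h.symm))
    refine ⟨u₁, u₃, O, c, -y, rnf_pm _ _ _ _ _ _ h1 g3 h0 n13 n01.symm n03.symm,
      ⟨-s, t, by rw [neg_mul_neg]; exact hst⟩, ?_⟩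
    rw [e1, h2]
    module
  rcases h3 with h3 | h3
  · -- `u₃ = 0`
    refine ⟨u₂, O, u₁, t • (O - u₂) + s • c, s, rnf_pm _ _ _ _ _ _ h2 h0 h1 n02.symm n12.symm n01,
      ⟨y, t, by rw [mul_comm y s]; exact hst⟩, ?_⟩
    have h4 : u₁ = y • (O - u₂) - q • c := by
      have : u₁ = (u₁ + y • (u₂ - O) + q • c) + (y • (O - u₂) - q • c) := by module
      rw [this, ← e1, h3, zero_add]
    have : O = u₂ + (s * y + t * q) • (O - u₂) := by
      rw [hst, one_smul]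
      abel
    rw [h4]
    nth_rewrite 1 [this]
    module
  exact (rnf_pig _ _ _ _ _ _ _ h0 h1 h2 h3 n01 n02 n12 n03 n13 n23).elim

theorem p_nf (h1 : T.S_W8n) (_ : T.S_fr1) : S_nf := by
  intro v₁ v₂ v₃ hE hd
  have hqpos : 0 < |det3 v₁ v₂ v₃| := abs_pos.2 hd
  rcases (show |det3 v₁ v₂ v₃| = 1 ∨ 2 ≤ |det3 v₁ v₂ v₃| by omega) with hq | hq
  · refine ⟨v₁, v₂, v₃, v₂ - v₁, 0, Or.inl rfl, ?_, ?_⟩
    · rw [hq]
      exact isCoprime_one_right
    · rw [hq]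
      module
  · have m0 : (0 : ℤ × ℤ × ℤ) ∈ ({0, v₁, v₂, v₃} : Finset (ℤ × ℤ × ℤ)) := by simp
    have m1 : v₁ ∈ ({0, v₁, v₂, v₃} : Finset (ℤ × ℤ × ℤ)) := by simp
    have m2 : v₂ ∈ ({0, v₁, v₂, v₃} : Finset (ℤ × ℤ × ℤ)) := by simp
    have m3 : v₃ ∈ ({0, v₁, v₂, v₃} : Finset (ℤ × ℤ × ℤ)) := by simp
    have hW := h1 _ hE 0 m0 v₁ m1 v₂ m2 v₃ m3
    rw [sub_zero, sub_zero, sub_zero] at hW
    obtain ⟨f, ⟨O, a, b, c, hdet, hf⟩, y, u₀, hu0, u₁, hu1, u₂, hu2, u₃, hu3, f0, f1, f2, f3⟩ :=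
      hW hq
    rw [hf, rnf_fr] at f0 f1 f2 f3
    have f0 := rnf_ip_inj f0
    have f1 := rnf_ip_inj f1
    have f2 := rnf_ip_inj f2
    have f3 := rnf_ip_inj f3
    rw [zero_smul, zero_smul, zero_smul, add_zero, add_zero, add_zero] at f0
    rw [one_smul, zero_smul, zero_smul, add_zero, add_zero] at f1
    rw [zero_smul, one_smul, zero_smul, add_zero, add_zero] at f2
    rw [one_smul] at f3
    rw [← f0] at hu0
    rw [← f1] at hu1
    rw [← f2] at hu2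
    rw [← f3] at hu3
    exact rnf_core v₁ v₂ v₃ hE _ hq O a b c hdet y hu0 hu1 hu2 hu3

end Pool.Agent.Lib.MP_0bc52e_nt.R
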