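import Pool.Agent.Lib.MP_0bc52e_nt.R.StmR

/-!
# MP_0bc52e_nt, part R: [TR numE]
-/

namespace Pool.Agent.Lib.MP_0bc52e_nt.R

open Pool.Agent.Lib.MP_0bc52e_nt.LC Pool.Agent.Lib.MP_0bc52e_nt.T

/-- The residue of `-y a`. -/
private theorem rnume_res {d a : ℤ} (hd : 0 < d) (y : ℤ) :
    ∃ x : ℤ, 0 ≤ d * x - y * a ∧ d * x - y * a < d := by
  refine ⟨-((-(y * a)) / d), ?_⟩
  have h1 := Int.emod_nonneg (-(y * a)) hd.ne'
  have h2 := Int.emod_lt_of_pos (-(y * a)) hd
  have h3 := Int.emod_add_mul_ediv (-(y * a)) d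
  constructor <;> linarith

/-- The two residues add up to `d`. -/
private theorem rnume_sum {d a y x x' : ℤ} (hd : 0 < d) (h1 : 0 < d * x - y * a)
    (h2 : d * x - y * a < d) (h3 : 0 < d * x' - (d - y) * a) (h4 : d * x' - (d - y) * a < d) :
    d * x - y * a + (d * x' - (d - y) * a) = d := by
  have e : d * x - y * a + (d * x' - (d - y) * a) = d * (x + x' - a) := by ring
  rw [e]
  have h5 : 0 < d * (x + x' - a) := by rw [← e]; linarith
  have h6 : d * (x + x' - a) < d * 2 := by rw [← e]; linarith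
  have h7 : 0 < x + x' - a := pos_of_mul_pos_right h5 hd.le
  have h8 : x + x' - a < 2 := lt_of_mul_lt_mul_left h6 hd.le
  have h9 : x + x' - a = 1 := by omega
  rw [h9, mul_one]

theorem p_numE : S_numE := by
  intro d a b hd H
  by_cases hd1 : d = 1
  · subst hd1
    exact ⟨one_dvd _, isCoprime_one_right⟩
  have hd2 : 2 ≤ d := by omega
  -- step 1
  have hcop : IsCoprime b d := by
    rw [Int.isCoprime_iff_gcd_eq_one]
    by_contra hg
    obtain ⟨b', hb'⟩ : ((Int.gcd b d : ℕ) : ℤ) ∣ b := Int.gcd_dvd_left _ _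
    obtain ⟨y, hy⟩ : ((Int.gcd b d : ℕ) : ℤ) ∣ d := Int.gcd_dvd_right _ _
    have hg0 : Int.gcd b d ≠ 0 := by
      intro h0
      rw [Int.gcd_eq_zero_iff] at h0
      omega
    have hg2 : (2 : ℤ) ≤ ((Int.gcd b d : ℕ) : ℤ) := by
      have : 2 ≤ Int.gcd b d := by omega
      exact_mod_cast this
    generalize ((Int.gcd b d : ℕ) : ℤ) = g at hb' hy hg2
    have hy0 : 0 < y := by
      have : 0 < g * y := by rw [← hy]; exact hd
      exact pos_of_mul_pos_right this (by omega)
    have hyd : y < d := by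
      rw [hy]
      nlinarith
    have hdb : d * b' = y * b := by
      rw [hb', hy]
      ring
    obtain ⟨x, hx0, hx1⟩ := rnume_res (a := a) hd y
    obtain ⟨x', hx0', hx1'⟩ := rnume_res (a := a) hd (d - y)
    have k1 := H x y b' hy0 hyd hx0
    have k2 := H x' (d - y) (b - b') (by omega) (by omega) hx0'
    have e1 : d * b' - y * b = 0 := by linarith
    have e2 : d * (b - b') - (d - y) * b = 0 := by linarith
    rw [e1, abs_zero] at k1
    rw [e2, abs_zero] at k2
    have := rnume_sum (a := a) (x := x) (x' := x') (y := y) hd (by linarith) hx1 (by linarith) hx1'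
    linarith
  refine ⟨?_, hcop⟩
  obtain ⟨u, v, huv⟩ := hcop
  have hy0 : 0 ≤ u % d := Int.emod_nonneg u hd.ne'
  have hy1 : u % d < d := Int.emod_lt_of_pos u hd
  have hq := Int.emod_add_mul_ediv u d
  have hyb : u % d * b + d * (u / d * b + v) = 1 := by
    have : u % d = u - d * (u / d) := by linarith
    rw [this]
    linarith
  generalize u % d = y at hy0 hy1 hyb
  generalize u / d * b + v = t at hyb
  have hy0' : 0 < y := by
    rcases hy0.lt_or_eq with h | h
    · exact h
    · exfalso
      rw [← h, zero_mul, zero_add] at hyb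
      have : d ∣ 1 := ⟨t, hyb.symm⟩
      have := Int.le_of_dvd one_pos this
      omega
  obtain ⟨x, hx0, hx1⟩ := rnume_res (a := a) hd y
  obtain ⟨x', hx0', hx1'⟩ := rnume_res (a := a) hd (d - y)
  have k1 := H x y (-t) hy0' hy1 hx0
  have k2 := H x' (d - y) (b + t) (by omega) (by omega) hx0'
  have e1 : d * (-t) - y * b = -1 := by linarith
  have e2 : d * (b + t) - (d - y) * b = 1 := by linarith
  rw [e1, abs_neg, abs_one] at k1
  rw [e2, abs_one] at k2
  have hs := rnume_sum (a := a) (x := x) (x' := x') (y := y) hd (by linarith) hx1 (by linarith) hx1'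
  have hr : d * x - y * a = d - y := by
    have h1 : d - y ≤ d * x - y * a := by
      have := Int.lt_add_one_iff.1 (show d - y < d * x - y * a + 1 by linarith)
      exact this
    have h2 : y ≤ d * x' - (d - y) * a := by
      have := Int.lt_add_one_iff.1 (show y < d * x' - (d - y) * a + 1 by linarith)
      exact this
    linarith
  have hdvd : d ∣ y * (a - 1) := ⟨x - 1, by linarith⟩
  have hyd : IsCoprime d y := ⟨t, b, by linarith⟩
  exact hyd.dvd_of_dvd_mul_left hdvd

end Pool.Agent.Lib.MP_0bc52e_nt.R
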