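import Pool.Agent.Lib.MP_0bc52e_nt.R.StmR

namespace Pool.Agent.Lib.MP_0bc52e_nt.R

open Pool.Agent.Lib.MP_0bc52e_nt.LC Pool.Agent.Lib.MP_0bc52e_nt.T

/-- the point of `P` over `(a', b')` -/
private lemma rprm_pt (P : Set (ℝ × ℝ × ℝ)) (hP : Convex ℝ P) (h1 : ip (0, 0, 1) ∈ P)
    (h2 : ip (0, 0, -1) ∈ P) (m a b c z : ℤ) (hm : 2 ≤ m) (hs : ip (m * a, m * b, c) ∈ P)
    (hz1 : c - (m - 1) ≤ m * z) (hz2 : m * z ≤ c + (m - 1)) : ip (a, b, z) ∈ P := by
  have hm' : (2 : ℝ) ≤ m := by exact_mod_cast hm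
  have hm0 : (0 : ℝ) < m := by linarith
  have hm1 : (0 : ℝ) < m - 1 := by linarith
  have hz1' : (c : ℝ) - (m - 1) ≤ m * z := by exact_mod_cast hz1
  have hz2' : (m : ℝ) * z ≤ c + (m - 1) := by exact_mod_cast hz2
  set θ : ℝ := ((m : ℝ) * z - c) / (m - 1) with hθ
  have hθ1 : θ ≤ 1 := by rw [hθ, div_le_one hm1]; linarith
  have hθ2 : -1 ≤ θ := by rw [hθ, le_div_iff₀ hm1]; linarith
  have h3 : ((0 : ℝ), (0 : ℝ), θ) ∈ P := by
    have h4 := hP h1 h2 (show 0 ≤ (1 + θ) / 2 by linarith) (show 0 ≤ (1 - θ) / 2 by linarith)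
      (by ring)
    have e : ((1 + θ) / 2) • ip (0, 0, 1) + ((1 - θ) / 2) • ip (0, 0, -1) =
        ((0 : ℝ), (0 : ℝ), θ) := by
      simp only [ip, Prod.smul_mk, Prod.mk_add_mk, smul_eq_mul]
      refine Prod.ext ?_ (Prod.ext ?_ ?_)
      · simp
      · simp
      · push_cast; ring
    rw [e] at h4
    exact h4
  have h5 := hP hs h3 (show 0 ≤ 1 / (m : ℝ) by positivity)
    (show 0 ≤ 1 - 1 / (m : ℝ) by rw [sub_nonneg, div_le_one hm0]; linarith) (by ring)
  have e : (1 / (m : ℝ)) • ip (m * a, m * b, c) + (1 - 1 / (m : ℝ)) • ((0 : ℝ), (0 : ℝ), θ) =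
      ip (a, b, z) := by
    simp only [ip, Prod.smul_mk, Prod.mk_add_mk, smul_eq_mul, mul_zero, add_zero]
    have hmne : (m : ℝ) ≠ 0 := hm0.ne'
    have hm1ne : (m : ℝ) - 1 ≠ 0 := hm1.ne'
    refine Prod.ext ?_ (Prod.ext ?_ ?_)
    · show 1 / (m : ℝ) * ((m * a : ℤ) : ℝ) = (a : ℝ)
      push_cast; field_simp
    · show 1 / (m : ℝ) * ((m * b : ℤ) : ℝ) = (b : ℝ)
      push_cast; field_simp
    · show 1 / (m : ℝ) * (c : ℝ) + (1 - 1 / (m : ℝ)) * θ = (z : ℝ)
      rw [hθ]; field_simp; ring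
  rw [e] at h5
  exact h5

theorem p_prm (h1 : S_tr1) : S_prm := by
  intro P s₁ s₂ s₃ d₁ d₂ d₃ hP hu hd hTR hMn
  obtain ⟨hs1, hs2, hs3, hd1, hd2, hd3, hp1, hp2, hp3⟩ := id hTR
  obtain ⟨a, b, c⟩ := s₁
  have hab : ¬ (a = 0 ∧ b = 0) := by
    rintro ⟨rfl, rfl⟩
    simp [det2, pr] at hd3
    omega
  set m : ℕ := Int.gcd a b with hm
  have hm0 : 0 < m := by
    rcases Nat.eq_zero_or_pos m with h | h
    · exact absurd (Int.gcd_eq_zero_iff.mp h) hab
    · exact h
  obtain ⟨a', ha'⟩ : (m : ℤ) ∣ a := Int.gcd_dvd_left a b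
  obtain ⟨b', hb'⟩ : (m : ℤ) ∣ b := Int.gcd_dvd_right a b
  have hbez : (m : ℤ) = a * Int.gcdA a b + b * Int.gcdB a b := Int.gcd_eq_gcd_ab a b
  rcases Nat.lt_or_ge 1 m with hm2 | hm1
  · exfalso
    have hmz : (2 : ℤ) ≤ m := by exact_mod_cast hm2
    have hq : (m : ℤ) * det2 (a', b') (pr s₂) = d₃ := by
      rw [hd3]
      simp only [det2, pr]
      rw [ha', hb']
      ring
    have hq0 : 0 < det2 (a', b') (pr s₂) := by
      by_contra h
      push Not at h
      nlinarith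
    obtain ⟨z, hz⟩ : ∃ z : ℤ, z = (c + (m - 1)) / m := ⟨_, rfl⟩
    have hz2 : (m : ℤ) * z ≤ c + (m - 1) := by
      rw [hz]; exact Int.mul_ediv_self_le (by omega)
    have hz1 : c - (m - 1) ≤ (m : ℤ) * z := by
      have h := Int.lt_mul_ediv_self_add (x := c + ((m : ℤ) - 1)) (k := (m : ℤ)) (by omega)
      rw [← hz] at h
      linarith
    have hX : ip (a', b', z) ∈ P := by
      refine rprm_pt P hP hu hd m a' b' c z hmz ?_ hz1 hz2
      rw [← ha', ← hb']
      exact hs1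
    have hdet : det2 (pr (a, b, c)) (pr (a', b', z)) = 0 := by
      simp only [det2, pr]
      rw [ha', hb']
      ring
    have hle : det2 (a', b') (pr s₂) ≤ d₃ := by nlinarith
    have hpX : pr (a', b', z) = (a', b') := rfl
    rcases h1 P (a, b, c) s₂ s₃ d₁ d₂ d₃ hTR hMn (a', b', z) hX (by rw [hpX]; exact hq0.le)
      (by rw [hdet]) (by rw [hdet, hpX]; linarith) with h | h | h
    · rw [hpX] at h
      rw [h] at hq0
      simp [det2] at hq0
    · rw [hpX] at h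
      have e1 : a' = a := congrArg Prod.fst h
      have e2 : b' = b := congrArg Prod.snd h
      apply hab
      constructor
      · have : (m - 1 : ℤ) * a = 0 := by
          have := ha'; rw [e1] at this; linarith
        rcases mul_eq_zero.mp this with h' | h'
        · omega
        · exact h'
      · have : (m - 1 : ℤ) * b = 0 := by
          have := hb'; rw [e2] at this; linarith
        rcases mul_eq_zero.mp this with h' | h'
        · omega
        · exact h'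
    · rw [hpX] at h
      rw [← h] at hq0
      simp only [det2] at hq0
      linarith
  · have hm1' : m = 1 := by omega
    refine ⟨(-Int.gcdB a b, Int.gcdA a b), ?_⟩
    simp only [det2, pr]
    rw [hm1'] at hbez
    push_cast at hbez
    linarith

end Pool.Agent.Lib.MP_0bc52e_nt.R
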