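import Pool.Agent.Lib.MP_0bc52e_nt.R.StmR

/-!
# MP_0bc52e_nt, part R : [rA]
-/

set_option autoImplicit false

open scoped Pointwise

namespace Pool.Agent.Lib.MP_0bc52e_nt.R

open Pool.Agent.Lib.MP_0bc52e_nt.LC Pool.Agent.Lib.MP_0bc52e_nt.T

theorem p_rA (h1 : S_rC2) (h2 : S_rfr) (h3 : T.S_prim) (_h4 : T.S_fr1) (h5 : T.S_fr2) : S_rA := by
  intro P hP hI hO
  obtain ⟨t, ht0, ht1, ht2⟩ := hO
  obtain ⟨a, b, c, k, hk, hdet, rfl⟩ := h3 t ht0
  have hf : IsFr (fr 0 a b c) := ⟨0, a, b, c, Or.inl hdet, fun v => rfl⟩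
  obtain ⟨-, hP', -, -, hI', -, -⟩ := h5 _ hf P
  have hf0 : fr 0 a b c 0 = 0 := by simp [fr]
  have hI2 : Inn (fr 0 a b c ⁻¹' P) 0 := by
    rw [hI', hf0]
    exact hI
  have hPP := hP' hP
  have hconv : Convex ℝ (fr 0 a b c ⁻¹' P) := by
    obtain ⟨V, hV⟩ := id hPP
    rw [hV]
    exact convex_convexHull ℝ _
  have hk1 : ip (0, 0, k) ∈ fr 0 a b c ⁻¹' P := by
    show fr 0 a b c (ip (0, 0, k)) ∈ P
    have : fr 0 a b c (ip (0, 0, k)) = ip (k • c) := by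
      simp [fr, ip]
    rw [this]
    exact ht1
  have hk2 : ip (0, 0, -k) ∈ fr 0 a b c ⁻¹' P := by
    show fr 0 a b c (ip (0, 0, -k)) ∈ P
    have : fr 0 a b c (ip (0, 0, -k)) = ip (-(k • c)) := by
      simp [fr, ip]
    rw [this]
    exact ht2
  have hk' : (1 : ℝ) ≤ k := by exact_mod_cast hk
  have hk0 : (0 : ℝ) < k := by linarith
  have hseg : ∀ s : ℝ, -1 ≤ s → s ≤ 1 → ((0 : ℝ), (0 : ℝ), s) ∈ fr 0 a b c ⁻¹' P := by
    intro s hs1 hs2
    have h1 : 0 ≤ (k + s) / (2 * k) := div_nonneg (by linarith) (by linarith)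
    have h2 : 0 ≤ (k - s) / (2 * k) := div_nonneg (by linarith) (by linarith)
    have h3 : (k + s) / (2 * k) + (k - s) / (2 * k) = 1 := by
      field_simp
      ring
    have h4 := hconv hk1 hk2 h1 h2 h3
    have h5 : ((k + s) / (2 * k)) • ip (0, 0, k) + ((k - s) / (2 * k)) • ip (0, 0, -k) =
        ((0 : ℝ), (0 : ℝ), s) := by
      refine Prod.ext ?_ (Prod.ext ?_ ?_)
      · simp [ip]
      · simp [ip]
      · simp only [ip, Prod.snd_add, Prod.smul_snd, smul_eq_mul]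
        push_cast
        field_simp
        ring
    rw [h5] at h4
    exact h4
  refine h2 _ P hf (h1 _ hPP hI2 ?_ ?_)
  · have := hseg 1 (by norm_num) le_rfl
    simpa [ip] using this
  · have := hseg (-1) le_rfl (by norm_num)
    simpa [ip] using this

end Pool.Agent.Lib.MP_0bc52e_nt.R
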