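import Pool.Agent.Lib.MP_0bc52e_nt.R.StmR

/-!
# MP_0bc52e_nt, [TR rC]: tetrahedra
-/

set_option autoImplicit false

namespace Pool.Agent.Lib.MP_0bc52e_nt.R

open Pool.Agent.Lib.MP_0bc52e_nt.LC Pool.Agent.Lib.MP_0bc52e_nt.T

private lemma rrc_one {w₀ w₁ w₂ w₃ : ℤ} (h : (w₀, w₁, w₂, w₃) ∈ L7)
    (hs : w₀ + w₁ + w₂ + w₃ < 11) : w₀ = 1 := by
  unfold L7 at h
  simp only [List.mem_cons, Prod.mk.injEq, List.not_mem_nil, or_false] at h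
  omega

theorem p_rC (h1 : S_teM) (h2 : S_sort) (h3 : S_WT7) (h4 : S_idx) (h5 : S_emp4) (h6 : S_nf)
    (h7 : S_exc) (h8 : S_ix1) (h9 : S_ix5) : S_rC := by
  intro P hP ho ht hq
  obtain ⟨a₀, a₁, a₂, a₃, b₀, b₁, b₂, b₃, m, hTe', hIn', hFl'⟩ := h1 P hP ho ht hq
  obtain ⟨v₀, v₁, v₂, v₃, w₀, w₁, w₂, w₃, hTe, hIn, hFl, l1, l2, l3⟩ :=
    h2 P a₀ a₁ a₂ a₃ b₀ b₁ b₂ b₃ m hTe' hIn' hFl'
  have hL := h3 w₀ w₁ w₂ w₃ hTe.h₀ l1 l2 l3 hFl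
  obtain ⟨hm6, hm1⟩ := h4 v₀ v₁ v₂ v₃ w₀ w₁ w₂ w₃ m hTe hL
  by_cases hm : m = 1
  · subst hm
    exact h8 P v₀ v₁ v₂ v₃ w₀ w₁ w₂ w₃ hTe hIn hL
  · have hm0 := hTe.hm
    have hs : w₀ + w₁ + w₂ + w₃ < 11 := by
      by_contra hc
      exact hm (hm1 (by omega))
    have hw := rrc_one hL hs
    have hd : |det3 v₁ v₂ v₃| = m := by
      rw [hTe.d₀, hw, mul_one]
    have hd0 : det3 v₁ v₂ v₃ ≠ 0 := by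
      intro h0
      rw [h0, abs_zero] at hd
      omega
    obtain ⟨i, k, l, c, y, hpm, hcop, hk⟩ :=
      h6 v₁ v₂ v₃ (h5 v₀ v₁ v₂ v₃ w₀ w₁ w₂ w₃ m hTe) hd0
    rw [hd] at hcop hk
    obtain ⟨e1, e2, e3, e4, hy⟩ := h7 v₀ v₁ v₂ v₃ i k l c w₀ w₁ w₂ w₃ m y hTe hL hw
      (by omega) hm6 hpm hcop hk
    subst hw e1 e2 e3 e4
    exact h9 P v₀ v₁ v₂ v₃ i k l c y hTe hIn hpm hk hy

end Pool.Agent.Lib.MP_0bc52e_nt.R
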