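import Pool.Agent.Lib.MP_0bc52e_nt.R.StmR

/-!
Piece rC2: a chord of length two through the inner point, along the third axis.
-/

namespace Pool.Agent.Lib.MP_0bc52e_nt.R

open Pool.Agent.Lib.MP_0bc52e_nt.LC Pool.Agent.Lib.MP_0bc52e_nt.T

private theorem rrc2_ex (h7 : T.S_circ2) {P : Set (ℝ × ℝ × ℝ)} (hP : IsLP3 P) (hI : Inn P 0)
    (hOp : ¬ Op P) : ∃ s₁ s₂ s₃ d₁ d₂ d₃, TR P s₁ s₂ s₃ d₁ d₂ d₃ := by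
  classical
  obtain ⟨V, hV⟩ := id hP
  have hmem : ∀ v ∈ V, ip v ∈ P := by
    intro v hv
    rw [hV]
    exact subset_convexHull ℝ _ ⟨v, hv, rfl⟩
  let q : (ℝ × ℝ × ℝ) →ₗ[ℝ] (ℝ × ℝ) :=
    (LinearMap.fst ℝ ℝ (ℝ × ℝ)).prod ((LinearMap.fst ℝ ℝ ℝ).comp (LinearMap.snd ℝ ℝ (ℝ × ℝ)))
  have hq : ∀ v : ℝ × ℝ × ℝ, q v = (v.1, v.2.1) := fun v => rfl
  have hproj : ∀ d : ℝ × ℝ, ∃ ε : ℝ, 0 < ε ∧ ε • d ∈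
      convexHull ℝ (ip2 '' ((V.image pr : Finset (ℤ × ℤ)) : Set (ℤ × ℤ))) := by
    intro d
    obtain ⟨ε, hε, hd⟩ := hI (d.1, d.2, 0)
    refine ⟨ε, hε, ?_⟩
    have e1 : ip2 '' ((V.image pr : Finset (ℤ × ℤ)) : Set (ℤ × ℤ)) =
        q '' (ip '' (V : Set (ℤ × ℤ × ℤ))) := by
      ext w
      constructor
      · rintro ⟨u, hu, rfl⟩
        rw [Finset.mem_coe, Finset.mem_image] at hu
        obtain ⟨v, hv, rfl⟩ := hu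
        exact ⟨ip v, ⟨v, hv, rfl⟩, rfl⟩
      · rintro ⟨_, ⟨v, hv, rfl⟩, rfl⟩
        exact ⟨pr v, by rw [Finset.mem_coe]; exact Finset.mem_image_of_mem _ hv, rfl⟩
    rw [e1, ← LinearMap.image_convexHull, ← hV]
    refine ⟨_, hd, ?_⟩
    rw [hq, zero_add]
    rfl
  rcases h7 _ hproj with ⟨u, hu, u', hu', hu0, hdet, hin⟩ | ⟨u₁, hu₁, u₂, hu₂, u₃, hu₃, h12, h23, h31⟩
  · rw [Finset.mem_image] at hu hu'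
    obtain ⟨v, hv, rfl⟩ := hu
    obtain ⟨v', hv', rfl⟩ := hu'
    exact (hOp ⟨v, v', hmem v hv, hmem v' hv', hu0, hdet, hin⟩).elim
  · rw [Finset.mem_image] at hu₁ hu₂ hu₃
    obtain ⟨v₁, hv₁, rfl⟩ := hu₁
    obtain ⟨v₂, hv₂, rfl⟩ := hu₂
    obtain ⟨v₃, hv₃, rfl⟩ := hu₃
    exact ⟨v₁, v₂, v₃, _, _, _, hmem _ hv₁, hmem _ hv₂, hmem _ hv₃, rfl, rfl, rfl, h23, h31, h12⟩

private theorem rrc2_min {P : Set (ℝ × ℝ × ℝ)} (hOp : ¬ Op P)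
    (hex : ∃ s₁ s₂ s₃ d₁ d₂ d₃, TR P s₁ s₂ s₃ d₁ d₂ d₃) :
    ∃ s₁ s₂ s₃ d₁ d₂ d₃, TR P s₁ s₂ s₃ d₁ d₂ d₃ ∧ Mn P (d₁ + d₂ + d₃) := by
  classical
  have hN : ∃ n : ℕ, ∃ s₁ s₂ s₃ d₁ d₂ d₃, TR P s₁ s₂ s₃ d₁ d₂ d₃ ∧ (d₁ + d₂ + d₃).toNat = n := by
    obtain ⟨s₁, s₂, s₃, d₁, d₂, d₃, h⟩ := hex
    exact ⟨_, s₁, s₂, s₃, d₁, d₂, d₃, h, rfl⟩
  obtain ⟨s₁, s₂, s₃, d₁, d₂, d₃, h, hn⟩ := Nat.find_spec hN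
  refine ⟨s₁, s₂, s₃, d₁, d₂, d₃, h, hOp, ?_⟩
  intro t₁ t₂ t₃ e₁ e₂ e₃ ht
  have h1 := Nat.find_min' hN ⟨t₁, t₂, t₃, e₁, e₂, e₃, ht, rfl⟩
  rw [← hn] at h1
  obtain ⟨-, -, -, -, -, -, x1, x2, x3⟩ := id h
  obtain ⟨-, -, -, -, -, -, y1, y2, y3⟩ := id ht
  omega

private theorem rrc2_cyc {P : Set (ℝ × ℝ × ℝ)} {s₁ s₂ s₃ : ℤ × ℤ × ℤ} {d₁ d₂ d₃ : ℤ}
    (h : TR P s₁ s₂ s₃ d₁ d₂ d₃) : TR P s₂ s₃ s₁ d₂ d₃ d₁ := by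
  obtain ⟨a, b, c, e, f, g, x, y, z⟩ := h
  exact ⟨b, c, a, f, g, e, y, z, x⟩

private theorem rrc2_cop {σ n z z' d : ℤ} (hσ : σ = 1 ∨ σ = -1) (h : IsCoprime (z - z') d) :
    IsCoprime ((σ * z - n) - (σ * z' - n)) d := by
  rcases hσ with rfl | rfl
  · have : (1 * z - n) - (1 * z' - n) = z - z' := by ring
    rw [this]
    exact h
  · have : (-1 * z - n) - (-1 * z' - n) = -(z - z') := by ring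
    rw [this]
    exact h.neg_left

theorem p_rC2 (h1 : S_OpR) (h2 : S_rB) (h3 : S_edge) (h4 : S_cent) (h5 : S_beta) (h6 : S_rfr)
    (h7 : T.S_circ2) (_h8 : T.S_fr2) : S_rC2 := by
  intro P hP hI hp hm
  by_cases hOp : Op P
  · exact h1 P hP hI hp hm hOp
  have hconv : Convex ℝ P := by
    obtain ⟨V, hV⟩ := id hP
    rw [hV]
    exact convex_convexHull ℝ _
  obtain ⟨s₁, s₂, s₃, d₁, d₂, d₃, hT, hM⟩ := rrc2_min hOp (rrc2_ex h7 hP hI hOp)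
  have hT2 := rrc2_cyc hT
  have hT3 := rrc2_cyc hT2
  have hM2 : Mn P (d₂ + d₃ + d₁) := by
    have : d₂ + d₃ + d₁ = d₁ + d₂ + d₃ := by ring
    rw [this]
    exact hM
  have hM3 : Mn P (d₃ + d₁ + d₂) := by
    have : d₃ + d₁ + d₂ = d₁ + d₂ + d₃ := by ring
    rw [this]
    exact hM
  obtain ⟨⟨e₃, he₃⟩, hc₃⟩ := h3 P s₁ s₂ s₃ d₁ d₂ d₃ hconv hp hm hT hM
  obtain ⟨⟨e₁, he₁⟩, hc₁⟩ := h3 P s₂ s₃ s₁ d₂ d₃ d₁ hconv hp hm hT2 hM2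
  obtain ⟨⟨e₂, he₂⟩, hc₂⟩ := h3 P s₃ s₁ s₂ d₃ d₁ d₂ hconv hp hm hT3 hM3
  by_cases hH : d₁ * s₁.2.2 + d₂ * s₂.2.2 + d₃ * s₃.2.2 = 0
  · refine h2 P hP hI ?_
    obtain ⟨m₁, m₂, m₃, g₁, g₂, g₃, p₁, p₂, p₃⟩ := id hT
    refine ⟨s₁, s₂, s₃, (d₁ : ℝ), (d₂ : ℝ), (d₃ : ℝ), by exact_mod_cast p₁, by exact_mod_cast p₂,
      by exact_mod_cast p₃, m₁, m₂, m₃, ?_, ?_⟩
    · intro h
      have h' : (cr s₁ s₂).2.2 = 0 := by rw [h]; rfl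
      simp only [cr] at h'
      simp only [det2, pr] at g₃
      omega
    · have k1 : d₁ * s₁.1 + d₂ * s₂.1 + d₃ * s₃.1 = 0 := by
        rw [g₁, g₂, g₃]
        simp only [det2, pr]
        ring
      have k2 : d₁ * s₁.2.1 + d₂ * s₂.2.1 + d₃ * s₃.2.1 = 0 := by
        rw [g₁, g₂, g₃]
        simp only [det2, pr]
        ring
      refine Prod.ext ?_ (Prod.ext ?_ ?_)
      · simp only [ip, Prod.fst_add, Prod.smul_fst, smul_eq_mul, Prod.fst_zero]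
        exact_mod_cast k1
      · simp only [ip, Prod.fst_add, Prod.snd_add, Prod.smul_fst, Prod.smul_snd, smul_eq_mul,
          Prod.fst_zero, Prod.snd_zero]
        exact_mod_cast k2
      · simp only [ip, Prod.snd_add, Prod.smul_snd, smul_eq_mul, Prod.snd_zero]
        exact_mod_cast hH
  · obtain ⟨f, hf, σ, n, hσ, hp', hm', hT', hlo, hhi⟩ := h4 P s₁ s₂ s₃ d₁ d₂ d₃ hconv hp hm hT hH
    refine h6 f P hf ?_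
    exact h5 (f ⁻¹' P) (s₁.1, s₁.2.1, σ * s₁.2.2 - n) (s₂.1, s₂.2.1, σ * s₂.2.2 - n)
      (s₃.1, s₃.2.1, σ * s₃.2.2 - n) d₁ d₂ d₃ e₁ e₂ e₃ hp' hm' hT' he₃ he₁ he₂
      (rrc2_cop hσ hc₃) (rrc2_cop hσ hc₁) (rrc2_cop hσ hc₂) hlo hhi

end Pool.Agent.Lib.MP_0bc52e_nt.R
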