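import Pool.Agent.Lib.MP_0bc52e_nt.R.StmR

/-!
# MP_0bc52e_nt, part R: piece rbase
-/

namespace Pool.Agent.Lib.MP_0bc52e_nt.R

open Pool.Agent.Lib.MP_0bc52e_nt.LC Pool.Agent.Lib.MP_0bc52e_nt.T

private theorem rrbase_conv (O a b c : ℤ × ℤ × ℤ) {P : Set (ℝ × ℝ × ℝ)} (hP : Convex ℝ P) :
    Convex ℝ (fr O a b c ⁻¹' P) := by
  intro x hx y hy s t hs ht hst
  have h := hP hx hy hs ht hst
  rw [Set.mem_preimage]
  convert h using 1
  simp only [fr, Prod.fst_add, Prod.snd_add, Prod.smul_fst, Prod.smul_snd, smul_eq_mul,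
    Prod.smul_mk, Prod.mk_add_mk]
  ext
  · simp only
    linear_combination (-(O.1 : ℝ)) * hst
  · simp only
    linear_combination (-(O.2.1 : ℝ)) * hst
  · simp only
    linear_combination (-(O.2.2 : ℝ)) * hst

theorem p_rbase (h1 : S_side) (h2 : T.S_J2) : S_rbase := by
  intro P hP hJ hup hdn
  obtain ⟨v1, hv1, hz1⟩ := hup
  obtain ⟨v2, hv2, hz2⟩ := hdn
  have hQ : Convex ℝ {v : ℝ × ℝ | (v.1, v.2, (0 : ℝ)) ∈ P} := by
    intro v hv w hw s t hs ht hst
    have h := hP hv hw hs ht hst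
    simp only [Set.mem_ofPred_eq]
    convert h using 1
    ext <;> simp
  obtain ⟨g, ⟨a, b, c, d, e, f, hD, hg⟩, hcases⟩ := h2 _ hQ hJ
  set D : ℤ := a * d - b * c with hDdef
  have hD2 : D * D = 1 := by rcases hD with h | h <;> rw [h] <;> norm_num
  have hD2r : ((a : ℝ) * d - b * c) * (a * d - b * c) = 1 := by
    have h : ((D * D : ℤ) : ℝ) = 1 := by rw [hD2]; norm_num
    rw [hDdef] at h
    push_cast at h
    exact h
  set F := fr (D * (b * f - d * e), D * (c * e - a * f), 0) (D * d, -(D * c), 0)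
    (-(D * b), D * a, 0) (0, 0, 1) with hF
  have hFr : IsFr F := by
    refine ⟨_, _, _, _, ?_, fun v => rfl⟩
    have h : det3 (D * d, -(D * c), 0) (-(D * b), D * a, 0) (0, 0, 1) = D := by
      simp only [det3]
      linear_combination (a * d - b * c) * hD2 + hDdef * (-1) * 1
    rw [h]
    exact hD
  have hFg : ∀ x y z : ℝ, F ((g (x, y)).1, (g (x, y)).2, z) = (x, y, z) := by
    intro x y z
    rw [hF, hg]
    simp only [fr, hDdef]
    push_cast
    ext
    · simp only
      linear_combination x * hD2r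
    · simp only
      linear_combination y * hD2r
    · simp only
      ring
  have hconv : Convex ℝ (F ⁻¹' P) := rrbase_conv _ _ _ _ hP
  have hmem : ∀ w ∈ g '' {v : ℝ × ℝ | (v.1, v.2, (0 : ℝ)) ∈ P}, (w.1, w.2, (0 : ℝ)) ∈ F ⁻¹' P := by
    rintro _ ⟨v, hv, rfl⟩
    rw [Set.mem_preimage, show g v = g (v.1, v.2) from rfl, hFg]
    exact hv
  -- integer points
  have hint : ∀ v : ℤ × ℤ × ℤ, ip v ∈ P → ∃ v' : ℤ × ℤ × ℤ, ip v' ∈ F ⁻¹' P ∧ v'.2.2 = v.2.2 := by
    intro v hv
    refine ⟨(a * v.1 + b * v.2.1 + e, c * v.1 + d * v.2.1 + f, v.2.2), ?_, rfl⟩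
    have h := hFg v.1 v.2.1 v.2.2
    rw [hg] at h
    have h3 : ip (a * v.1 + b * v.2.1 + e, c * v.1 + d * v.2.1 + f, v.2.2) =
        ((a : ℝ) * v.1 + b * v.2.1 + e, (c : ℝ) * v.1 + d * v.2.1 + f, (v.2.2 : ℝ)) := by
      simp only [ip]
      push_cast
      rfl
    rw [Set.mem_preimage, h3]
    rw [h]
    exact hv
  obtain ⟨w1, hw1, hw1z⟩ := hint v1 hv1
  obtain ⟨w2, hw2, hw2z⟩ := hint v2 hv2
  have main : ∀ bb : Fin 3, (∀ v ∈ Base bb, ip v ∈ F ⁻¹' P) → Root P := by
    intro bb hbb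
    obtain ⟨x, hx1, hx2⟩ := h1 (F ⁻¹' P) bb 1 hconv hbb (Or.inl rfl) ⟨w1, hw1, by rw [hw1z]; omega⟩
    obtain ⟨y, hy1, hy2⟩ := h1 (F ⁻¹' P) bb (-1) hconv hbb (Or.inr rfl) ⟨w2, hw2, by rw [hw2z]; omega⟩
    exact ⟨F, hFr, Or.inr (Or.inr ⟨bb, hbb, ⟨x, hx1, hx2⟩, y, hy1, hy2⟩)⟩
  have hip : ∀ x y : ℤ, ip (x, y, 0) = ((x : ℝ), (y : ℝ), (0 : ℝ)) := by
    intro x y
    simp only [ip, Int.cast_zero]
  rcases hcases with h | h | h
  · refine main 0 ?_
    intro v hv
    simp only [Base, List.mem_cons, List.not_mem_nil, or_false] at hv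
    rcases hv with rfl | rfl | rfl
    · rw [hip]
      exact_mod_cast hmem _ h.1
    · rw [hip]
      exact_mod_cast hmem _ h.2.1
    · rw [hip]
      have := hmem _ h.2.2
      push_cast
      exact this
  · refine main 2 ?_
    intro v hv
    simp only [Base, List.mem_cons, List.not_mem_nil, or_false] at hv
    rcases hv with rfl | rfl | rfl | rfl
    · rw [hip]
      have := hmem _ h.1
      push_cast
      exact this
    · rw [hip]
      have := hmem _ h.2.1
      push_cast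
      exact this
    · rw [hip]
      have := hmem _ h.2.2.1
      push_cast
      exact this
    · rw [hip]
      have := hmem _ h.2.2.2
      push_cast
      exact this
  · refine main 1 ?_
    intro v hv
    simp only [Base, List.mem_cons, List.not_mem_nil, or_false] at hv
    rcases hv with rfl | rfl | rfl
    · rw [hip]
      have := hmem _ h.1
      push_cast
      exact this
    · rw [hip]
      have := hmem _ h.2.1
      push_cast
      exact this
    · rw [hip]
      have := hmem _ h.2.2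
      push_cast
      exact this

end Pool.Agent.Lib.MP_0bc52e_nt.R
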