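import Pool.Agent.Lib.MP_0bc52e_nt.R.StmR

namespace Pool.Agent.Lib.MP_0bc52e_nt.R

open Pool.Agent.Lib.MP_0bc52e_nt.LC Pool.Agent.Lib.MP_0bc52e_nt.T

private lemma rrefl_key (p q r e f : ℤ × ℤ) (a b c : ℤ) (ha : a = det2 q r) (hb : b = det2 r p)
    (hc : c = det2 p q) (h1 : q = p + c • e) (h2 : p = r + b • f) : b * c ∣ a + b + c := by
  refine ⟨det2 f e, ?_⟩
  have h11 : q.1 - p.1 = c * e.1 := by
    have := congrArg Prod.fst h1
    simp only [Prod.fst_add, Prod.smul_fst, smul_eq_mul] at this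
    linarith
  have h12 : q.2 - p.2 = c * e.2 := by
    have := congrArg Prod.snd h1
    simp only [Prod.snd_add, Prod.smul_snd, smul_eq_mul] at this
    linarith
  have h21 : p.1 - r.1 = b * f.1 := by
    have := congrArg Prod.fst h2
    simp only [Prod.fst_add, Prod.smul_fst, smul_eq_mul] at this
    linarith
  have h22 : p.2 - r.2 = b * f.2 := by
    have := congrArg Prod.snd h2
    simp only [Prod.snd_add, Prod.smul_snd, smul_eq_mul] at this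
    linarith
  have e1 : b * c * det2 f e = (b * f.1) * (c * e.2) - (b * f.2) * (c * e.1) := by
    simp only [det2]; ring
  rw [e1, ← h11, ← h12, ← h21, ← h22]
  simp only [det2] at ha hb hc
  linear_combination ha + hb + hc

theorem p_refl : S_refl := by
  intro q₁ q₂ q₃ e₁ e₂ e₃ d₁ d₂ d₃ h1 h2 h3 h4 h5 h6
  refine ⟨rrefl_key q₁ q₂ q₃ e₃ e₂ d₁ d₂ d₃ h1 h2 h3 h4 h6, ?_, ?_⟩
  · have := rrefl_key q₂ q₃ q₁ e₁ e₃ d₂ d₃ d₁ h2 h3 h1 h5 h4
    rwa [show d₁ + d₂ + d₃ = d₂ + d₃ + d₁ by ring]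
  · have := rrefl_key q₃ q₁ q₂ e₂ e₁ d₃ d₁ d₂ h3 h1 h2 h6 h5
    rwa [show d₁ + d₂ + d₃ = d₃ + d₁ + d₂ by ring]

end Pool.Agent.Lib.MP_0bc52e_nt.R
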