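import Pool.Agent.Lib.MP_0bc52e_nt.R.StmR

/-!
# MP_0bc52e_nt, [TR rfr]: roots and frames
-/

set_option autoImplicit false

namespace Pool.Agent.Lib.MP_0bc52e_nt.R

open Pool.Agent.Lib.MP_0bc52e_nt.LC Pool.Agent.Lib.MP_0bc52e_nt.T

theorem p_rfr (h1 : T.S_fr1) : S_rfr := by
  intro f P hf hR
  obtain ⟨f', hf', h⟩ := hR
  exact ⟨fun v => f (f' v), h1.2.1 f f' hf hf', h⟩

end Pool.Agent.Lib.MP_0bc52e_nt.R
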