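import Pool.Agent.Lib.MP_0bc52e_nt.R.StmR

/-!
# MP_0bc52e_nt, [TR roots]: the root theorem
-/

set_option autoImplicit false

namespace Pool.Agent.Lib.MP_0bc52e_nt.R

open Pool.Agent.Lib.MP_0bc52e_nt.LC Pool.Agent.Lib.MP_0bc52e_nt.T

private lemma rroots_fr (v : ℤ × ℤ × ℤ) : IsFr (fun w : ℝ × ℝ × ℝ => w + ip v) := by
  refine ⟨v, (1, 0, 0), (0, 1, 0), (0, 0, 1), Or.inl (by decide), fun w => ?_⟩
  refine Prod.ext ?_ (Prod.ext ?_ ?_)
  · simp [fr, ip]; ring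
  · simp [fr, ip]; ring
  · simp [fr, ip]; ring

theorem p_roots (h1 : S_rA) (h2 : S_rB) (h3 : S_rC) (h4 : S_rfr) (h5 : T.S_circ) (h6 : T.S_fr2) :
    S_roots := by
  intro P hP hv
  obtain ⟨v, hv⟩ := hv
  have hf := rroots_fr v
  obtain ⟨-, g2, -, -, g5, -, -⟩ := h6 _ hf P
  have hP' := g2 hP
  have hI : Inn ((fun w : ℝ × ℝ × ℝ => w + ip v) ⁻¹' P) 0 := by
    rw [g5 0]
    simpa using hv
  refine h4 _ P hf ?_
  have hlp := hP'
  obtain ⟨V, hV⟩ := hP'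
  have hV' : (fun w : ℝ × ℝ × ℝ => w + ip v) ⁻¹' P = hull V := hV
  have hc := h5 V (by rw [← hV']; exact hI)
  rw [← hV'] at hc
  by_cases ho : Opp ((fun w : ℝ × ℝ × ℝ => w + ip v) ⁻¹' P)
  · exact h1 _ hlp hI ho
  by_cases ht : Tri3 ((fun w : ℝ × ℝ × ℝ => w + ip v) ⁻¹' P)
  · exact h2 _ hlp hI ht
  · rcases hc with hc | hc | hc
    · exact absurd hc ho
    · exact absurd hc ht
    · refine h3 _ ?_ ho ht hc
      rw [hV]
      exact convex_convexHull ℝ _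

end Pool.Agent.Lib.MP_0bc52e_nt.R
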