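import Pool.Agent.Lib.MP_0bc52e_nt.R.StmR

set_option autoImplicit false

namespace Pool.Agent.Lib.MP_0bc52e_nt.R

open Pool.Agent.Lib.MP_0bc52e_nt.LC Pool.Agent.Lib.MP_0bc52e_nt.T

private lemma rsort_abs (R : ℤ → ℤ → ℤ → ℤ → Prop)
    (s1 : ∀ a b c d, R a b c d → R b a c d) (s2 : ∀ a b c d, R a b c d → R a c b d)
    (s3 : ∀ a b c d, R a b c d → R a b d c) (a b c d : ℤ) (h : R a b c d) :
    ∃ a' b' c' d', R a' b' c' d' ∧ a' ≤ b' ∧ b' ≤ c' ∧ c' ≤ d' := by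
  have c1 : ∃ a b c d, R a b c d ∧ a ≤ b := by
    rcases le_total a b with h' | h'
    · exact ⟨a, b, c, d, h, h'⟩
    · exact ⟨b, a, c, d, s1 _ _ _ _ h, h'⟩
  clear h
  obtain ⟨a, b, c, d, h, hab⟩ := c1
  have c2 : ∃ a b c d, R a b c d ∧ a ≤ c ∧ b ≤ c := by
    rcases le_total b c with h' | h'
    · exact ⟨a, b, c, d, h, by omega, h'⟩
    · exact ⟨a, c, b, d, s2 _ _ _ _ h, hab, h'⟩
  clear h
  obtain ⟨a, b, c, d, h, hac, hbc⟩ := c2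
  have c3 : ∃ a b c d, R a b c d ∧ a ≤ d ∧ b ≤ d ∧ c ≤ d := by
    rcases le_total c d with h' | h'
    · exact ⟨a, b, c, d, h, by omega, by omega, h'⟩
    · exact ⟨a, b, d, c, s3 _ _ _ _ h, hac, hbc, h'⟩
  clear h
  obtain ⟨a, b, c, d, h, had, hbd, hcd⟩ := c3
  have c4 : ∃ a b c d, R a b c d ∧ a ≤ b ∧ b ≤ d ∧ c ≤ d := by
    rcases le_total a b with h' | h'
    · exact ⟨a, b, c, d, h, h', hbd, hcd⟩
    · exact ⟨b, a, c, d, s1 _ _ _ _ h, h', had, hcd⟩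
  clear h
  obtain ⟨a, b, c, d, h, hab, hbd, hcd⟩ := c4
  have c5 : ∃ a b c d, R a b c d ∧ a ≤ c ∧ b ≤ c ∧ c ≤ d := by
    rcases le_total b c with h' | h'
    · exact ⟨a, b, c, d, h, by omega, h', hcd⟩
    · exact ⟨a, c, b, d, s2 _ _ _ _ h, hab, h', hbd⟩
  clear h
  obtain ⟨a, b, c, d, h, hac, hbc, hcd⟩ := c5
  rcases le_total a b with h' | h'
  · exact ⟨a, b, c, d, h, h', hbc, hcd⟩
  · exact ⟨b, a, c, d, s1 _ _ _ _ h, h', hac, hcd⟩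

theorem p_sort (h1 : S_teS) : S_sort := by
  intro P v₀ v₁ v₂ v₃ w₀ w₁ w₂ w₃ m hT hI hF
  obtain ⟨a, b, c, d, ⟨u₀, u₁, u₂, u₃, hT', hI', hF'⟩, hab, hbc, hcd⟩ :=
    rsort_abs (fun a b c d => ∃ u₀ u₁ u₂ u₃ : ℤ × ℤ × ℤ, Te u₀ u₁ u₂ u₃ a b c d m ∧
      In4 P u₀ u₁ u₂ u₃ ∧ Fl a b c d)
      (by
        rintro a b c d ⟨u₀, u₁, u₂, u₃, hT, hI, hF⟩
        refine ⟨u₁, u₀, u₂, u₃, (h1 _ _ _ _ _ _ _ _ _ hT).1, ⟨hI.2.1, hI.1, hI.2.2.1, hI.2.2.2⟩, ?_⟩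
        intro j hj hj'
        have e : b + a + c + d = a + b + c + d := by ring
        have := hF j hj (by rw [← e]; exact hj')
        rw [e]; rw [← this]; ring)
      (by
        rintro a b c d ⟨u₀, u₁, u₂, u₃, hT, hI, hF⟩
        refine ⟨u₀, u₂, u₁, u₃, (h1 _ _ _ _ _ _ _ _ _ hT).2.1, ⟨hI.1, hI.2.2.1, hI.2.1, hI.2.2.2⟩, ?_⟩
        intro j hj hj'
        have e : a + c + b + d = a + b + c + d := by ring
        have := hF j hj (by rw [← e]; exact hj')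
        rw [e]; rw [← this]; ring)
      (by
        rintro a b c d ⟨u₀, u₁, u₂, u₃, hT, hI, hF⟩
        refine ⟨u₀, u₁, u₃, u₂, (h1 _ _ _ _ _ _ _ _ _ hT).2.2, ⟨hI.1, hI.2.1, hI.2.2.2, hI.2.2.1⟩, ?_⟩
        intro j hj hj'
        have e : a + b + d + c = a + b + c + d := by ring
        have := hF j hj (by rw [← e]; exact hj')
        rw [e]; rw [← this]; ring)
      w₀ w₁ w₂ w₃ ⟨v₀, v₁, v₂, v₃, hT, hI, hF⟩
  exact ⟨u₀, u₁, u₂, u₃, a, b, c, d, hT', hI', hF', hab, hbc, hcd⟩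

end Pool.Agent.Lib.MP_0bc52e_nt.R
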