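import Pool.Agent.Lib.MP_0bc52e_nt.R.StmR

/-!
# MP_0bc52e_nt, part R: [TR teM]
-/

namespace Pool.Agent.Lib.MP_0bc52e_nt.R

open Pool.Agent.Lib.MP_0bc52e_nt.LC Pool.Agent.Lib.MP_0bc52e_nt.T

private theorem rtem_gcd (d₀ d₁ d₂ d₃ : ℤ) (h₀ : 0 < d₀) : ∃ m w₀ w₁ w₂ w₃ e₀ e₁ e₂ e₃ : ℤ,
    0 < m ∧ d₀ = m * w₀ ∧ d₁ = m * w₁ ∧ d₂ = m * w₂ ∧ d₃ = m * w₃ ∧
      e₀ * w₀ + e₁ * w₁ + e₂ * w₂ + e₃ * w₃ = 1 := by
  set a : ℤ := (Int.gcd d₀ d₁ : ℤ) with ha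
  set b : ℤ := (Int.gcd d₂ d₃ : ℤ) with hb
  have hag : a = d₀ * Int.gcdA d₀ d₁ + d₁ * Int.gcdB d₀ d₁ := Int.gcd_eq_gcd_ab d₀ d₁
  have hbg : b = d₂ * Int.gcdA d₂ d₃ + d₃ * Int.gcdB d₂ d₃ := Int.gcd_eq_gcd_ab d₂ d₃
  have hmg : (Int.gcd a b : ℤ) = a * Int.gcdA a b + b * Int.gcdB a b := Int.gcd_eq_gcd_ab a b
  have hma : (Int.gcd a b : ℤ) ∣ a := Int.gcd_dvd_left _ _
  have hmb : (Int.gcd a b : ℤ) ∣ b := Int.gcd_dvd_right _ _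
  have ha0 : a ∣ d₀ := Int.gcd_dvd_left _ _
  have ha1 : a ∣ d₁ := Int.gcd_dvd_right _ _
  have hb2 : b ∣ d₂ := Int.gcd_dvd_left _ _
  have hb3 : b ∣ d₃ := Int.gcd_dvd_right _ _
  have hapos : a ≠ 0 := by
    rintro h
    rw [h] at ha0
    exact h₀.ne' (zero_dvd_iff.1 ha0)
  have hm : 0 < (Int.gcd a b : ℤ) := by
    have : 0 < Int.gcd a b := Int.gcd_pos_of_ne_zero_left _ hapos
    exact_mod_cast this
  obtain ⟨w₀, hw0⟩ := hma.trans ha0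
  obtain ⟨w₁, hw1⟩ := hma.trans ha1
  obtain ⟨w₂, hw2⟩ := hmb.trans hb2
  obtain ⟨w₃, hw3⟩ := hmb.trans hb3
  refine ⟨(Int.gcd a b : ℤ), w₀, w₁, w₂, w₃, Int.gcdA d₀ d₁ * Int.gcdA a b,
    Int.gcdB d₀ d₁ * Int.gcdA a b, Int.gcdA d₂ d₃ * Int.gcdB a b, Int.gcdB d₂ d₃ * Int.gcdB a b,
    hm, hw0, hw1, hw2, hw3, ?_⟩
  generalize (Int.gcd a b : ℤ) = m at *
  generalize Int.gcdA d₀ d₁ = p at *
  generalize Int.gcdB d₀ d₁ = q at *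
  generalize Int.gcdA d₂ d₃ = r at *
  generalize Int.gcdB d₂ d₃ = s at *
  generalize Int.gcdA a b = u at *
  generalize Int.gcdB a b = v at *
  have : m * (p * u * w₀ + q * u * w₁ + r * v * w₂ + s * v * w₃) = m * 1 := by
    rw [mul_one]
    conv_rhs => rw [hmg, hag, hbg, hw0, hw1, hw2, hw3]
    ring
  exact mul_left_cancel₀ hm.ne' this

theorem p_teM (h1 : T.S_quadX) (h2 : T.S_floor) : S_teM := by
  intro P hconv hOpp hTri hex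
  classical
  have hex' : ∃ n : ℕ, ∃ v₀ v₁ v₂ v₃ : ℤ × ℤ × ℤ, ∃ d₀ d₁ d₂ d₃ : ℤ,
      QD v₀ v₁ v₂ v₃ d₀ d₁ d₂ d₃ ∧ In4 P v₀ v₁ v₂ v₃ ∧ d₀ + d₁ + d₂ + d₃ = (n : ℤ) := by
    obtain ⟨v₀, v₁, v₂, v₃, d₀, d₁, d₂, d₃, hq, hin⟩ := hex
    refine ⟨(d₀ + d₁ + d₂ + d₃).toNat, v₀, v₁, v₂, v₃, d₀, d₁, d₂, d₃, hq, hin, ?_⟩
    obtain ⟨_, _, _, _, p0, p1, p2, p3⟩ := hq
    rw [Int.toNat_of_nonneg (by linarith)]
  obtain ⟨v₀, v₁, v₂, v₃, d₀, d₁, d₂, d₃, hq, hin, hsum⟩ := Nat.find_spec hex'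
  have hmin : ∀ v₀' v₁' v₂' v₃' : ℤ × ℤ × ℤ, ∀ d₀' d₁' d₂' d₃' : ℤ,
      QD v₀' v₁' v₂' v₃' d₀' d₁' d₂' d₃' → In4 P v₀' v₁' v₂' v₃' →
      d₀ + d₁ + d₂ + d₃ ≤ d₀' + d₁' + d₂' + d₃' := by
    intro v₀' v₁' v₂' v₃' d₀' d₁' d₂' d₃' hq' hin'
    have hle := Nat.find_min' hex' (m := (d₀' + d₁' + d₂' + d₃').toNat)
      ⟨v₀', v₁', v₂', v₃', d₀', d₁', d₂', d₃', hq', hin', by
        obtain ⟨_, _, _, _, p0, p1, p2, p3⟩ := hq'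
        rw [Int.toNat_of_nonneg (by linarith)]⟩
    obtain ⟨_, _, _, _, p0, p1, p2, p3⟩ := hq'
    have : ((Nat.find hex' : ℕ) : ℤ) ≤ ((d₀' + d₁' + d₂' + d₃').toNat : ℤ) := by
      exact_mod_cast hle
    rw [Int.toNat_of_nonneg (by linarith)] at this
    rw [hsum]
    exact this
  have hX : ∀ (X : ℤ × ℤ × ℤ) (x₀ x₁ x₂ x₃ : ℝ), 0 ≤ x₀ → 0 ≤ x₁ → 0 ≤ x₂ → 0 ≤ x₃ → x₀ < 1 →
      x₁ < 1 → x₂ < 1 → x₃ < 1 → x₀ + x₁ + x₂ + x₃ = 1 →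
      ip X = x₀ • ip v₀ + x₁ • ip v₁ + x₂ • ip v₂ + x₃ • ip v₃ → X = 0 := by
    intro X x₀ x₁ x₂ x₃ a0 a1 a2 a3 b0 b1 b2 b3 hs he
    by_contra hne
    rcases h1 P v₀ v₁ v₂ v₃ d₀ d₁ d₂ d₃ hconv hq hin X x₀ x₁ x₂ x₃ hne a0 a1 a2 a3 b0 b1 b2 b3
      hs he with h | h | ⟨v₀', v₁', v₂', v₃', d₀', d₁', d₂', d₃', hq', hin', hlt⟩
    · exact hOpp h
    · exact hTri h
    · exact absurd (hmin _ _ _ _ _ _ _ _ hq' hin') (not_le.2 hlt)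
  have hq0 := hq
  obtain ⟨q0, q1, q2, q3, p0, p1, p2, p3⟩ := hq
  obtain ⟨m, w₀, w₁, w₂, w₃, e₀, e₁, e₂, e₃, hm, hw0, hw1, hw2, hw3, he⟩ :=
    rtem_gcd d₀ d₁ d₂ d₃ p0
  have hfl := h2 v₀ v₁ v₂ v₃ d₀ d₁ d₂ d₃ m w₀ w₁ w₂ w₃ hq0 hm hw0 hw1 hw2 hw3
    ⟨e₀, e₁, e₂, e₃, he⟩ hX
  have hsum1 : ∀ a₀ a₁ a₂ a₃ : ℤ, d₀ * a₀ + d₁ * a₁ + d₂ * a₂ + d₃ * a₃ = 0 →
      w₀ * a₀ + w₁ * a₁ + w₂ * a₂ + w₃ * a₃ = 0 := by
    intro a₀ a₁ a₂ a₃ h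
    have : m * (w₀ * a₀ + w₁ * a₁ + w₂ * a₂ + w₃ * a₃) = 0 := by
      rw [hw0, hw1, hw2, hw3] at h
      rw [← h]
      ring
    rcases mul_eq_zero.1 this with h' | h'
    · exact absurd h' hm.ne'
    · exact h'
  refine ⟨v₀, v₁, v₂, v₃, w₀, w₁, w₂, w₃, m, ⟨hm, ?_, ?_, ?_, ?_, ?_, ?_, ?_, ?_, ?_, ?_⟩, hin,
    hfl⟩
  · rw [hw0] at p0
    exact pos_of_mul_pos_right p0 hm.le
  · rw [hw1] at p1
    exact pos_of_mul_pos_right p1 hm.le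
  · rw [hw2] at p2
    exact pos_of_mul_pos_right p2 hm.le
  · rw [hw3] at p3
    exact pos_of_mul_pos_right p3 hm.le
  · refine Prod.ext ?_ (Prod.ext ?_ ?_)
    · simp only [Prod.fst_add, Prod.smul_fst, smul_eq_mul, Prod.fst_zero]
      apply hsum1
      rw [q0, q1, q2, q3]
      simp only [det3]
      ring
    · simp only [Prod.fst_add, Prod.snd_add, Prod.smul_fst, Prod.smul_snd, smul_eq_mul,
        Prod.fst_zero, Prod.snd_zero]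
      apply hsum1
      rw [q0, q1, q2, q3]
      simp only [det3]
      ring
    · simp only [Prod.snd_add, Prod.smul_snd, smul_eq_mul, Prod.snd_zero]
      apply hsum1
      rw [q0, q1, q2, q3]
      simp only [det3]
      ring
  · rw [← q0, ← hw0, abs_of_pos p0]
  · rw [← hw1, ← abs_neg, ← q1, abs_of_pos p1]
  · rw [← hw2, ← q2, abs_of_pos p2]
  · rw [← hw3, ← abs_neg, ← q3, abs_of_pos p3]
  · intro N n₀ n₁ n₂ n₃ X a0 a1 a2 a3 b0 b1 b2 b3 hs hv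
    have hN : (0 : ℝ) < N := by
      have : 0 < N := lt_of_le_of_lt a0 b0
      exact_mod_cast this
    have key : ∀ x c₀ c₁ c₂ c₃ : ℤ, N * x = n₀ * c₀ + n₁ * c₁ + n₂ * c₂ + n₃ * c₃ →
        (x : ℝ) = (n₀ : ℝ) / N * c₀ + (n₁ : ℝ) / N * c₁ + (n₂ : ℝ) / N * c₂ +
          (n₃ : ℝ) / N * c₃ := by
      intro x c₀ c₁ c₂ c₃ h
      have h' : (N : ℝ) * x = n₀ * c₀ + n₁ * c₁ + n₂ * c₂ + n₃ * c₃ := by exact_mod_cast h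
      field_simp
      linarith
    apply hX X ((n₀ : ℝ) / N) ((n₁ : ℝ) / N) ((n₂ : ℝ) / N) ((n₃ : ℝ) / N)
    · exact div_nonneg (by exact_mod_cast a0) hN.le
    · exact div_nonneg (by exact_mod_cast a1) hN.le
    · exact div_nonneg (by exact_mod_cast a2) hN.le
    · exact div_nonneg (by exact_mod_cast a3) hN.le
    · rw [div_lt_one hN]; exact_mod_cast b0
    · rw [div_lt_one hN]; exact_mod_cast b1
    · rw [div_lt_one hN]; exact_mod_cast b2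
    · rw [div_lt_one hN]; exact_mod_cast b3
    · rw [← add_div, ← add_div, ← add_div, div_eq_one_iff_eq hN.ne']
      exact_mod_cast hs
    · have e1 := congrArg Prod.fst hv
      have e2 := congrArg (fun v : ℤ × ℤ × ℤ => v.2.1) hv
      have e3 := congrArg (fun v : ℤ × ℤ × ℤ => v.2.2) hv
      simp only [Prod.fst_add, Prod.snd_add, Prod.smul_fst, Prod.smul_snd, smul_eq_mul]
        at e1 e2 e3
      refine Prod.ext ?_ (Prod.ext ?_ ?_)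
      · simp only [ip, Prod.fst_add, Prod.smul_fst, smul_eq_mul]
        exact key _ _ _ _ _ e1
      · simp only [ip, Prod.fst_add, Prod.snd_add, Prod.smul_fst, Prod.smul_snd, smul_eq_mul]
        exact key _ _ _ _ _ e2
      · simp only [ip, Prod.snd_add, Prod.smul_snd, smul_eq_mul]
        exact key _ _ _ _ _ e3

end Pool.Agent.Lib.MP_0bc52e_nt.R
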