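import Pool.Agent.Lib.MP_0bc52e_nt.R.StmR

/-!
# MP_0bc52e_nt, part R: [TR teS]
-/

namespace Pool.Agent.Lib.MP_0bc52e_nt.R

open Pool.Agent.Lib.MP_0bc52e_nt.LC Pool.Agent.Lib.MP_0bc52e_nt.T

private theorem rtes_swap12 (a b c : ℤ × ℤ × ℤ) : |det3 b a c| = |det3 a b c| := by
  rw [← abs_neg]
  congr 1
  simp only [det3]
  ring

private theorem rtes_swap23 (a b c : ℤ × ℤ × ℤ) : |det3 a c b| = |det3 a b c| := by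
  rw [← abs_neg]
  congr 1
  simp only [det3]
  ring

theorem p_teS : S_teS := by
  intro v₀ v₁ v₂ v₃ w₀ w₁ w₂ w₃ m h
  refine ⟨⟨h.hm, h.h₁, h.h₀, h.h₂, h.h₃, ?_, h.d₁, h.d₀, ?_, ?_, ?_⟩,
    ⟨h.hm, h.h₀, h.h₂, h.h₁, h.h₃, ?_, ?_, h.d₂, h.d₁, ?_, ?_⟩,
    ⟨h.hm, h.h₀, h.h₁, h.h₃, h.h₂, ?_, ?_, ?_, h.d₃, h.d₂, ?_⟩⟩
  · rw [← h.sum]; abel
  · rw [rtes_swap12]; exact h.d₂
  · rw [rtes_swap12]; exact h.d₃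
  · intro N n₀ n₁ n₂ n₃ X a0 a1 a2 a3 b0 b1 b2 b3 hs hX
    exact h.tm N n₁ n₀ n₂ n₃ X a1 a0 a2 a3 b1 b0 b2 b3 (by rw [← hs]; ring) (by rw [hX]; abel)
  · rw [← h.sum]; abel
  · rw [rtes_swap12]; exact h.d₀
  · rw [rtes_swap23]; exact h.d₃
  · intro N n₀ n₁ n₂ n₃ X a0 a1 a2 a3 b0 b1 b2 b3 hs hX
    exact h.tm N n₀ n₂ n₁ n₃ X a0 a2 a1 a3 b0 b2 b1 b3 (by rw [← hs]; ring) (by rw [hX]; abel)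
  · rw [← h.sum]; abel
  · rw [rtes_swap23]; exact h.d₀
  · rw [rtes_swap23]; exact h.d₁
  · intro N n₀ n₁ n₂ n₃ X a0 a1 a2 a3 b0 b1 b2 b3 hs hX
    exact h.tm N n₀ n₁ n₃ n₂ X a0 a1 a3 a2 b0 b1 b3 b2 (by rw [← hs]; ring) (by rw [hX]; abel)

end Pool.Agent.Lib.MP_0bc52e_nt.R
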