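import Pool.Agent.Lib.MP_0bc52e_nt.R.StmR

/-!
Piece [tr1] of the root theorem (MP_0bc52e_nt).
-/

namespace Pool.Agent.Lib.MP_0bc52e_nt.R

open Pool.Agent.Lib.MP_0bc52e_nt.LC Pool.Agent.Lib.MP_0bc52e_nt.T

/-- The purely arithmetical part. -/
private theorem rtr1_core (a₁ b₁ a₂ b₂ a₃ b₃ x y d₁ d₂ d₃ s t u : ℤ)
    (h1 : d₁ = a₂ * b₃ - b₂ * a₃) (h2 : d₂ = a₃ * b₁ - b₃ * a₁) (h3 : d₃ = a₁ * b₂ - b₁ * a₂)
    (hs : s = x * b₂ - y * a₂) (ht : t = a₁ * y - b₁ * x) (hu : u = x * b₃ - y * a₃)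
    (p1 : 0 < d₁) (p2 : 0 < d₂) (p3 : 0 < d₃) (s0 : 0 ≤ s) (t0 : 0 ≤ t) (hst : s + t ≤ d₃)
    (n0 : ¬ (x = 0 ∧ y = 0)) (n1 : ¬ (x = a₁ ∧ y = b₁)) (n2 : ¬ (x = a₂ ∧ y = b₂)) :
    (0 < u ∧ 0 < t ∧ u + d₂ + t < d₁ + d₂ + d₃) ∨
    (u < 0 ∧ 0 < s ∧ d₁ + -u + s < d₁ + d₂ + d₃) ∨
    (u = 0 ∧ x * a₃ + y * b₃ < 0) := by
  have ex : d₃ * x = s * a₁ + t * a₂ := by rw [h3, hs, ht]; ring
  have ey : d₃ * y = s * b₁ + t * b₂ := by rw [h3, hs, ht]; ring
  have eu : d₃ * u = t * d₁ - s * d₂ := by rw [h1, h2, h3, hs, ht, hu]; ring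
  have s1 : s < d₃ := by
    rcases lt_or_eq_of_le (show s ≤ d₃ by omega) with h | h
    · exact h
    · exfalso
      have t1 : t = 0 := by omega
      rw [h, t1] at ex ey
      apply n1
      constructor
      · have := mul_left_cancel₀ p3.ne' (show d₃ * x = d₃ * a₁ by linarith)
        exact this
      · have := mul_left_cancel₀ p3.ne' (show d₃ * y = d₃ * b₁ by linarith)
        exact this
  have t1 : t < d₃ := by
    rcases lt_or_eq_of_le (show t ≤ d₃ by omega) with h | h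
    · exact h
    · exfalso
      have s1 : s = 0 := by omega
      rw [h, s1] at ex ey
      apply n2
      constructor
      · have := mul_left_cancel₀ p3.ne' (show d₃ * x = d₃ * a₂ by linarith)
        exact this
      · have := mul_left_cancel₀ p3.ne' (show d₃ * y = d₃ * b₂ by linarith)
        exact this
  have sd : 0 ≤ s * d₂ := mul_nonneg s0 p2.le
  have td : 0 ≤ t * d₁ := mul_nonneg t0 p1.le
  rcases lt_trichotomy u 0 with h | h | h
  · right; left
    refine ⟨h, ?_, ?_⟩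
    · rcases lt_or_eq_of_le s0 with h' | h'
      · exact h'
      · exfalso
        rw [← h'] at eu
        have : d₃ * u < 0 := mul_neg_of_pos_of_neg p3 h
        linarith
    · have h4 : d₃ * (-u) < d₃ * d₂ := by
        have : s * d₂ < d₃ * d₂ := mul_lt_mul_of_pos_right s1 p2
        linarith
      have h5 := lt_of_mul_lt_mul_left h4 p3.le
      linarith
  · right; right
    refine ⟨h, ?_⟩
    have e1 : t * d₁ = s * d₂ := by rw [h] at eu; linarith
    have tp : 0 < t := by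
      rcases lt_or_eq_of_le t0 with h' | h'
      · exact h'
      · exfalso
        rw [← h', zero_mul] at e1
        have s2 : s = 0 := by
          rcases mul_eq_zero.1 e1.symm with h6 | h6
          · exact h6
          · exact absurd h6 p2.ne'
        rw [← h', s2] at ex ey
        apply n0
        constructor
        · have := mul_left_cancel₀ p3.ne' (show d₃ * x = d₃ * 0 by linarith)
          exact this
        · have := mul_left_cancel₀ p3.ne' (show d₃ * y = d₃ * 0 by linarith)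
          exact this
    -- `d₂ x = - t q₃`
    have gx : d₂ * x = -(t * a₃) := by
      apply mul_left_cancel₀ p3.ne'
      have : d₃ * (d₂ * x) = d₂ * (d₃ * x) := by ring
      rw [this, ex]
      have h7 : d₂ * (s * a₁ + t * a₂) = (s * d₂) * a₁ + t * (d₂ * a₂) := by ring
      rw [h7, ← e1, h1, h2, h3]; ring
    have gy : d₂ * y = -(t * b₃) := by
      apply mul_left_cancel₀ p3.ne'
      have : d₃ * (d₂ * y) = d₂ * (d₃ * y) := by ring
      rw [this, ey]
      have h7 : d₂ * (s * b₁ + t * b₂) = (s * d₂) * b₁ + t * (d₂ * b₂) := by ring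
      rw [h7, ← e1, h1, h2, h3]; ring
    have q3 : 0 < a₃ * a₃ + b₃ * b₃ := by
      by_contra hc
      have ha : a₃ = 0 := by nlinarith [mul_self_nonneg a₃, mul_self_nonneg b₃]
      have hb : b₃ = 0 := by nlinarith [mul_self_nonneg a₃, mul_self_nonneg b₃]
      rw [ha, hb] at h1
      omega
    have h8 : d₂ * (x * a₃ + y * b₃) < 0 := by
      have h9 : d₂ * (x * a₃ + y * b₃) = -(t * (a₃ * a₃ + b₃ * b₃)) := by
        have : d₂ * (x * a₃ + y * b₃) = (d₂ * x) * a₃ + (d₂ * y) * b₃ := by ring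
        rw [this, gx, gy]; ring
      rw [h9]
      have := mul_pos tp q3
      linarith
    by_contra hc
    have := mul_nonneg p2.le (not_lt.1 hc)
    linarith
  · left
    refine ⟨h, ?_, ?_⟩
    · rcases lt_or_eq_of_le t0 with h' | h'
      · exact h'
      · exfalso
        rw [← h'] at eu
        have : 0 < d₃ * u := mul_pos p3 h
        linarith
    · have h4 : d₃ * u < d₃ * d₁ := by
        have : t * d₁ < d₃ * d₁ := mul_lt_mul_of_pos_right t1 p1
        linarith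
      have h5 := lt_of_mul_lt_mul_left h4 p3.le
      linarith

theorem p_tr1 : S_tr1 := by
  intro P s₁ s₂ s₃ d₁ d₂ d₃ hTR hMn X hX hs ht hst
  obtain ⟨i1, i2, i3, e1, e2, e3, p1, p2, p3⟩ := hTR
  by_contra hc
  push Not at hc
  obtain ⟨c0, c1, c2⟩ := hc
  have n0 : ¬ ((pr X).1 = 0 ∧ (pr X).2 = 0) := fun h => c0 (Prod.ext h.1 h.2)
  have n1 : ¬ ((pr X).1 = (pr s₁).1 ∧ (pr X).2 = (pr s₁).2) := fun h => c1 (Prod.ext h.1 h.2)
  have n2 : ¬ ((pr X).1 = (pr s₂).1 ∧ (pr X).2 = (pr s₂).2) := fun h => c2 (Prod.ext h.1 h.2)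
  rcases rtr1_core (pr s₁).1 (pr s₁).2 (pr s₂).1 (pr s₂).2 (pr s₃).1 (pr s₃).2 (pr X).1 (pr X).2
    d₁ d₂ d₃ (det2 (pr X) (pr s₂)) (det2 (pr s₁) (pr X)) (det2 (pr X) (pr s₃)) e1 e2 e3 rfl rfl rfl
    p1 p2 p3 hs ht hst n0 n1 n2 with ⟨hu, ht', hsum⟩ | ⟨hu, hs', hsum⟩ | ⟨hu, hd⟩
  · have := hMn.2 s₁ X s₃ (det2 (pr X) (pr s₃)) d₂ (det2 (pr s₁) (pr X))
      ⟨i1, hX, i3, rfl, e2, rfl, hu, p2, ht'⟩
    linarith
  · have hneg : -det2 (pr X) (pr s₃) = det2 (pr s₃) (pr X) := by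
      unfold det2; ring
    have := hMn.2 X s₂ s₃ d₁ (-det2 (pr X) (pr s₃)) (det2 (pr X) (pr s₂))
      ⟨hX, i2, i3, e1, hneg, rfl, p1, by linarith, hs'⟩
    linarith
  · exact hMn.1 ⟨X, s₃, hX, i3, c0, hu, hd⟩

end Pool.Agent.Lib.MP_0bc52e_nt.R
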