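import Pool.Agent.Lib.MP_0bc52e_nt.R.StmR

/-!
# Piece [upD]: holes of the square base
-/

namespace Pool.Agent.Lib.MP_0bc52e_nt.R

open Pool.Agent.Lib.MP_0bc52e_nt.LC Pool.Agent.Lib.MP_0bc52e_nt.T

private lemma rupd_abs {k j a c X Y u v : ℤ} (hu : k * a - j * X = u) (hv : k * c - j * Y = v)
    (h : ¬ (|k * a - j * X| + |k * c - j * Y| ≤ k - j)) : k - j < |u| + |v| := by
  rw [hu, hv] at h
  exact lt_of_not_ge h

theorem p_upD : S_upD := by
  intro k X Y hk h
  have hk0 : 0 < k := by omega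
  obtain ⟨i, f, hX, hf0, hfk⟩ : ∃ i f : ℤ, X = k * i + f ∧ 0 ≤ f ∧ f < k :=
    ⟨X / k, X % k, (Int.mul_ediv_add_emod X k).symm, Int.emod_nonneg _ (by omega),
      Int.emod_lt_of_pos _ hk0⟩
  obtain ⟨l, g, hY, hg0, hgk⟩ : ∃ l g : ℤ, Y = k * l + g ∧ 0 ≤ g ∧ g < k :=
    ⟨Y / k, Y % k, (Int.mul_ediv_add_emod Y k).symm, Int.emod_nonneg _ (by omega),
      Int.emod_lt_of_pos _ hk0⟩
  have e1 := rupd_abs (u := -f) (v := -g) (by rw [hX]; ring) (by rw [hY]; ring)
    (h 1 i l (by omega) (by omega))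
  have e2 := rupd_abs (u := k - f) (v := -g) (by rw [hX]; ring) (by rw [hY]; ring)
    (h 1 (i + 1) l (by omega) (by omega))
  have e3 := rupd_abs (u := -f) (v := k - g) (by rw [hX]; ring) (by rw [hY]; ring)
    (h 1 i (l + 1) (by omega) (by omega))
  have e4 := rupd_abs (u := k - f) (v := k - g) (by rw [hX]; ring) (by rw [hY]; ring)
    (h 1 (i + 1) (l + 1) (by omega) (by omega))
  have a1 : |(-f)| = f := by rw [abs_neg, abs_of_nonneg hf0]
  have a2 : |(-g)| = g := by rw [abs_neg, abs_of_nonneg hg0]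
  have a3 : |k - f| = k - f := abs_of_nonneg (by omega)
  have a4 : |k - g| = k - g := abs_of_nonneg (by omega)
  rw [a1, a2] at e1
  rw [a3, a2] at e2
  rw [a1, a4] at e3
  rw [a3, a4] at e4
  have hfg : f = g := by omega
  have h2f : k = 2 * f := by omega
  have hk2 : k = 2 := by
    by_contra hne
    have e5 := rupd_abs (u := 0) (v := 0)
      (show k * (2 * i + 1) - 2 * X = 0 by rw [hX]; linear_combination h2f)
      (show k * (2 * l + 1) - 2 * Y = 0 by rw [hY, ← hfg]; linear_combination h2f)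
      (h 2 (2 * i + 1) (2 * l + 1) (by omega) (by omega))
    simp only [abs_zero] at e5
    omega
  refine ⟨hk2, ?_, ?_⟩
  · subst hk2; omega
  · subst hk2; omega

end Pool.Agent.Lib.MP_0bc52e_nt.R
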