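import Pool.Agent.Lib.MP_0bc52e_nt.R.StmR

namespace Pool.Agent.Lib.MP_0bc52e_nt.R

open Pool.Agent.Lib.MP_0bc52e_nt.LC Pool.Agent.Lib.MP_0bc52e_nt.T

private lemma rupt_abs (k i f X a : ℤ) (hX : X = k * i + f) (ha : a = i) (hf : 0 ≤ f) :
    |k * a - 1 * X| = f := by
  subst hX ha
  have h : k * a - 1 * (k * a + f) = -f := by ring
  rw [h, abs_neg, abs_of_nonneg hf]

private lemma rupt_abs' (k i f X a : ℤ) (hX : X = k * i + f) (ha : a = i + 1) (hf : f < k) :
    |k * a - 1 * X| = k - f := by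
  subst hX ha
  have h : k * (i + 1) - 1 * (k * i + f) = k - f := by ring
  rw [h, abs_of_nonneg (by linarith)]

theorem p_upT : S_upT := by
  intro k X Y hk H
  obtain ⟨i, hi⟩ : ∃ i : ℤ, i = X / k := ⟨_, rfl⟩
  obtain ⟨f, hf⟩ : ∃ f : ℤ, f = X % k := ⟨_, rfl⟩
  obtain ⟨l, hl⟩ : ∃ l : ℤ, l = Y / k := ⟨_, rfl⟩
  obtain ⟨g, hg⟩ : ∃ g : ℤ, g = Y % k := ⟨_, rfl⟩
  have hX : X = k * i + f := by rw [hi, hf]; exact (Int.mul_ediv_add_emod X k).symm
  have hY : Y = k * l + g := by rw [hl, hg]; exact (Int.mul_ediv_add_emod Y k).symm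
  have hf0 : 0 ≤ f := by rw [hf]; exact Int.emod_nonneg _ (by linarith)
  have hf1 : f < k := by rw [hf]; exact Int.emod_lt_of_pos _ (by linarith)
  have hg0 : 0 ≤ g := by rw [hg]; exact Int.emod_nonneg _ (by linarith)
  have hg1 : g < k := by rw [hg]; exact Int.emod_lt_of_pos _ (by linarith)
  clear hi hf hl hg
  have e0 : k * l - 1 * Y = -g := by rw [hY]; ring
  have e1 : k * (l + 1) - 1 * Y = k - g := by rw [hY]; ring
  have h1 := H 1 i l (by norm_num) (by linarith)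
  have h2 := H 1 (i + 1) l (by norm_num) (by linarith)
  have h3 := H 1 i (l + 1) (by norm_num) (by linarith)
  have h4 := H 1 (i + 1) (l + 1) (by norm_num) (by linarith)
  rw [e0, rupt_abs k i f X i hX rfl hf0] at h1
  rw [e0, rupt_abs' k i f X (i + 1) hX rfl hf1] at h2
  rw [e1, rupt_abs k i f X i hX rfl hf0] at h3
  rw [e1, rupt_abs' k i f X (i + 1) hX rfl hf1] at h4
  have hgz : g = 0 := by omega
  have hkf : k = 2 * f := by omega
  have hf2 : f = 1 := by
    by_contra hne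
    have h5 := H 2 (2 * i + 1) (2 * l) (by norm_num) (by omega)
    have a1 : k * (2 * l) - 2 * Y = 0 := by rw [hY, hgz]; ring
    have a2 : k * (2 * i + 1) - 2 * X = 0 := by rw [hX, hkf]; ring
    rw [a1, a2] at h5
    apply h5
    constructor
    · linarith
    · simp only [abs_zero]; linarith
  refine ⟨by omega, ?_, ?_⟩
  · rw [hX, hkf, hf2]
    omega
  · rw [hY, hkf, hf2, hgz]
    exact ⟨l, by ring⟩

end Pool.Agent.Lib.MP_0bc52e_nt.R
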