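import Pool.Agent.Lib.MP_0bc52e_nt.R.StmR

namespace Pool.Agent.Lib.MP_0bc52e_nt.R

open Pool.Agent.Lib.MP_0bc52e_nt.LC Pool.Agent.Lib.MP_0bc52e_nt.T

theorem p_upW : S_upW := by
  intro k X Y hk H
  obtain ⟨i, f, hX, hf0, hfk⟩ : ∃ i f : ℤ, X = k * i + f ∧ 0 ≤ f ∧ f < k :=
    ⟨X / k, X % k, (Int.mul_ediv_add_emod X k).symm, Int.emod_nonneg _ (by omega), Int.emod_lt_of_pos _ (by omega)⟩
  obtain ⟨l, g, hY, hg0, hgk⟩ : ∃ l g : ℤ, Y = k * l + g ∧ 0 ≤ g ∧ g < k :=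
    ⟨Y / k, Y % k, (Int.mul_ediv_add_emod Y k).symm, Int.emod_nonneg _ (by omega), Int.emod_lt_of_pos _ (by omega)⟩
  have H1 : ∀ a c : ℤ, ¬ ((k * a - f) + (k * c - g) ≤ k - 1 ∧ (k * a - f) - 2 * (k * c - g) ≤ k - 1 ∧
      (k * c - g) - 2 * (k * a - f) ≤ k - 1) := by
    rintro a c ⟨h1, h2, h3⟩
    apply H 1 (i + a) (l + c) (by omega) (by omega)
    have e1 : k * (i + a) - 1 * X = k * a - f := by rw [hX]; ring
    have e2 : k * (l + c) - 1 * Y = k * c - g := by rw [hY]; ring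
    rw [e1, e2]
    exact ⟨h1, h2, h3⟩
  have h00 := H1 0 0
  have h11 := H1 1 1
  have h01 := H1 0 1
  have h10 := H1 1 0
  simp only [mul_zero, mul_one] at h00 h11 h01 h10
  have key : (k = 3 * f ∧ g = 2 * f) ∨ (k = 3 * g ∧ f = 2 * g) := by omega
  have k3 : k = 3 := by
    by_contra hne
    rcases key with ⟨h1, h2⟩ | ⟨h1, h2⟩
    · apply H 3 (3 * i + 1) (3 * l + 2) (by omega) (by omega)
      have e1 : k * (3 * i + 1) - 3 * X = 0 := by rw [hX, h1]; ring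
      have e2 : k * (3 * l + 2) - 3 * Y = 0 := by rw [hY, h2, h1]; ring
      rw [e1, e2]
      omega
    · apply H 3 (3 * i + 2) (3 * l + 1) (by omega) (by omega)
      have e1 : k * (3 * i + 2) - 3 * X = 0 := by rw [hX, h2, h1]; ring
      have e2 : k * (3 * l + 1) - 3 * Y = 0 := by rw [hY, h1]; ring
      rw [e1, e2]
      omega
  refine ⟨k3, ?_⟩
  subst k3
  rcases key with ⟨h1, h2⟩ | ⟨h1, h2⟩
  · left
    omega
  · right
    omega

end Pool.Agent.Lib.MP_0bc52e_nt.R
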