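import Pool.Agent.Lib.MP_0bc52e_nt.R.StmR

/-!
# MP_0bc52e_nt, part R: [TR excA]
-/

namespace Pool.Agent.Lib.MP_0bc52e_nt.R

open Pool.Agent.Lib.MP_0bc52e_nt.LC Pool.Agent.Lib.MP_0bc52e_nt.T

/-- The condition for the pair `t, r`. -/
private def rexca_c (wi wk wl m y t r : ℤ) : Bool :=
  decide (((-t * (1 + wi + wk + wl) + (t * y + r * m) * wi) % (m * (1 + wi + wk + wl)) +
    (t * (1 + wi + wk + wl) + (t * y + r * m) * wk) % (m * (1 + wi + wk + wl)) +
    (-t * y * (1 + wi + wk + wl) + (t * y + r * m) * wl) % (m * (1 + wi + wk + wl)) +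
    ((t * y + r * m) * 1) % (m * (1 + wi + wk + wl)) = m * (1 + wi + wk + wl)) ∧
    ¬ ((-t * (1 + wi + wk + wl) + (t * y + r * m) * wi) % (m * (1 + wi + wk + wl)) = m * wi ∧
      (t * (1 + wi + wk + wl) + (t * y + r * m) * wk) % (m * (1 + wi + wk + wl)) = m * wk ∧
      (-t * y * (1 + wi + wk + wl) + (t * y + r * m) * wl) % (m * (1 + wi + wk + wl)) = m * wl ∧
      ((t * y + r * m) * 1) % (m * (1 + wi + wk + wl)) = m * 1))

/-- The condition for `w, m, y`. -/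
private def rexca_b (w : ℤ × ℤ × ℤ) (m y : ℤ) : Bool :=
  !decide (y < m) || !decide (Int.gcd y m = 1) ||
    decide (1 + w.1 + w.2.1 + w.2.2 = 4 ∧ m = 5 ∧ (y = 2 ∨ y = 3)) ||
    ([0, 1, 2, 3, 4, 5] : List ℤ).any fun t =>
      ([0, 1, 2, 3, 4, 5, 6, 7, 8, 9, 10, 11, 12] : List ℤ).any fun r =>
        rexca_c w.1 w.2.1 w.2.2 m y t r

/-- The weights. -/
private def rexca_L : List (ℤ × ℤ × ℤ) :=
  [(1, 1, 1), (1, 1, 2), (1, 2, 1), (2, 1, 1),
    (1, 2, 3), (1, 3, 2), (2, 1, 3), (2, 3, 1), (3, 1, 2), (3, 2, 1),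
    (2, 3, 5), (2, 5, 3), (3, 2, 5), (3, 5, 2), (5, 2, 3), (5, 3, 2),
    (3, 4, 5), (3, 5, 4), (4, 3, 5), (4, 5, 3), (5, 3, 4), (5, 4, 3)]

private theorem rexca_all : (rexca_L.all fun w => ([2, 3, 4, 5, 6] : List ℤ).all fun m =>
    ([0, 1, 2, 3, 4, 5] : List ℤ).all fun y => rexca_b w m y) = true := by
  decide +kernel

theorem p_excA : S_excA := by
  rintro w₀ wi wk wl m y ⟨w₁, w₂, w₃, hL, rfl, hp⟩ hm2 hm6 hy0 hym hc
  have hw : (wi, wk, wl) ∈ rexca_L := by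
    simp only [L7, List.mem_cons, Prod.mk.injEq, List.not_mem_nil, or_false] at hL
    rcases hL with ⟨-, rfl, rfl, rfl⟩ | ⟨-, rfl, rfl, rfl⟩ | ⟨-, rfl, rfl, rfl⟩ |
      ⟨-, rfl, rfl, rfl⟩ | ⟨-, rfl, rfl, rfl⟩ | ⟨h, -, -, -⟩ | ⟨h, -, -, -⟩
    · rcases hp with h | h | h | h | h | h <;> rw [h] <;> decide
    · rcases hp with h | h | h | h | h | h <;> rw [h] <;> decide
    · rcases hp with h | h | h | h | h | h <;> rw [h] <;> decide
    · rcases hp with h | h | h | h | h | h <;> rw [h] <;> decide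
    · rcases hp with h | h | h | h | h | h <;> rw [h] <;> decide
    · norm_num at h
    · norm_num at h
  have hm : m ∈ ([2, 3, 4, 5, 6] : List ℤ) := by
    simp only [List.mem_cons, List.not_mem_nil, or_false]
    omega
  have hy : y ∈ ([0, 1, 2, 3, 4, 5] : List ℤ) := by
    simp only [List.mem_cons, List.not_mem_nil, or_false]
    omega
  have h := rexca_all
  rw [List.all_eq_true] at h
  have h := h _ hw
  rw [List.all_eq_true] at h
  have h := h _ hm
  rw [List.all_eq_true] at h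
  have h := h _ hy
  have hg : Int.gcd y m = 1 := Int.isCoprime_iff_gcd_eq_one.1 hc
  unfold rexca_b at h
  simp only [Bool.or_eq_true, Bool.not_eq_true', decide_eq_false_iff_not, decide_eq_true_eq,
    List.any_eq_true] at h
  rcases h with ((h | h) | h) | ⟨t, -, r, -, h⟩
  · exact absurd hym h
  · exact absurd hg h
  · exact Or.inl h
  · right
    unfold rexca_c at h
    rw [decide_eq_true_eq] at h
    exact ⟨t, r, _, _, _, _, _, rfl, rfl, rfl, rfl, rfl, h.1, h.2⟩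

end Pool.Agent.Lib.MP_0bc52e_nt.R
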