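import Pool.Agent.Lib.MP_0bc52e_nt.R.StmR

/-! Part R: the piece pyr. -/

namespace Pool.Agent.Lib.MP_0bc52e_nt.R

open Pool.Agent.Lib.MP_0bc52e_nt.LC Pool.Agent.Lib.MP_0bc52e_nt.T

private theorem rpyr_c2 {P : Set (ℝ × ℝ × ℝ)} (hP : Convex ℝ P) {x y z : ℝ × ℝ × ℝ} {a b : ℝ}
    (hx : x ∈ P) (hy : y ∈ P) (ha : 0 ≤ a) (hb : 0 ≤ b) (hs : a + b = 1)
    (h : z = a • x + b • y) : z ∈ P := by
  rw [h]; exact hP hx hy ha hb hs

private theorem rpyr_sum {P : Set (ℝ × ℝ × ℝ)} (hP : Convex ℝ P) (p : Fin 4 → ℝ × ℝ × ℝ)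
    (w : Fin 4 → ℝ) (hp : ∀ i, p i ∈ P) (hw : ∀ i, 0 ≤ w i) (hs : w 0 + w 1 + w 2 + w 3 = 1)
    (z : ℝ × ℝ × ℝ) (h : z = w 0 • p 0 + w 1 • p 1 + w 2 • p 2 + w 3 • p 3) : z ∈ P := by
  have := hP.sum_mem (t := Finset.univ) (w := w) (z := p) (fun i _ => hw i)
    (by rw [Fin.sum_univ_four]; exact hs) (fun i _ => hp i)
  rw [Fin.sum_univ_four] at this
  rw [h]; exact this

private theorem rpyr_c4 {P : Set (ℝ × ℝ × ℝ)} (hP : Convex ℝ P) {p₀ p₁ p₂ p₃ z : ℝ × ℝ × ℝ}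
    {a b c d : ℝ} (h0 : p₀ ∈ P) (h1 : p₁ ∈ P) (h2 : p₂ ∈ P) (h3 : p₃ ∈ P) (ha : 0 ≤ a)
    (hb : 0 ≤ b) (hc : 0 ≤ c) (hd : 0 ≤ d) (hs : a + b + c + d = 1)
    (h : z = a • p₀ + b • p₁ + c • p₂ + d • p₃) : z ∈ P := by
  refine rpyr_sum hP ![p₀, p₁, p₂, p₃] ![a, b, c, d] ?_ ?_ ?_ z ?_
  · intro i; fin_cases i <;> simpa
  · intro i; fin_cases i <;> simpa
  · simpa using hs
  · simpa using h

private theorem rpyr_fin {P : Set (ℝ × ℝ × ℝ)} (hP : Convex ℝ P) {X Y k a c j s : ℤ}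
    (hX : ip (X, Y, s * k) ∈ P) (hj : 0 < j) (hjk : j < k)
    (hw : ((((k * a - j * X : ℤ) : ℝ) / ((k - j : ℤ) : ℝ)),
      (((k * c - j * Y : ℤ) : ℝ) / ((k - j : ℤ) : ℝ)), (0 : ℝ)) ∈ P) : ip (a, c, s * j) ∈ P := by
  have hj' : (0 : ℝ) < (j : ℝ) := by exact_mod_cast hj
  have hjk' : (j : ℝ) < (k : ℝ) := by exact_mod_cast hjk
  have hk' : (0 : ℝ) < (k : ℝ) := hj'.trans hjk'
  have hd : (k : ℝ) - (j : ℝ) ≠ 0 := by linarith
  refine rpyr_c2 hP hX hw (a := (j : ℝ) / k) (b := 1 - (j : ℝ) / k) (by positivity) ?_ (by ring) ?_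
  · rw [sub_nonneg, div_le_one hk']; exact hjk'.le
  · unfold ip
    ext
    · simp only [Prod.smul_mk, Prod.mk_add_mk, smul_eq_mul]
      push_cast
      field_simp
      ring
    · simp only [Prod.smul_mk, Prod.mk_add_mk, smul_eq_mul]
      push_cast
      field_simp
      ring
    · simp only [Prod.smul_mk, Prod.mk_add_mk, smul_eq_mul]
      push_cast
      field_simp
      ring

theorem p_pyr : S_pyr := by
  intro P b X Y k a c j s hP hB hX hj hjk h0 h1 h2
  refine rpyr_fin hP hX hj hjk ?_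
  have hd : (0 : ℝ) < ((k - j : ℤ) : ℝ) := by exact_mod_cast (sub_pos.2 hjk)
  set A : ℤ := k * a - j * X with hA
  set C : ℤ := k * c - j * Y with hC
  set D : ℤ := k - j with hD
  fin_cases b
  · -- the triangle W
    obtain ⟨e1, e2, e3⟩ := h0 rfl
    have m1 : ip (1, 0, 0) ∈ P := hB _ (by simp [Base])
    have m2 : ip (0, 1, 0) ∈ P := hB _ (by simp [Base])
    have m3 : ip (-1, -1, 0) ∈ P := hB _ (by simp [Base])
    have f1 : ((A : ℝ)) + C ≤ (D : ℝ) := by exact_mod_cast e1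
    have f2 : ((A : ℝ)) - 2 * C ≤ (D : ℝ) := by exact_mod_cast e2
    have f3 : ((C : ℝ)) - 2 * A ≤ (D : ℝ) := by exact_mod_cast e3
    refine rpyr_c4 hP m1 m2 m3 m3 (a := ((D : ℝ) + 2 * A - C) / (3 * D))
      (b := ((D : ℝ) + 2 * C - A) / (3 * D)) (c := ((D : ℝ) - A - C) / (3 * D)) (d := 0)
      (div_nonneg (by linarith) (by positivity)) (div_nonneg (by linarith) (by positivity))
      (div_nonneg (by linarith) (by positivity)) le_rfl ?_ ?_
    · field_simp; ring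
    · unfold ip
      ext
      · simp only [Prod.smul_mk, Prod.mk_add_mk, smul_eq_mul]
        push_cast
        field_simp
        ring
      · simp only [Prod.smul_mk, Prod.mk_add_mk, smul_eq_mul]
        push_cast
        field_simp
        ring
      · simp
  · -- the triangle T
    obtain ⟨e1, e2⟩ := h1 rfl
    have m1 : ip (1, 1, 0) ∈ P := hB _ (by simp [Base])
    have m2 : ip (-1, 1, 0) ∈ P := hB _ (by simp [Base])
    have m3 : ip (0, -1, 0) ∈ P := hB _ (by simp [Base])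
    have f1 : ((C : ℝ)) ≤ (D : ℝ) := by exact_mod_cast e1
    have f2 : 2 * |(A : ℝ)| - C ≤ (D : ℝ) := by exact_mod_cast e2
    have g1 := le_abs_self (A : ℝ)
    have g2 := neg_le_abs (A : ℝ)
    refine rpyr_c4 hP m1 m2 m3 m3 (a := ((D : ℝ) + 2 * A + C) / (4 * D))
      (b := ((D : ℝ) + C - 2 * A) / (4 * D)) (c := ((D : ℝ) - C) / (2 * D)) (d := 0)
      (div_nonneg (by linarith) (by positivity)) (div_nonneg (by linarith) (by positivity))
      (div_nonneg (by linarith) (by positivity)) le_rfl ?_ ?_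
    · field_simp; ring
    · unfold ip
      ext
      · simp only [Prod.smul_mk, Prod.mk_add_mk, smul_eq_mul]
        push_cast
        field_simp
        ring
      · simp only [Prod.smul_mk, Prod.mk_add_mk, smul_eq_mul]
        push_cast
        field_simp
        ring
      · simp
  · -- the square D
    have e1 := h2 rfl
    have m1 : ip (1, 0, 0) ∈ P := hB _ (by simp [Base])
    have m2 : ip (-1, 0, 0) ∈ P := hB _ (by simp [Base])
    have m3 : ip (0, 1, 0) ∈ P := hB _ (by simp [Base])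
    have m4 : ip (0, -1, 0) ∈ P := hB _ (by simp [Base])
    have f1 : |(A : ℝ)| + |(C : ℝ)| ≤ (D : ℝ) := by exact_mod_cast e1
    have g1 := le_abs_self (A : ℝ)
    have g2 := neg_le_abs (A : ℝ)
    have g3 := le_abs_self (C : ℝ)
    have g4 := neg_le_abs (C : ℝ)
    refine rpyr_c4 hP m1 m2 m3 m4
      (a := ((D : ℝ) + |(A : ℝ)| - |(C : ℝ)| + 2 * A) / (4 * D))
      (b := ((D : ℝ) + |(A : ℝ)| - |(C : ℝ)| - 2 * A) / (4 * D))
      (c := ((D : ℝ) + |(C : ℝ)| - |(A : ℝ)| + 2 * C) / (4 * D))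
      (d := ((D : ℝ) + |(C : ℝ)| - |(A : ℝ)| - 2 * C) / (4 * D))
      (div_nonneg (by linarith) (by positivity)) (div_nonneg (by linarith) (by positivity))
      (div_nonneg (by linarith) (by positivity)) (div_nonneg (by linarith) (by positivity)) ?_ ?_
    · field_simp; ring
    · unfold ip
      ext
      · simp only [Prod.smul_mk, Prod.mk_add_mk, smul_eq_mul]
        push_cast
        field_simp
        ring
      · simp only [Prod.smul_mk, Prod.mk_add_mk, smul_eq_mul]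
        push_cast
        field_simp
        ring
      · simp

end Pool.Agent.Lib.MP_0bc52e_nt.R
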