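import Pool.Agent.Lib.MP_0bc52e_nt.R.StmR

/-!
# Proof of [side]
-/

namespace Pool.Agent.Lib.MP_0bc52e_nt.R

open Pool.Agent.Lib.MP_0bc52e_nt.LC Pool.Agent.Lib.MP_0bc52e_nt.T

/-- A point on the given side with the least height. -/
private theorem rside_min (P : Set (ℝ × ℝ × ℝ)) (s : ℤ) (h : ∃ v : ℤ × ℤ × ℤ, ip v ∈ P ∧ 0 < s * v.2.2) :
    ∃ v : ℤ × ℤ × ℤ, ip v ∈ P ∧ 0 < s * v.2.2 ∧ ∀ w : ℤ × ℤ × ℤ, ip w ∈ P → 0 < s * w.2.2 → s * v.2.2 ≤ s * w.2.2 := by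
  classical
  have hN : ∃ n : ℕ, ∃ v : ℤ × ℤ × ℤ, ip v ∈ P ∧ 0 < s * v.2.2 ∧ s * v.2.2 = (n : ℤ) := by
    obtain ⟨v, hv, hv0⟩ := h
    exact ⟨(s * v.2.2).toNat, v, hv, hv0, (Int.toNat_of_nonneg hv0.le).symm⟩
  obtain ⟨v, hv, hv0, hvn⟩ := Nat.find_spec hN
  refine ⟨v, hv, hv0, fun w hw hw0 => ?_⟩
  have h1 : Nat.find hN ≤ (s * w.2.2).toNat :=
    Nat.find_min' hN ⟨w, hw, hw0, (Int.toNat_of_nonneg hw0.le).symm⟩
  rw [hvn]
  omega

theorem p_side (h1 : S_upW) (h2 : S_upT) (h3 : S_upD) (h4 : S_pyr) : S_side := by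
  intro P b s hP hB hs hex
  obtain ⟨v, hv, hv0, hmin⟩ := rside_min P s hex
  obtain ⟨X, Y, Z⟩ := v
  simp only at hv0 hmin
  have hss : s * s = 1 := by rcases hs with rfl | rfl <;> norm_num
  obtain ⟨k, hk⟩ : ∃ k, k = s * Z := ⟨_, rfl⟩
  have hZ : Z = s * k := by rw [hk, ← mul_assoc, hss, one_mul]
  subst hZ
  rw [← hk] at hv0 hmin
  have key : ∀ j a c : ℤ, 0 < j → j < k → ip (a, c, s * j) ∈ P → False := by
    intro j a c hj hjk hp
    have h5 := hmin (a, c, s * j) hp (by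
      show 0 < s * (s * j)
      rw [← mul_assoc, hss, one_mul]; exact hj)
    have h6 : s * (s * j) = j := by rw [← mul_assoc, hss, one_mul]
    change k ≤ s * (s * j) at h5
    omega
  by_cases hk1 : k = 1
  · refine ⟨(X, Y, s * k), Or.inl ?_, hv⟩
    show s * k = s
    rw [hk1, mul_one]
  have hk2 : 2 ≤ k := by omega
  fin_cases b
  · obtain ⟨hk3, hXY⟩ := h1 k X Y hk2 (by
      intro j a c hj hjk hcon
      exact key j a c hj hjk (h4 P 0 X Y k a c j s hP hB hv hj hjk (fun _ => hcon)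
        (fun h => absurd h (by decide)) (fun h => absurd h (by decide))))
    refine ⟨(X, Y, s * k), Or.inr (Or.inl ⟨rfl, ?_, hXY⟩), hv⟩
    show s * k = 3 * s
    rw [hk3]; ring
  · obtain ⟨hk3, hX, hY⟩ := h2 k X Y hk2 (by
      intro j a c hj hjk hcon
      exact key j a c hj hjk (h4 P 1 X Y k a c j s hP hB hv hj hjk
        (fun h => absurd h (by decide)) (fun _ => hcon) (fun h => absurd h (by decide))))
    refine ⟨(X, Y, s * k), Or.inr (Or.inr (Or.inl ⟨rfl, ?_, hX, hY⟩)), hv⟩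
    show s * k = 2 * s
    rw [hk3]; ring
  · obtain ⟨hk3, hX, hY⟩ := h3 k X Y hk2 (by
      intro j a c hj hjk hcon
      exact key j a c hj hjk (h4 P 2 X Y k a c j s hP hB hv hj hjk
        (fun h => absurd h (by decide)) (fun h => absurd h (by decide)) (fun _ => hcon)))
    refine ⟨(X, Y, s * k), Or.inr (Or.inr (Or.inr ⟨rfl, ?_, hX, hY⟩)), hv⟩
    show s * k = 2 * s
    rw [hk3]; ring

end Pool.Agent.Lib.MP_0bc52e_nt.R
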